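import Pool.Agent.TH192.MT.Top
import Pool.Agent.TH192.DT.IdealTypes

set_option autoImplicit false
set_option linter.unusedSectionVars false
set_option linter.unusedVariables false

/-! # The zeta functions of the products of the ideals -/

namespace Pool.Agent.TH192.MT

open MvPolynomial Matrix Pool.Agent.W428.MOT Pool.Agent.TH192.DT Pool.Agent.TH192.PA
  Pool.Agent.Helper929 Pool.Agent.W574.SM

section

variable {K : Type} [Field K] {T : ℕ}

/-- The conditions on the origin and the leading coefficients. -/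
def VI (X : Sys T) (W : Set (Pt K X.ι)) : Set (Pt K (Empty ⊕ (X.ι ⊕ X.Λ))) :=
  {v | (fun i => v (Sum.inr (Sum.inl i))) ∈ W ∧
    ∀ t, ∃ l, X.τ l = t ∧ v (Sum.inr (Sum.inr l)) ≠ 0}

theorem constr_VI (X : Sys T) {W : Set (Pt K X.ι)} (hW : Constr W) : Constr (VI X W) := by
  refine Constr.and (hW.preimage _ fun i => IsPF.coord _) ?_
  exact Constr.all fun t => Constr.ex fun l => Constr.and (Constr.const _)
    (Constr.not (Constr.eqz (IsPF.coord _)))

theorem gd_VI (X : Sys T) (W : Set (Pt K X.ι)) : Gd X (VI X W) := fun v hv => hv.2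

/-- The jets with the orders `α`. -/
def SI (X : Sys T) (W : Set (Pt K X.ι)) (α : Fin T → ℕ) (N : ℕ) :
    Set (Pt K (X.ι × Fin (N + 1))) :=
  {z | (fun i => z (i, 0)) ∈ W ∧ Van X α (ar z) ∧ ∀ t, ∃ l, X.τ l = t ∧ lam X α (ar z) l ≠ 0}

theorem mem_SI (X : Sys T) (W : Set (Pt K X.ι)) (α : Fin T → ℕ) (N : ℕ)
    (z : Pt K (X.ι × Fin (N + 1))) : z ∈ SI X W α N ↔
      (fun i => z (((Equiv.sumEmpty (Empty ⊕ X.ι × Fin (N + 1)) Empty).trans
        (Equiv.emptySum Empty (X.ι × Fin (N + 1)))) (Sum.inl i))) ∈ SS X (VI X W) α N := by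
  constructor
  · rintro ⟨h1, h2, h3⟩
    exact ⟨h2, h1, h3⟩
  · rintro ⟨h2, h1, h3⟩
    exact ⟨h1, h2, h3⟩

theorem chi_SI {R : Type} [CommRing R] (M : Meas K R) (X : Sys T) {W : Set (Pt K X.ι)}
    (hW : Constr W) (α : Fin T → ℕ) (N : ℕ) :
    M.χ _ (SI X W α N) = M.χ _ (SS X (VI X W) α N) := by
  have h1 := chi_split M ((Equiv.sumEmpty (Empty ⊕ X.ι × Fin (N + 1)) Empty).trans
    (Equiv.emptySum Empty (X.ι × Fin (N + 1)))) (SI X W α N) (SS X (VI X W) α N)
    (constr_SS X (constr_VI X hW) α N) (mem_SI X W α N)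
  rw [h1, Fintype.card_eq_zero, pow_zero, mul_one]

theorem constr_SI (X : Sys T) {W : Set (Pt K X.ι)} (hW : Constr W) (α : Fin T → ℕ) (N : ℕ) :
    Constr (SI X W α N) := by
  refine Constr.and (hW.preimage _ fun i => IsPF.coord _) (Constr.and ?_ ?_)
  · refine Constr.all fun l => Constr.allLt _ fun j _ => Constr.eqz ?_
    exact pf_coeff _ (fun i => IsPF.coord _) _ _
  · exact Constr.all fun t => Constr.ex fun l => Constr.and (Constr.const _)
      (Constr.not (Constr.eqz (pf_coeff _ (fun i => IsPF.coord _) _ _)))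

/-- The products of one polynomial of each family. -/
noncomputable def gX (X : Sys T) (c : {c : Fin T → X.Λ // ∀ t, X.τ (c t) = t}) :
    MvPolynomial X.ι ℤ := ∏ t, X.G (c.1 t)

theorem ev_gX {A : Type} [CommRing A] (X : Sys T) (x : X.ι → A)
    (c : {c : Fin T → X.Λ // ∀ t, X.τ (c t) = t}) : ev x (gX X c) = ∏ t, ev x (X.G (c.1 t)) :=
  map_prod _ _ _

/-- the partition of the jets -/
theorem jetsI_eq (X : Sys T) (W : Set (Pt K X.ι)) (N : ℕ) :
    JetF (fun c => map (Int.castRingHom K) (gX X c)) W N =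
      ⋃ α ∈ box (fun _ : Fin T => 1) N, SI X W α N := by
  classical
  ext z
  simp only [JetF, Set.mem_ofPred_eq, aeval_map_ev, ev_gX, Set.mem_iUnion, exists_prop,
    mem_box (fun _ : Fin T => 1) (fun _ => Nat.one_pos), one_mul]
  have lp : ∀ (α : Fin T → ℕ) (H : Fin T → PowerSeries (AlgebraicClosure K)),
      (∀ t, Vn (α t) (H t)) → Vn (∑ t, α t) (∏ t, H t) ∧
        PowerSeries.coeff (∑ t, α t) (∏ t, H t) = ∏ t, PowerSeries.coeff (α t) (H t) := by
    intro α H h
    have h1 := lead_prod (fun _ => 1) α H h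
    simp only [one_mul, pow_one] at h1
    exact h1
  constructor
  · rintro ⟨h1, h2, c, h3⟩
    have h7 : ∀ t, ∃ n, ∃ l, X.τ l = t ∧ PowerSeries.coeff n (ev (ar z) (X.G l)) ≠ 0 := by
      intro t
      by_contra h
      push Not at h
      apply h3
      have h4 : ev (ar z) (X.G (c.1 t)) = 0 :=
        PowerSeries.ext fun n => by rw [h n _ (c.2 t), map_zero]
      rw [Finset.prod_eq_zero (Finset.mem_univ t) h4, map_zero]
    have hvan : Van X (fun t => Nat.find (h7 t)) (ar z) := by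
      intro l j hj
      have := Nat.find_min (h7 (X.τ l)) hj
      push Not at this
      exact this l rfl
    choose l hl hl' using fun t => Nat.find_spec (h7 t)
    obtain ⟨h4, h5⟩ := lp (fun t => Nat.find (h7 t)) (fun t => ev (ar z) (X.G (l t))) (fun t => by
      have := hvan (l t)
      rw [hl t] at this
      exact this)
    obtain ⟨h6, -⟩ := lp (fun t => Nat.find (h7 t)) (fun t => ev (ar z) (X.G (c.1 t))) (fun t => by
      have := hvan (c.1 t)
      rw [c.2 t] at this
      exact this)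
    have h8 : PowerSeries.coeff (∑ t, Nat.find (h7 t)) (∏ t, ev (ar z) (X.G (l t))) ≠ 0 := by
      rw [h5]
      exact Finset.prod_ne_zero_iff.2 fun t _ => hl' t
    refine ⟨fun t => Nat.find (h7 t), ?_, h1, hvan, fun t => ⟨l t, hl t, ?_⟩⟩
    · rcases lt_trichotomy (∑ t, Nat.find (h7 t)) N with h | h | h
      · exact absurd (h2 ⟨l, hl⟩ _ h) h8
      · exact h
      · exact absurd (h6 _ h) h3
    · unfold lam
      rw [hl t]
      exact hl' t
  · rintro ⟨α, hN, h1, h2, h3⟩
    choose l hl hl' using h3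
    refine ⟨h1, fun c k hk => ?_, ⟨l, hl⟩, ?_⟩
    · obtain ⟨h6, -⟩ := lp α (fun t => ev (ar z) (X.G (c.1 t))) (fun t => by
        have := h2 (c.1 t)
        rw [c.2 t] at this
        exact this)
      exact h6 k (by rw [hN]; exact hk)
    · obtain ⟨-, h6⟩ := lp α (fun t => ev (ar z) (X.G (l t))) (fun t => by
        have := h2 (l t)
        rw [hl t] at this
        exact this)
      rw [hN] at h6
      rw [h6]
      refine Finset.prod_ne_zero_iff.2 fun t _ => ?_
      have := hl' t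
      unfold lam at this
      rw [hl t] at this
      exact this

theorem jetsI_disj (X : Sys T) (W : Set (Pt K X.ι)) (N : ℕ) (q q' : Fin T → ℕ) (h : q ≠ q') :
    Disjoint (SI X W q N) (SI X W q' N) := by
  rw [Set.disjoint_left]
  rintro z ⟨_, h2, h3⟩ ⟨_, h2', h3'⟩
  apply h
  funext t
  rcases lt_trichotomy (q t) (q' t) with h | h | h
  · exfalso
    obtain ⟨l, hl, hl'⟩ := h3 t
    exact hl' (h2' l _ (by rw [hl]; exact h))
  · exact h
  · exfalso
    obtain ⟨l, hl, hl'⟩ := h3' t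
    exact hl' (h2 l _ (by rw [hl]; exact h))

theorem zetaI_eq {R : Type} [CommRing R] (M : Meas K R) (v : R) (hv : M.L * v = 1) (X : Sys T)
    {W : Set (Pt K X.ι)} (hW : Constr W) :
    (PowerSeries.mk fun N => M.χ (X.ι × Fin (N + 1))
      (JetF (fun c => map (Int.castRingHom K) (gX X c)) W N) * v ^ (N * Fintype.card X.ι)) =
      gf (fun _ : Fin T => 1) (mm M v X (VI X W)) := by
  classical
  ext N
  unfold gf
  rw [PowerSeries.coeff_mk, PowerSeries.coeff_mk, jetsI_eq, Pool.Agent.W375.MT.chi_biUnion M _ _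
    (fun q _ => constr_SI X hW q N) (fun q _ q' _ h => jetsI_disj X W N q q' h), Finset.sum_mul]
  refine Finset.sum_congr rfl fun α hα => ?_
  rw [mem_box _ (fun _ => Nat.one_pos)] at hα
  rw [chi_SI M X hW]
  exact mm_eq M v hv X (constr_VI X hW) α N
    (fun t => le_of_sum (fun _ => 1) (fun _ => Nat.one_pos) hα.le t)

/-- only the polynomials of the family matter -/
theorem jetF_congr {σ J J' : Type} (f : J → MvPolynomial σ K) (f' : J' → MvPolynomial σ K)
    (h : ∀ j, ∃ j', f j = f' j') (h' : ∀ j', ∃ j, f' j' = f j) (W : Set (Pt K σ)) (N : ℕ) :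
    JetF f W N = JetF f' W N := by
  have key : ∀ {J J' : Type} (f : J → MvPolynomial σ K) (f' : J' → MvPolynomial σ K),
      (∀ j, ∃ j', f j = f' j') → (∀ j', ∃ j, f' j' = f j) → JetF f W N ⊆ JetF f' W N := by
    rintro J J' f f' h h' z ⟨h1, h2, j, h3⟩
    refine ⟨h1, fun j' k hk => ?_, ?_⟩
    · obtain ⟨j, hj⟩ := h' j'
      rw [hj]
      exact h2 j k hk
    · obtain ⟨j', hj'⟩ := h j
      exact ⟨j', hj' ▸ h3⟩
  exact Set.Subset.antisymm (key f f' h h') (key f' f h' h)

end

theorem pfaff_eq {R : Type} [CommRing R] : ∀ (n : ℕ) (A : Matrix (Fin n) (Fin n) R),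
    pfaff n A = pf n A
  | 0, _ => rfl
  | 1, _ => rfl
  | (n + 2), A => by
    rw [pfaff, pf]
    exact Finset.sum_congr rfl fun j _ => by rw [pfaff_eq n]

theorem minor_eq (S : MSpace) (k : ℕ) (j : S.Idx k) : minor S k j = S.minorsZ k j := by
  cases S with
  | gen m n => rfl
  | sym n => rfl
  | skew n => exact pfaff_eq _ _

theorem detForm_eq (S : MSpace) {T : ℕ} (p a : Fin T → ℕ) : detForm S p a = S.formZ p a := by
  unfold detForm MSpace.formZ
  refine Finset.prod_congr rfl fun t _ => ?_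
  congr 1
  exact Finset.sum_congr rfl fun j _ => by rw [minor_eq]

theorem map_detForm (S : MSpace) {T : ℕ} (p a : Fin T → ℕ) :
    map (Int.castRingHom ℂ) (detForm S p a) = S.form p a := by
  rw [detForm_eq, S.map_formZ]

theorem map_detProd (S : MSpace) {T : ℕ} (p : Fin T → ℕ) (j : (t : Fin T) → S.Idx (p t)) :
    map (Int.castRingHom ℂ) (detProd S p j) = S.prods p j := by
  unfold detProd
  rw [map_prod]
  exact Finset.prod_congr rfl fun t _ => by
    rw [minor_eq, S.map_minorsZ]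

/-! ### the pairs -/

theorem lt_rk (S : MSpace) {T : ℕ} (p a : Fin T → ℕ) (hp : ∀ t, S.Small (p t)) {d : ℕ}
    (hd : 0 < ∑ t, a t * (p t - d)) : d < S.rk := by
  have hrk : ∀ t, p t ≤ S.rk := by
    intro t
    have h := hp t
    cases S with
    | gen m n =>
      have h' : p t < m ∧ p t < n := h
      change p t ≤ min m n
      omega
    | sym n =>
      have h' : p t < n := h
      change p t ≤ n
      omega
    | skew n =>
      have h' : 2 * p t + 1 < n := h
      change p t ≤ n / 2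
      omega
  by_contra h
  have h1 : ∑ t, a t * (p t - d) = 0 := by
    refine Finset.sum_eq_zero fun t _ => ?_
    have := hrk t
    rw [Nat.sub_eq_zero_of_le (by omega), Nat.mul_zero]
  omega

theorem Dset_det (S : MSpace) {T : ℕ} (p a : Fin T → ℕ) (hp : ∀ t, S.Small (p t)) :
    Dset S.codim p a 0 ⊆ (detPairs S p a : Set (ℤ × ℤ)) := by
  rintro q ⟨d, _, hd, rfl⟩
  rw [Finset.mem_coe, detPairs, Finset.mem_image]
  exact ⟨d, Finset.mem_filter.2 ⟨Finset.mem_range.2 (lt_rk S p a hp hd), hd⟩, rfl⟩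

theorem formPairs_sub (S : MSpace) {T : ℕ} (p a : Fin T → ℕ) (ha : ∀ t, 0 < a t) :
    formPairs S p a ⊆ pairs (S.nu T) (mulN S.rk p a) := by
  intro q hq
  rw [formPairs, Finset.mem_union] at hq
  rcases hq with hq | hq
  · rw [detPairs, Finset.mem_image] at hq
    obtain ⟨d, hd, rfl⟩ := hq
    rw [Finset.mem_filter, Finset.mem_range] at hd
    exact mem_pairs (S.nu T) (mulN S.rk p a) (Sum.inl ⟨d, hd.1⟩) hd.2
  · rw [Finset.mem_image] at hq
    obtain ⟨t, _, rfl⟩ := hq
    exact mem_pairs (S.nu T) (mulN S.rk p a) (Sum.inr t) (ha t)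

theorem detPairs_sub (S : MSpace) {T : ℕ} (p : Fin T → ℕ) :
    detPairs S p (fun _ => 1) ⊆ pairs (fun d : Fin S.rk => S.codim d) (S.idealN p) := by
  intro q hq
  rw [detPairs, Finset.mem_image] at hq
  obtain ⟨d, hd, rfl⟩ := hq
  rw [Finset.mem_filter, Finset.mem_range] at hd
  simp only [one_mul] at hd ⊢
  exact mem_pairs (fun d : Fin S.rk => S.codim d) (S.idealN p) ⟨d, hd.1⟩ hd.2

theorem detPairs_form (S : MSpace) {T : ℕ} (p a : Fin T → ℕ) :
    (detPairs S p a : Set (ℤ × ℤ)) ⊆ (formPairs S p a : Set (ℤ × ℤ)) := by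
  rw [Finset.coe_subset]
  exact Finset.subset_union_left

theorem one_form (S : MSpace) {T : ℕ} (p a : Fin T → ℕ) (t : Fin T) :
    (-1, (a t : ℤ)) ∈ (formPairs S p a : Set (ℤ × ℤ)) := by
  rw [Finset.mem_coe, formPairs, Finset.mem_union]
  exact Or.inr (Finset.mem_image.2 ⟨t, Finset.mem_univ t, rfl⟩)

/-! ### the zeta functions -/

/-- the jets of the product of the ideals -/
theorem jetF_prods {K : Type} [Field K] (S : MSpace) {T : ℕ} (p : Fin T → ℕ)
    (W : Set (Pt K S.Var)) (N : ℕ) :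
    JetF (fun j => map (Int.castRingHom K) (detProd S p j)) W N =
      JetF (fun c => map (Int.castRingHom K) (gX (topSys S p) c)) W N := by
  refine jetF_congr _ _ (fun j => ?_) (fun c => ?_) W N
  · refine ⟨⟨fun t => ⟨t, j t⟩, fun t => rfl⟩, ?_⟩
    congr 1
    exact Finset.prod_congr rfl fun t _ => minor_eq S (p t) (j t)
  · have h1 : ∀ t, ∃ j : S.Idx (p t), (topSys S p).G (c.1 t) = minor S (p t) j := by
      intro t
      have h2 : ∀ (l : Σ t, S.Idx (p t)) (t : Fin T), l.1 = t →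
          ∃ j : S.Idx (p t), S.minorsZ (p l.1) l.2 = minor S (p t) j := by
        rintro ⟨t', j⟩ t rfl
        exact ⟨j, (minor_eq S _ _).symm⟩
      exact h2 (c.1 t) t (c.2 t)
    choose j hj using h1
    refine ⟨j, ?_⟩
    congr 1
    exact Finset.prod_congr rfl fun t _ => hj t

theorem drop_mem {R : Type} [CommRing R] {A : Subalgebra R (PowerSeries R)} {g : ℕ → R}
    (h : PowerSeries.mk g ∈ A) : (PowerSeries.mk fun d => if d = 0 then 0 else g d) ∈ A := by
  have h1 : (PowerSeries.mk fun d => if d = 0 then 0 else g d) =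
      PowerSeries.mk g - algebraMap R (PowerSeries R) (g 0) := by
    ext d
    rw [map_sub, PowerSeries.coeff_mk, PowerSeries.coeff_mk, PowerSeries.algebraMap_apply,
      Algebra.algebraMap_self_apply, PowerSeries.coeff_C]
    split_ifs with h
    · rw [h, sub_self]
    · rw [sub_zero]
  rw [h1]
  exact Subalgebra.sub_mem _ h (Subalgebra.algebraMap_mem _ _)

/-- **The zeta functions of the determinantal forms.** -/
theorem zetaM_mem {K : Type} [Field K] [CharZero K] (S : MSpace) (T : ℕ) (p a : Fin T → ℕ)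
    (hp : ∀ t, S.Small (p t)) (ha : ∀ t, 0 < a t)
    {W : Set (Pt K ((Σ t, S.Idx (p t)) ⊕ S.Var))} (hW : Constr W)
    {E : Set (AlgebraicClosure K)} (hE : GoodE E) :
    zetaM (map (Int.castRingHom K) (detForm S p a)) W E ∈
      ratRing K (formPairs S p a : Set (ℤ × ℤ)) := by
  obtain ⟨M, hL, hM⟩ := exists_meas K
  have h1 := zetaS_mem (X := topSys S p) (a := a) hL ha
    (D := (formPairs S p a : Set (ℤ × ℤ)))
    (fun π _ V hV hG => rat_mono (Lu K) ((Dset_det S p a hp).trans (detPairs_form S p a))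
      (top_rt S hL p a ha π V hV hG))
    (one_form S p a) (W := W) hW (E := E) hE
  rw [fX_top, ← detForm_eq] at h1
  have h2 : zetaM (map (Int.castRingHom K) (detForm S p a)) W E =
      zetaS M (((Lu K)⁻¹ : (MK K)ˣ) : MK K) (map (Int.castRingHom K) (detForm S p a)) W E := by
    unfold zetaM zetaS
    congr 1
    funext d
    rw [hM, inv_pow_eq, Nat.mul_comm]
  rw [h2]
  exact h1

theorem zetaX_mem {K : Type} [Field K] [CharZero K] (S : MSpace) (T : ℕ) (p a : Fin T → ℕ)
    (hp : ∀ t, S.Small (p t)) (ha : ∀ t, 0 < a t)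
    (x : (Σ t, S.Idx (p t)) ⊕ S.Var → K) :
    zetaX (map (Int.castRingHom K) (detForm S p a)) x ∈
      ratRing K (formPairs S p a : Set (ℤ × ℤ)) :=
  drop_mem (zetaM_mem S T p a hp ha (constr_point x) good_one)

theorem constr_zero {K : Type} [Field K] {σ : Type} [Fintype σ] :
    Constr ({0} : Set (Pt K σ)) := by
  have h := constr_point (K := K) (fun _ : σ => (0 : K))
  simp only [map_zero] at h
  exact h

theorem zetaO_mem {K : Type} [Field K] [CharZero K] (S : MSpace) (T : ℕ) (p a : Fin T → ℕ)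
    (hp : ∀ t, S.Small (p t)) (ha : ∀ t, 0 < a t) :
    zetaO (map (Int.castRingHom K) (detForm S p a)) ∈
      ratRing K (formPairs S p a : Set (ℤ × ℤ)) :=
  Subalgebra.mul_mem _ (rat_C (Lu K) _)
    (drop_mem (zetaM_mem S T p a hp ha constr_zero good_ne))

theorem zetaJ_mem {K : Type} [Field K] [CharZero K] (S : MSpace) (T : ℕ) (p : Fin T → ℕ)
    (hp : ∀ t, S.Small (p t)) :
    zetaJ (fun j => map (Int.castRingHom K) (detProd S p j)) ∈
      ratRing K (detPairs S p (fun _ => 1) : Set (ℤ × ℤ)) := by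
  obtain ⟨M, hL, hM⟩ := exists_meas K
  refine Subalgebra.mul_mem _ (rat_C (Lu K) _) (drop_mem ?_)
  have hW : Constr ({0} : Set (Pt K S.Var)) := constr_zero
  have h1 := top_rt S hL p (fun _ => 1) (fun _ => Nat.one_pos) Empty (VI (topSys S p) {0})
    (constr_VI (topSys S p) hW) (gd_VI (topSys S p) {0})
  rw [← zetaI_eq M _ (hv hL) (topSys S p) hW] at h1
  have h2 : (PowerSeries.mk fun N => algebraMap (K0 K) (MK K) (cls (S.Var × Fin (N + 1))
      (JetF (fun j => map (Int.castRingHom K) (detProd S p j)) {0} N)) *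
      (((Lu K) ^ (-((Fintype.card S.Var * N : ℕ) : ℤ)) : (MK K)ˣ) : MK K)) =
      PowerSeries.mk fun N => M.χ ((topSys S p).ι × Fin (N + 1))
      (JetF (fun c => map (Int.castRingHom K) (gX (topSys S p) c)) {0} N) *
        (((Lu K)⁻¹ : (MK K)ˣ) : MK K) ^ (N * Fintype.card (topSys S p).ι) := by
    congr 1
    funext N
    rw [hM, inv_pow_eq, jetF_prods, Nat.mul_comm]
  rw [h2]
  exact rat_mono (Lu K) (Dset_det S p (fun _ => 1) hp) h1

/-! ### the roots -/

theorem form_roots (S : MSpace) (T : ℕ) (p a : Fin T → ℕ) (hp : ∀ t, S.Small (p t))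
    (ha : ∀ t, 0 < a t) (q : ℤ × ℤ) (hq : q ∈ formPairs S p a) :
    q.1 < 0 ∧ 0 < q.2 ∧
      (∀ b : Polynomial ℂ, Pool.Agent.H628R4.TP.IsBFunction
        (map (Int.castRingHom ℂ) (detForm S p a)) b → b.eval ((q.1 : ℂ) / q.2) = 0) ∧
      ∀ b : Polynomial ℂ, Pool.Agent.H628R4.TP.IsLocalBFunction
        (map (Int.castRingHom ℂ) (detForm S p a)) b → b.eval ((q.1 : ℂ) / q.2) = 0 := by
  have hq' := formPairs_sub S p a ha hq
  rw [map_detForm]
  exact ⟨(pairs_sign _ _ (S.nu_pos T) q hq').1, (pairs_sign _ _ (S.nu_pos T) q hq').2,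
    fun b hb => pairs_roots _ _ (S.nu_pos T) b
      (fun i l hl => S.roots_global T p a hp b hb i l hl) q hq',
    fun b hb => pairs_roots _ _ (S.nu_pos T) b
      (fun i l hl => S.roots_local T p a hp b hb i l hl) q hq'⟩

theorem prod_roots (S : MSpace) (T : ℕ) (p : Fin T → ℕ) (hp : ∀ t, S.Small (p t))
    (q : ℤ × ℤ) (hq : q ∈ detPairs S p (fun _ => 1)) :
    q.1 < 0 ∧ 0 < q.2 ∧
      ∀ (b : Polynomial ℂ) (H : MvPolynomial S.Var ℂ), constantCoeff H ≠ 0 →
        Pool.Agent.W574.LM.IsLocEq H (fun j => map (Int.castRingHom ℂ) (detProd S p j)) b →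
          b.eval ((q.1 : ℂ) / q.2) = 0 := by
  have hq' := detPairs_sub S p hq
  rw [funext (map_detProd S p)]
  exact ⟨(pairs_sign _ _ S.codim_pos q hq').1, (pairs_sign _ _ S.codim_pos q hq').2,
    fun b H hH hb => pairs_roots _ _ S.codim_pos b
      (fun d l hl => S.ideal_roots T p hp b H hH hb d l hl) q hq'⟩

end Pool.Agent.TH192.MT
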