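import Pool.Agent.TH192.DT.Types
import Pool.Agent.W428.MOT.Defs

set_option autoImplicit false

/-! # Forms over determinantal ideals, and the zeta functions defined with jets -/

namespace Pool.Agent.TH192.MT

open MvPolynomial Pool.Agent.W428.MOT Pool.Agent.TH192.DT

/-! ### The polynomials -/

/-- The Pfaffian, by expansion along the first row. -/
def pfaff {R : Type} [CommRing R] : (n : ℕ) → Matrix (Fin n) (Fin n) R → R
  | 0, _ => 1
  | 1, _ => 0
  | (n + 2), A => ∑ j : Fin (n + 1), (-1) ^ (j : ℕ) * A 0 j.succ *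
      pfaff n (A.submatrix (fun k => (j.succAbove k).succ) (fun k => (j.succAbove k).succ))

/-- The minors of size `k` of the matrix `(x_{i,j})` and of the symmetric matrix `(x_{i,j})`,
`x_{i,j} = x_{j,i}`, and the Pfaffians of size `2 k` of the skew symmetric matrix with the entries
`x_{i,j}`, `i < j`, with integral coefficients. -/
noncomputable def minor : (S : MSpace) → (k : ℕ) → S.Idx k → MvPolynomial S.Var ℤ
  | .gen m n, k => fun l : (Fin k ↪o Fin m) × (Fin k ↪o Fin n) =>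
      ((Matrix.of fun (i : Fin m) (j : Fin n) =>
        (X (i, j) : MvPolynomial (Fin m × Fin n) ℤ)).submatrix l.1 l.2).det
  | .sym n, k => fun l : (Fin k ↪o Fin n) × (Fin k ↪o Fin n) =>
      ((Matrix.of fun (i j : Fin n) =>
        (X s(i, j) : MvPolynomial (Sym2 (Fin n)) ℤ)).submatrix l.1 l.2).det
  | .skew n, k => fun l : Fin (2 * k) ↪o Fin n =>
      pfaff (2 * k) ((Matrix.of fun (i j : Fin n) =>
        (if h : i < j then X ⟨(i, j), h⟩ else if h : j < i then - X ⟨(j, i), h⟩ else 0 :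
          MvPolynomial {q : Fin n × Fin n // q.1 < q.2} ℤ)).submatrix l l)

/-- The polynomial `∏ t, (∑_j y_{t,j} M_j(x)) ^ a t` in the variables `y_{t,j}` and `x`, the `M_j` being
the minors (Pfaffians) of size `p t` (`2 (p t)`). -/
noncomputable def detForm (S : MSpace) {T : ℕ} (p a : Fin T → ℕ) :
    MvPolynomial ((Σ t, S.Idx (p t)) ⊕ S.Var) ℤ :=
  ∏ t, (∑ j, X (Sum.inl ⟨t, j⟩) * rename Sum.inr (minor S (p t) j)) ^ a t

/-- The products of one minor (Pfaffian) of size `p t` (`2 (p t)`) for each `t`. -/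
noncomputable def detProd (S : MSpace) {T : ℕ} (p : Fin T → ℕ) (j : (t : Fin T) → S.Idx (p t)) :
    MvPolynomial S.Var ℤ := ∏ t, minor S (p t) (j t)

/-- The pairs `(-ν_d, N_d)` with `N_d = ∑ t, a t max (p t - d, 0) > 0`, for `d < rk`, where `ν_d` is the
codimension of the locus of the matrices of rank at most `d` (`2 d`). -/
noncomputable def detPairs (S : MSpace) {T : ℕ} (p a : Fin T → ℕ) : Finset (ℤ × ℤ) :=
  ((Finset.range S.rk).filter fun d => 0 < ∑ t, a t * (p t - d)).image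
    fun d => (-(S.codim d : ℤ), ((∑ t, a t * (p t - d) : ℕ) : ℤ))

/-- The pairs `(-ν_d, N_d)` and the pairs `(-1, a t)`. -/
noncomputable def formPairs (S : MSpace) {T : ℕ} (p a : Fin T → ℕ) : Finset (ℤ × ℤ) :=
  detPairs S p a ∪ Finset.univ.image fun t => (-1, (a t : ℤ))

/-! ### Jets and zeta functions -/

/-- The arc `(z (i, 0) + z (i, 1) t + ⋯ + z (i, N) t ^ N)_i`. -/
noncomputable def ar {ι F : Type} [Semiring F] {N : ℕ} (z : ι × Fin (N + 1) → F) (i : ι) :
    PowerSeries F := PowerSeries.mk fun j => if h : j < N + 1 then z (i, ⟨j, h⟩) else 0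

variable {K : Type} [Field K] {σ : Type}

/-- The `d`-jets `φ` with `φ(0) ∈ W` and `f(φ) = c t ^ d mod t ^ (d + 1)` with `c ∈ E`. -/
def JetS (f : MvPolynomial σ K) (W : Set (Pt K σ)) (E : Set (AlgebraicClosure K))
    (d : ℕ) : Set (Pt K (σ × Fin (d + 1))) :=
  {z | (fun i => z (i, 0)) ∈ W ∧ (∀ j < d, PowerSeries.coeff j (aeval (ar z) f) = 0) ∧
    PowerSeries.coeff d (aeval (ar z) f) ∈ E}

/-- The `N`-jets `φ` with `φ(0) ∈ W` on which the ideal generated by the `f j` has the order `N`. -/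
def JetF {J : Type} (f : J → MvPolynomial σ K) (W : Set (Pt K σ)) (N : ℕ) :
    Set (Pt K (σ × Fin (N + 1))) :=
  {z | (fun i => z (i, 0)) ∈ W ∧ (∀ j, ∀ k < N, PowerSeries.coeff k (aeval (ar z) (f j)) = 0) ∧
    ∃ j, PowerSeries.coeff N (aeval (ar z) (f j)) ≠ 0}

variable [Fintype σ]

/-- The motivic zeta function `∑_{d ≥ 0} [X_d] 𝕃 ^ (-n d) T ^ d` of `f`, where `X_d` is the set of the
`d`-jets `φ` with `φ(0) ∈ W` and `f(φ) = c t ^ d mod t ^ (d + 1)` with `c ∈ E`, and `n` is the number of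
the variables. -/
noncomputable def zetaM (f : MvPolynomial σ K) (W : Set (Pt K σ)) (E : Set (AlgebraicClosure K)) :
    PowerSeries (MK K) :=
  PowerSeries.mk fun d => algebraMap (K0 K) (MK K) (cls (σ × Fin (d + 1)) (JetS f W E d)) *
    (((Lu K) ^ (-((Fintype.card σ * d : ℕ) : ℤ)) : (MK K)ˣ) : MK K)

/-- The motivic zeta function `∑_{d ≥ 1} [X_{d,1,x}] 𝕃 ^ (-n d) T ^ d` of `f` at the point `x`, where
`X_{d,1,x}` is the set of the `d`-jets `φ` with `φ(0) = x` and `f(φ) = t ^ d mod t ^ (d + 1)`. -/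
noncomputable def zetaX (f : MvPolynomial σ K) (x : σ → K) : PowerSeries (MK K) :=
  PowerSeries.mk fun d => if d = 0 then 0 else
    algebraMap (K0 K) (MK K) (cls (σ × Fin (d + 1))
      (JetS f {fun i => algebraMap K (AlgebraicClosure K) (x i)} {1} d)) *
      (((Lu K) ^ (-((Fintype.card σ * d : ℕ) : ℤ)) : (MK K)ˣ) : MK K)

/-- The local motivic zeta function `𝕃 ^ (-n) ∑_{l ≥ 1} [𝒳_l^0] 𝕃 ^ (-n l) T ^ l` of `f` at the
origin, where `𝒳_l^0` is the set of the `l`-jets `φ` with `φ(0) = 0` and `ord_t f(φ) = l`. -/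
noncomputable def zetaO (f : MvPolynomial σ K) : PowerSeries (MK K) :=
  PowerSeries.C (((Lu K) ^ (-(Fintype.card σ : ℤ)) : (MK K)ˣ) : MK K) * PowerSeries.mk fun l =>
    if l = 0 then 0 else
    algebraMap (K0 K) (MK K) (cls (σ × Fin (l + 1)) (JetS f {0} {c | c ≠ 0} l)) *
      (((Lu K) ^ (-((Fintype.card σ * l : ℕ) : ℤ)) : (MK K)ˣ) : MK K)

/-- The local motivic zeta function `𝕃 ^ (-n) ∑_{N ≥ 1} [𝒳_N] 𝕃 ^ (-n N) T ^ N` of the ideal generated
by the `f j` at the origin, where `𝒳_N` is the set of the `N`-jets `φ` with `φ(0) = 0` on which the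
ideal has the order `N`. -/
noncomputable def zetaJ {J : Type} (f : J → MvPolynomial σ K) : PowerSeries (MK K) :=
  PowerSeries.C (((Lu K) ^ (-(Fintype.card σ : ℤ)) : (MK K)ˣ) : MK K) * PowerSeries.mk fun N =>
    if N = 0 then 0 else
    algebraMap (K0 K) (MK K) (cls (σ × Fin (N + 1)) (JetF f {0} N)) *
      (((Lu K) ^ (-((Fintype.card σ * N : ℕ) : ℤ)) : (MK K)ˣ) : MK K)

end Pool.Agent.TH192.MT
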