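import Pool.Agent.TH192.MT.Univ
import Pool.Agent.TH192.PA.Towers

set_option autoImplicit false
set_option linter.unusedSectionVars false
set_option linter.unusedVariables false

/-! # The generic and the symmetric matrices -/

namespace Pool.Agent.TH192.MT

open MvPolynomial Matrix Pool.Agent.TH192.PA

/-- The `e t`-minors of a matrix of polynomials. -/
@[reducible] noncomputable def mSys {T : ℕ} {ι I J : Type} [Fintype ι] [Fintype I] [Fintype J]
    (Mx : Matrix I J (MvPolynomial ι ℤ)) (e : Fin T → ℕ) : Sys T where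
  ι := ι
  fι := inferInstance
  Λ := Σ t : Fin T, (Fin (e t) → I) × (Fin (e t) → J)
  fΛ := inferInstance
  τ l := l.1
  G l := (Mx.submatrix l.2.1 l.2.2).det

theorem fI_mSys {T : ℕ} {ι I J : Type} [Fintype ι] [Fintype I] [Fintype J]
    (Mx : Matrix I J (MvPolynomial ι ℤ)) (e : Fin T → ℕ) {A : Type} [CommRing A] (x : ι → A)
    (t : Fin T) : fI (mSys Mx e) x t = minI (e t) (Mx.map (ev x)) := by
  have key : ∀ l : (mSys Mx e).Λ, ev x ((mSys Mx e).G l) =
      ((Mx.map (ev x)).submatrix l.2.1 l.2.2).det := by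
    intro l
    exact RingHom.map_det (ev x) (Mx.submatrix l.2.1 l.2.2)
  refine le_antisymm (Ideal.span_le.2 ?_) (minI_le fun r c => ?_)
  · rintro y ⟨l, rfl, rfl⟩
    rw [SetLike.mem_coe, key l]
    exact det_mem _ _ _
  · exact Ideal.subset_span ⟨⟨t, (r, c)⟩, rfl, (key ⟨t, (r, c)⟩).symm⟩

theorem hom_det {ι : Type} {n : ℕ} (M : Matrix (Fin n) (Fin n) (MvPolynomial ι ℤ))
    (h : ∀ i j, (M i j).IsHomogeneous 1) : M.det.IsHomogeneous n := by
  rw [Matrix.det_apply]
  refine IsHomogeneous.sum _ _ _ fun σ _ => ?_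
  have h1 : (∏ i, M (σ i) i).IsHomogeneous n := by
    have := IsHomogeneous.prod Finset.univ (fun i => M (σ i) i) (fun _ => 1)
      (fun i _ => h _ _)
    simpa using this
  rcases Int.units_eq_one_or (Equiv.Perm.sign σ) with h2 | h2
  · rw [h2, one_smul]
    exact h1
  · rw [h2, Units.neg_smul, one_smul]
    exact h1.neg

/-- the ideals of minors after a pivot -/
theorem hI_minors {T : ℕ} {ι ι' I J I' J' : Type} [Fintype ι] [Fintype ι'] [Fintype I] [Fintype J]
    [Fintype I'] [Fintype J'] (MX : Matrix I J (MvPolynomial ι ℤ))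
    (MY : Matrix I' J' (MvPolynomial ι' ℤ)) (e : Fin T → ℕ) {k : ℕ} (e1 : Fin k ⊕ I' ≃ I)
    (e2 : Fin k ⊕ J' ≃ J) (A : Type) [CommRing A] (x : ι → A) (x' : ι' → A)
    (h : IsUnit (piv (MX.map (ev x)) e1 e2).det)
    (h' : MY.map (ev x') = schur (MX.map (ev x)) e1 e2) (t : Fin T) :
    fI (mSys MX e) x t = fI (mSys MY fun t => e t - k) x' t := by
  rw [fI_mSys, fI_mSys, h']
  rcases le_total k (e t) with hk | hk
  · have h1 := minI_schur (q := e t - k) (MX.map (ev x)) e1 e2 h
    rw [Nat.add_sub_cancel' hk] at h1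
    exact h1
  · rw [minI_top hk _ e1 e2 h, Nat.sub_eq_zero_of_le hk, minI_zero]

/-! ### all matrices -/

/-- The generic matrix. -/
noncomputable def gM (I J : Type) : Matrix I J (MvPolynomial (I × J) ℤ) :=
  Matrix.of fun i j => X (i, j)

theorem piv_gen {T : ℕ} {I J I' J' : Type} [Fintype I] [Fintype J] [Fintype I'] [Fintype J']
    {k : ℕ} (e1 : Fin k ⊕ I' ≃ I) (e2 : Fin k ⊕ J' ≃ J) (e : Fin T → ℕ) :
    ∃ p : Piv (mSys (gM I J) e) (mSys (gM I' J') fun t => e t - k),
      ∀ (A : Type) [CommRing A] (x : I × J → A), ev (fun q => x (p.e (Sum.inl q))) p.u =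
        (piv ((gM I J).map (ev x)) e1 e2).det := by
  refine matPiv (mSys (gM I J) e) (mSys (gM I' J') fun t => e t - k) (gM I J) (gM I' J')
    (fun y => y) e1 e2 (fun y => (e1 (Sum.inr y.1), e2 (Sum.inr y.2))) ?_ (fun y => rfl) ?_ ?_ ?_
  · rintro ⟨a, b⟩ ⟨c, d⟩ h
    have h1 := (Prod.mk.inj h).1
    have h2 := (Prod.mk.inj h).2
    have h3 := Sum.inr_injective (e1.injective h1)
    have h4 := Sum.inr_injective (e2.injective h2)
    exact Prod.ext h3 h4
  · intro A _ x x' hxx' a b hab
    change ev x (X (e1 a, e2 b)) = ev x' (X (e1 a, e2 b))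
    rw [ev_X, ev_X]
    apply hxx'
    rintro ⟨⟨c, d⟩, h⟩
    have h1 := (Prod.mk.inj h).1
    have h2 := (Prod.mk.inj h).2
    exact hab c d (e1.injective h1).symm (e2.injective h2).symm
  · intro A _ x _
    ext i j
    exact ev_X _ _
  · intro A _ x x' h h' t
    exact hI_minors (gM I J) (gM I' J') e e1 e2 A x x' h h' t

theorem hom_gM (I J : Type) {k : ℕ} (r : Fin k → I) (c : Fin k → J) :
    ((gM I J).submatrix r c).det.IsHomogeneous k :=
  hom_det _ fun i j => isHomogeneous_X _ _

theorem tw_gen {T : ℕ} (m n : ℕ) (p : Fin T → ℕ) : ∀ (l d : ℕ) (I J : Type) [Fintype I] [Fintype J],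
    Fintype.card I = l → Fintype.card I = m - d → Fintype.card J = n - d →
    Tw (fun d => (m - d) * (n - d)) p (mSys (gM I J) fun t => p t - d) d := by
  classical
  intro l
  induction l using Nat.strong_induction_on with
  | _ l ih =>
    intro d I J _ _ hl hI hJ
    have hp := fun b : I × J => piv_gen (eq1 b.1) (eq1 b.2) (fun t => p t - d)
    choose P hP using hp
    refine Tw.mk _ d ?_ ?_ (I × J) inferInstance
      (fun b => mSys (gM {x : I // x ≠ b.1} {x : J // x ≠ b.2}) fun t => p t - d - 1)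
      (fun _ => 1) (fun _ => one_pos) P ?_ ?_
    · change Fintype.card (I × J) = _
      rw [Fintype.card_prod, hI, hJ]
    · rintro ⟨t, r, c⟩
      exact hom_gM I J r c
    · intro F _ x hx
      obtain ⟨⟨i0, j0⟩, h⟩ := Function.ne_iff.1 hx
      refine ⟨(i0, j0), ?_⟩
      rw [hP (i0, j0) F x, Matrix.det_fin_one]
      change ev x (X (i0, j0)) ≠ 0
      rw [ev_X]
      exact h
    · rintro ⟨i0, j0⟩
      have hIpos : 0 < Fintype.card I := Fintype.card_pos_iff.2 ⟨i0⟩
      have hJpos : 0 < Fintype.card J := Fintype.card_pos_iff.2 ⟨j0⟩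
      have h1 := card_eq1 i0
      have h2 := card_eq1 j0
      have h3 := ih (Fintype.card I - 1) (by omega) (d + 1) {x : I // x ≠ i0} {x : J // x ≠ j0} h1
        (by rw [h1]; omega) (by rw [h2]; omega)
      exact h3

/-! ### symmetric matrices -/

/-- The symmetric matrix. -/
noncomputable def sM (I : Type) : Matrix I I (MvPolynomial (Sym2 I) ℤ) :=
  Matrix.of fun i j => X s(i, j)

theorem sM_coord {I : Type} {A : Type} [CommRing A] (N : Matrix I I A) (hN : N.transpose = N) :
    (sM I).map (ev fun y => N (Quot.out y).1 (Quot.out y).2) = N := by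
  ext i j
  change ev _ (X s(i, j)) = _
  rw [ev_X]
  have h1 : s((Quot.out s(i, j)).1, (Quot.out s(i, j)).2) = s(i, j) := Quot.out_eq _
  rcases Sym2.eq_iff.1 h1 with ⟨h2, h3⟩ | ⟨h2, h3⟩
  · rw [h2, h3]
  · rw [h2, h3]
    exact congrFun (congrFun hN i) j

theorem sM_symm {I : Type} {A : Type} [CommRing A] (x : Sym2 I → A) :
    ((sM I).map (ev x)).transpose = (sM I).map (ev x) := by
  ext i j
  change ev x (X s(j, i)) = ev x (X s(i, j))
  rw [Sym2.eq_swap]

theorem piv_sym {T : ℕ} {I I' : Type} [Fintype I] [DecidableEq I] [Fintype I'] [DecidableEq I']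
    {k : ℕ} (e1 : Fin k ⊕ I' ≃ I) (e : Fin T → ℕ) :
    ∃ p : Piv (mSys (sM I) e) (mSys (sM I') fun t => e t - k),
      ∀ (A : Type) [CommRing A] (x : Sym2 I → A), ev (fun q => x (p.e (Sum.inl q))) p.u =
        (piv ((sM I).map (ev x)) e1 e1).det := by
  have hinj : Function.Injective fun a : I' => e1 (Sum.inr a) :=
    fun a b h => Sum.inr_injective (e1.injective h)
  refine matPiv (mSys (sM I) e) (mSys (sM I') fun t => e t - k) (sM I) (sM I')
    (fun y => Quot.out y) e1 e1 (Sym2.map fun a => e1 (Sum.inr a)) (Sym2.map.injective hinj)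
    ?_ ?_ ?_ ?_
  · intro y
    change X s(e1 (Sum.inr (Quot.out y).1), e1 (Sum.inr (Quot.out y).2)) = _
    congr 1
    have h1 : s((Quot.out y).1, (Quot.out y).2) = y := Quot.out_eq _
    conv_rhs => rw [← h1]
    rfl
  · intro A _ x x' hxx' a b hab
    change ev x (X s(e1 a, e1 b)) = ev x' (X s(e1 a, e1 b))
    rw [ev_X, ev_X]
    apply hxx'
    rintro ⟨y, h⟩
    induction y using Sym2.inductionOn with
    | _ c d =>
      have h' : s(e1 (Sum.inr c), e1 (Sum.inr d)) = s(e1 a, e1 b) := h
      rcases Sym2.eq_iff.1 h' with ⟨h1, h2⟩ | ⟨h1, h2⟩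
      · exact hab c d (e1.injective h1).symm (e1.injective h2).symm
      · exact hab d c (e1.injective h2).symm (e1.injective h1).symm
  · intro A _ x hx
    refine sM_coord _ ?_
    have h2 := schur_eps (1 : A) (one_mul 1) ((sM I).map (ev x)) e1 hx
      (by rw [one_smul, sM_symm])
    rwa [one_smul] at h2
  · intro A _ x x' h h' t
    exact hI_minors (sM I) (sM I') e e1 e1 A x x' h h' t

theorem hom_sM (I : Type) {k : ℕ} (r : Fin k → I) (c : Fin k → I) :
    ((sM I).submatrix r c).det.IsHomogeneous k :=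
  hom_det _ fun i j => isHomogeneous_X _ _

theorem tw_sym {T : ℕ} (n : ℕ) (p : Fin T → ℕ) : ∀ (l d : ℕ) (I : Type) [Fintype I]
    [DecidableEq I], Fintype.card I = l → Fintype.card I = n - d →
    Tw (fun d => (n - d) * (n - d + 1) / 2) p (mSys (sM I) fun t => p t - d) d := by
  classical
  intro l
  induction l using Nat.strong_induction_on with
  | _ l ih =>
    intro d I _ _ hl hI
    -- the pivots
    have hp1 := fun i : I => piv_sym (eq1 i) (fun t => p t - d)
    choose P1 hP1 using hp1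
    have hp2 := fun q : {q : I × I // q.1 ≠ q.2} => piv_sym (eq2 q.1.1 q.1.2 q.2)
      (fun t => p t - d)
    choose P2 hP2 using hp2
    refine Tw.mk _ d ?_ ?_ (I ⊕ {q : I × I // q.1 ≠ q.2}) inferInstance
      (fun b => match b with
        | Sum.inl i => mSys (sM {x : I // x ≠ i}) fun t => p t - d - 1
        | Sum.inr q => mSys (sM {x : I // x ≠ q.1.1 ∧ x ≠ q.1.2}) fun t => p t - d - 2)
      (fun b => match b with
        | Sum.inl _ => 1
        | Sum.inr _ => 2) ?_ (fun b => match b with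
        | Sum.inl i => P1 i
        | Sum.inr q => P2 q) ?_ ?_
    · change Fintype.card (Sym2 I) = _
      rw [Sym2.card, hI, Nat.choose_two_right, Nat.add_sub_cancel, mul_comm]
    · rintro ⟨t, r, c⟩
      exact hom_sM I r c
    · rintro (i | q)
      · exact one_pos
      · exact two_pos
    · intro F _ x hx
      by_cases hd : ∃ i, x s(i, i) ≠ 0
      · obtain ⟨i, hi⟩ := hd
        refine ⟨Sum.inl i, ?_⟩
        change ev (fun q => x ((P1 i).e (Sum.inl q))) (P1 i).u ≠ 0
        rw [hP1 i F x, Matrix.det_fin_one]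
        change ev x (X s(i, i)) ≠ 0
        rw [ev_X]
        exact hi
      · push Not at hd
        obtain ⟨q, hq⟩ := Function.ne_iff.1 hx
        induction q using Sym2.inductionOn with
        | _ i j =>
          have hq' : x s(i, j) ≠ 0 := hq
          have hij : i ≠ j := by
            rintro rfl
            exact hq' (hd i)
          refine ⟨Sum.inr ⟨(i, j), hij⟩, ?_⟩
          change ev (fun q => x ((P2 ⟨(i, j), hij⟩).e (Sum.inl q))) (P2 ⟨(i, j), hij⟩).u ≠ 0
          rw [hP2 ⟨(i, j), hij⟩ F x, Matrix.det_fin_two]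
          change ev x (X s(i, i)) * ev x (X s(j, j)) - ev x (X s(i, j)) * ev x (X s(j, i)) ≠ 0
          rw [ev_X, ev_X, ev_X, ev_X, hd i, Sym2.eq_swap (a := j) (b := i)]
          rw [zero_mul, zero_sub, neg_ne_zero]
          exact mul_ne_zero hq' hq'
    · rintro (i | ⟨⟨i, j⟩, hij⟩)
      · have hIpos : 0 < Fintype.card I := Fintype.card_pos_iff.2 ⟨i⟩
        have h1 := card_eq1 i
        exact ih (Fintype.card I - 1) (by omega) (d + 1) {x : I // x ≠ i} h1
          (by rw [h1]; omega)
      · have h1 := card_eq2 i j hij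
        have h2 := Fintype.card_congr (eq2 i j hij)
        rw [Fintype.card_sum, Fintype.card_fin] at h2
        exact ih (Fintype.card I - 2) (by omega) (d + 2) {x : I // x ≠ i ∧ x ≠ j} h1
          (by rw [h1]; omega)

end Pool.Agent.TH192.MT
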