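import Pool.Agent.TH192.MT.Mat
import Pool.Agent.Helper929.Pfaffian

set_option autoImplicit false
set_option linter.unusedSectionVars false
set_option linter.unusedVariables false

/-! # The ideals of Pfaffians and Schur complements -/

namespace Pool.Agent.TH192.MT

open MvPolynomial Matrix Pool.Agent.TH192.PA Pool.Agent.Helper929

section

variable {R : Type} [CommRing R] {I J I' : Type}

/-- alternating matrices -/
def Alt (Z : Matrix I I R) : Prop := (∀ i, Z i i = 0) ∧ ∀ i j, Z i j = - Z j i

theorem Alt.sub {Z : Matrix I I R} (h : Alt Z) (r : J → I) : Alt (Z.submatrix r r) :=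
  ⟨fun i => h.1 _, fun i j => h.2 _ _⟩

/-- The ideal of the Pfaffians of size `2 k`. -/
def pfI (k : ℕ) (Z : Matrix I I R) : Ideal R :=
  Ideal.span (Set.range fun r : Fin (2 * k) → I => pf (2 * k) (Z.submatrix r r))

theorem pf_mem {k : ℕ} (Z : Matrix I I R) (r : Fin (2 * k) → I) :
    pf (2 * k) (Z.submatrix r r) ∈ pfI k Z := Ideal.subset_span ⟨r, rfl⟩

theorem pfI_le {k : ℕ} {Z : Matrix I I R} {A : Ideal R}
    (h : ∀ r : Fin (2 * k) → I, pf (2 * k) (Z.submatrix r r) ∈ A) : pfI k Z ≤ A :=
  Ideal.span_le.2 (by rintro _ ⟨r, rfl⟩; exact h r)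

theorem pfI_submatrix_le {k : ℕ} (Z : Matrix I I R) (f : J → I) :
    pfI k (Z.submatrix f f) ≤ pfI k Z :=
  pfI_le fun r => by
    rw [Matrix.submatrix_submatrix]
    exact pf_mem Z _

theorem pfI_zero (Z : Matrix I I R) : pfI 0 Z = ⊤ := by
  rw [Ideal.eq_top_iff_one]
  exact pf_mem Z (Fin.elim0 : Fin (2 * 0) → I)

theorem pfI_succ_le {k : ℕ} (Z : Matrix I I R) : pfI (k + 1) Z ≤ pfI k Z := by
  refine pfI_le fun r => ?_
  change (∑ j : Fin (2 * k + 1), _) ∈ _
  refine Ideal.sum_mem _ fun j _ => Ideal.mul_mem_left _ _ ?_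
  rw [Matrix.submatrix_submatrix]
  exact pf_mem Z _

variable [Fintype I] [DecidableEq I]

theorem alt_self (Z : Matrix I I R) (h : Alt Z) (x : I → R) : Matrix.toBilin' Z x x = 0 := by
  rw [Matrix.toBilin'_apply, ← Finset.sum_product']
  refine Finset.sum_involution (fun q _ => (q.2, q.1)) ?_ ?_ ?_ ?_
  · rintro ⟨i, j⟩ _
    simp only
    rw [h.2 j i]
    ring
  · rintro ⟨i, j⟩ _ hne heq
    have h1 : j = i := (Prod.mk.inj heq).1
    subst h1
    apply hne
    simp only [h.1 j, mul_zero, zero_mul]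
  · rintro ⟨i, j⟩ _
    exact Finset.mem_product.2 ⟨Finset.mem_univ _, Finset.mem_univ _⟩
  · rintro ⟨i, j⟩ _
    rfl

theorem pf_eq_pfE (Z : Matrix I I R) (h : Alt Z) {n : ℕ} (r : Fin n → I) :
    pf n (Z.submatrix r r) = pfE (Matrix.toBilin' Z) (alt_self Z h) n
      (fun a => Pi.single (r a) 1) := by
  rw [pfE_eq]
  congr 1
  ext a b
  rw [Matrix.of_apply, Matrix.toBilin'_single]
  rfl

theorem pf_inj_zero (Z : Matrix I I R) (h : Alt Z) {n : ℕ} (r : Fin n → I)
    (hr : ¬ Function.Injective r) : pf n (Z.submatrix r r) = 0 := by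
  rw [Function.not_injective_iff] at hr
  obtain ⟨i, j, hij, hne⟩ := hr
  rw [pf_eq_pfE Z h]
  refine AlternatingMap.map_eq_zero_of_eq _ _ ?_ hne
  simp only [hij]

theorem pf_perm' (Z : Matrix I I R) (h : Alt Z) {n : ℕ} (r : Fin n → I)
    (σ : Equiv.Perm (Fin n)) : pf n (Z.submatrix (r ∘ σ) (r ∘ σ)) =
      (Equiv.Perm.sign σ : ℤ) • pf n (Z.submatrix r r) := by
  rw [pf_eq_pfE Z h, pf_eq_pfE Z h]
  have h1 := AlternatingMap.map_perm (pfE (Matrix.toBilin' Z) (alt_self Z h) n)
    (fun a => (Pi.single (r a) 1 : I → R)) σ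
  have h2 : (fun a => (Pi.single ((r ∘ σ) a) 1 : I → R)) =
      (fun a => (Pi.single (r a) 1 : I → R)) ∘ σ := rfl
  rw [h2, h1]
  rfl

theorem pf_perm_mem (Z : Matrix I I R) (h : Alt Z) {n : ℕ} (r : Fin n → I)
    (σ : Equiv.Perm (Fin n)) (A : Ideal R) (hA : pf n (Z.submatrix (r ∘ σ) (r ∘ σ)) ∈ A) :
    pf n (Z.submatrix r r) ∈ A := by
  rw [pf_perm' Z h] at hA
  rcases Int.units_eq_one_or (Equiv.Perm.sign σ) with h3 | h3
  · rw [h3] at hA
    simpa using hA
  · rw [h3] at hA
    simpa using hA

/-- congruence -/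
theorem pfI_congr_le {k : ℕ} (Z : Matrix I I R) (h : Alt Z) (P : Matrix I' I R) :
    pfI k (P * Z * Pᵀ) ≤ pfI k Z := by
  refine pfI_le fun r => ?_
  have h1 : pf (2 * k) ((P * Z * Pᵀ).submatrix r r) =
      pfE (Matrix.toBilin' Z) (alt_self Z h) (2 * k) (fun a => P (r a)) := by
    rw [pfE_eq]
    congr 1
    ext a b
    rw [Matrix.of_apply, Matrix.toBilin'_apply, Matrix.submatrix_apply, Matrix.mul_apply]
    simp_rw [Matrix.mul_apply, Matrix.transpose_apply, Finset.sum_mul]
    exact Finset.sum_comm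
  have h2 : (fun a => P (r a)) = fun a => ∑ i : I, P (r a) i • (Pi.single i 1 : I → R) := by
    funext a
    exact (pi_eq_sum_univ' (P (r a))).trans (Finset.sum_congr rfl fun i _ => by
      congr 1)
  rw [h1, h2]
  have h3 := (pfE (Matrix.toBilin' Z) (alt_self Z h) (2 * k)).toMultilinearMap.map_sum
    (fun (a : Fin (2 * k)) (i : I) => P (r a) i • (Pi.single i 1 : I → R))
  have h4 : (pfE (Matrix.toBilin' Z) (alt_self Z h) (2 * k))
      (fun a => ∑ i : I, P (r a) i • (Pi.single i 1 : I → R)) =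
      (pfE (Matrix.toBilin' Z) (alt_self Z h) (2 * k)).toMultilinearMap
        (fun a => ∑ i : I, P (r a) i • (Pi.single i 1 : I → R)) := rfl
  rw [h4, h3]
  refine Ideal.sum_mem _ fun f _ => ?_
  rw [MultilinearMap.map_smul_univ, smul_eq_mul]
  refine Ideal.mul_mem_left _ _ ?_
  have h5 := pf_eq_pfE Z h f
  have h6 : (pfE (Matrix.toBilin' Z) (alt_self Z h) (2 * k)).toMultilinearMap
      (fun a => (Pi.single (f a) 1 : I → R)) = pf (2 * k) (Z.submatrix f f) := h5.symm
  rw [h6]
  exact pf_mem Z f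

theorem pf_row_zero {n : ℕ} (A : Matrix (Fin n) (Fin n) R) (h : Alt A) (a : Fin n)
    (ha : ∀ b, A a b = 0) : pf n A = 0 := by
  have h1 := pfE_eq (Matrix.toBilin' A) (alt_self A h) n
    (Function.update (fun b => (Pi.single b 1 : Fin n → R)) a 0)
  have h2 : (Matrix.of fun i j => Matrix.toBilin' A
      (Function.update (fun b => (Pi.single b 1 : Fin n → R)) a 0 i)
      (Function.update (fun b => (Pi.single b 1 : Fin n → R)) a 0 j)) = A := by
    ext i j
    rw [Matrix.of_apply]
    by_cases hi : i = a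
    · subst hi
      rw [Function.update_self, map_zero, LinearMap.zero_apply, ha]
    · by_cases hj : j = a
      · subst hj
        rw [Function.update_self, map_zero, h.2, ha, neg_zero]
      · rw [Function.update_of_ne hi, Function.update_of_ne hj, Matrix.toBilin'_single]
  rw [h2] at h1
  rw [← h1]
  exact AlternatingMap.map_coord_zero _ a (Function.update_self _ _ _)

/-- the alternating block -/
def blk (c : R) (S : Matrix I I R) : Matrix (Fin 2 ⊕ I) (Fin 2 ⊕ I) R :=
  Matrix.fromBlocks !![0, c; -c, 0] 0 0 S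

theorem alt_blk (c : R) (S : Matrix I I R) (h : Alt S) : Alt (blk c S) := by
  constructor
  · rintro (i | i)
    · fin_cases i <;> rfl
    · exact h.1 i
  · rintro (i | i) (j | j)
    · fin_cases i <;> fin_cases j <;> simp [blk]
    · simp [blk]
    · simp [blk]
    · exact h.2 i j

theorem pf_blk_head (c : R) (S : Matrix I I R) {n : ℕ} (s : Fin (n + 2) → Fin 2 ⊕ I)
    (h0 : s 0 = Sum.inl 0) (h1 : s 1 = Sum.inl 1)
    (r : Fin n → I) (hr : ∀ i : Fin n, s (Fin.succ (Fin.succ i)) = Sum.inr (r i)) :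
    pf (n + 2) ((blk c S).submatrix s s) = c * pf n (S.submatrix r r) := by
  change (∑ j : Fin (n + 1), (-1) ^ (j : ℕ) * blk c S (s 0) (s j.succ) *
      pf n (((blk c S).submatrix s s).submatrix (fun k => (j.succAbove k).succ)
        (fun k => (j.succAbove k).succ))) = _
  rw [Finset.sum_eq_single 0]
  · have h2 : ((blk c S).submatrix s s).submatrix (fun k => ((0 : Fin (n + 1)).succAbove k).succ)
        (fun k => ((0 : Fin (n + 1)).succAbove k).succ) = S.submatrix r r := by
      ext a b
      simp only [Matrix.submatrix_apply, Fin.succAbove_zero, hr]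
      rfl
    rw [h2, h0]
    have h3 : s (Fin.succ 0) = Sum.inl 1 := h1
    rw [h3]
    simp [blk]
  · intro j _ hj
    obtain ⟨i, rfl⟩ := Fin.exists_succ_eq.2 hj
    rw [h0, hr]
    simp [blk]
  · intro h
    exact absurd (Finset.mem_univ _) h

theorem exists_perm2 {n : ℕ} (a b : Fin (n + 2)) (hab : a ≠ b) :
    ∃ σ : Equiv.Perm (Fin (n + 2)), σ 0 = a ∧ σ 1 = b := by
  have h01 : (0 : Fin (n + 2)) ≠ 1 := by
    intro h
    have := congrArg Fin.val h
    simp at this
  refine ⟨Equiv.swap 0 a * Equiv.swap 1 (Equiv.swap 0 a b), ?_, ?_⟩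
  · have hc : (0 : Fin (n + 2)) ≠ Equiv.swap 0 a b := by
      intro h
      have h1 := congrArg (Equiv.swap 0 a) h
      rw [Equiv.swap_apply_left, Equiv.swap_apply_self] at h1
      exact hab h1
    rw [Equiv.Perm.mul_apply, Equiv.swap_apply_of_ne_of_ne h01 hc, Equiv.swap_apply_left]
  · rw [Equiv.Perm.mul_apply, Equiv.swap_apply_left, Equiv.swap_apply_self]

/-- the Pfaffians of the block matrix -/
theorem pfI_blk (c : R) (hc : IsUnit c) (S : Matrix I I R) (h : Alt S) (k : ℕ) :
    pfI (k + 1) (blk c S) = pfI k S := by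
  refine le_antisymm (pfI_le fun s => ?_) (pfI_le fun r => ?_)
  · by_cases hs : Function.Injective s
    swap
    · rw [pf_inj_zero _ (alt_blk c S h) s hs]
      exact Ideal.zero_mem _
    by_cases h0 : ∃ a, s a = Sum.inl 0
    · obtain ⟨a, ha⟩ := h0
      by_cases h1 : ∃ b, s b = Sum.inl 1
      · obtain ⟨b, hb⟩ := h1
        have hab : a ≠ b := by
          rintro rfl
          rw [ha] at hb
          exact absurd (Sum.inl_injective hb) (by decide)
        obtain ⟨σ, hσ0, hσ1⟩ := exists_perm2 (n := 2 * k) a b hab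
        refine pf_perm_mem _ (alt_blk c S h) s σ _ ?_
        have hr : ∀ i : Fin (2 * k), ∃ x, (s ∘ σ) (Fin.succ (Fin.succ i)) = Sum.inr x := by
          intro i
          rcases hx : (s ∘ σ) (Fin.succ (Fin.succ i)) with x | x
          · exfalso
            fin_cases x
            · have h2 : s (σ (Fin.succ (Fin.succ i))) = s a := by
                rw [ha]
                exact hx
              have h3 := hs h2
              rw [← hσ0] at h3
              have h4 := σ.injective h3
              exact absurd (congrArg Fin.val h4) (by simp)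
            · have h2 : s (σ (Fin.succ (Fin.succ i))) = s b := by
                rw [hb]
                exact hx
              have h3 := hs h2
              rw [← hσ1] at h3
              have h4 := σ.injective h3
              exact absurd (congrArg Fin.val h4) (by simp)
          · exact ⟨x, rfl⟩
        choose r hr using hr
        have h5 := pf_blk_head c S (s ∘ σ) (by simp [hσ0, ha]) (by simp [hσ1, hb]) r hr
        change pf (2 * k + 2) _ ∈ _
        rw [h5]
        exact Ideal.mul_mem_left _ _ (pf_mem S r)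
      · rw [pf_row_zero _ ((alt_blk c S h).sub s) a]
        · exact Ideal.zero_mem _
        · intro b
          rw [Matrix.submatrix_apply, ha]
          rcases hx : s b with x | x
          · fin_cases x
            · rfl
            · exact absurd ⟨b, hx⟩ h1
          · rfl
    · by_cases h1 : ∃ b, s b = Sum.inl 1
      · obtain ⟨a, ha⟩ := h1
        rw [pf_row_zero _ ((alt_blk c S h).sub s) a]
        · exact Ideal.zero_mem _
        · intro b
          rw [Matrix.submatrix_apply, ha]
          rcases hx : s b with x | x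
          · fin_cases x
            · exact absurd ⟨b, hx⟩ h0
            · rfl
          · rfl
      · have hr : ∀ i, ∃ x, s i = Sum.inr x := by
          intro i
          rcases hx : s i with x | x
          · exfalso
            fin_cases x
            · exact h0 ⟨i, hx⟩
            · exact h1 ⟨i, hx⟩
          · exact ⟨x, rfl⟩
        choose r hr using hr
        have h2 : (blk c S).submatrix s s = S.submatrix r r := by
          ext i j
          rw [Matrix.submatrix_apply, hr, hr]
          rfl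
        rw [h2]
        exact pfI_succ_le S (pf_mem S r)
  · have h1 := pf_blk_head c S (n := 2 * k)
      (Fin.cons (Sum.inl 0) (Fin.cons (Sum.inl 1) fun i => Sum.inr (r i))) rfl rfl r
      (fun i => rfl)
    have h2 : pf (2 * k) (S.submatrix r r) = Ring.inverse c * pf (2 * k + 2)
        ((blk c S).submatrix (Fin.cons (Sum.inl 0) (Fin.cons (Sum.inl 1) fun i => Sum.inr (r i)))
          (Fin.cons (Sum.inl 0) (Fin.cons (Sum.inl 1) fun i => Sum.inr (r i)))) := by
      rw [h1, ← mul_assoc, Ring.inverse_mul_cancel _ hc, one_mul]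
    rw [h2]
    refine Ideal.mul_mem_left _ _ ?_
    exact pf_mem (k := k + 1) (blk c S) _

end

section schur

variable {R : Type} [CommRing R] {I I' : Type}

theorem schur_alt (Y : Matrix I I R) (h : Alt Y) (e : Fin 2 ⊕ I' → I)
    (hA : IsUnit (piv Y e e).det) : Alt (schur Y e e) := by
  have hT : Y.transpose = (-1 : R) • Y := by
    ext i j
    rw [Matrix.transpose_apply, Matrix.smul_apply, h.2 j i, smul_eq_mul, neg_one_mul]
  have h1 := schur_eps (-1 : R) (by ring) Y e hA hT
  refine ⟨fun i => ?_, fun i j => ?_⟩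
  · unfold schur
    rw [Matrix.sub_apply, Matrix.submatrix_apply, h.1, zero_sub, neg_eq_zero, Matrix.mul_apply]
    simp only [Matrix.mul_apply, Fin.sum_univ_two, Matrix.inv_def, Matrix.smul_apply,
      Matrix.adjugate_fin_two, Matrix.submatrix_apply, Function.comp_apply, smul_eq_mul,
      Matrix.of_apply, Matrix.cons_val_zero, Matrix.cons_val_one, Matrix.cons_val', Matrix.cons_val_fin_one,
      Matrix.empty_val']
    rw [h.2 (e (Sum.inl 0)) (e (Sum.inr i)), h.2 (e (Sum.inl 1)) (e (Sum.inr i)),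
      h.2 (e (Sum.inl 1)) (e (Sum.inl 0)), h.1, h.1]
    ring
  · have h2 := congrFun (congrFun h1 j) i
    rw [Matrix.transpose_apply, Matrix.smul_apply, smul_eq_mul, neg_one_mul] at h2
    exact h2

/-- **The ideals of Pfaffians and the Schur complement.** -/
theorem pfI_schur [Fintype I] [DecidableEq I] [Fintype I'] [DecidableEq I'] (Y : Matrix I I R)
    (h : Alt Y) (e : Fin 2 ⊕ I' ≃ I) (hA : IsUnit (piv Y e e).det) (k : ℕ) :
    pfI (k + 1) Y = pfI k (schur Y e e) := by
  set A := piv Y e e with hAdef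
  set B := Y.submatrix (e ∘ Sum.inl) (e ∘ Sum.inr) with hB
  set C := Y.submatrix (e ∘ Sum.inr) (e ∘ Sum.inl) with hC
  set D := Y.submatrix (e ∘ Sum.inr) (e ∘ Sum.inr) with hD
  set c := Y (e (Sum.inl 0)) (e (Sum.inl 1)) with hc
  have hS : schur Y e e = D - C * A⁻¹ * B := rfl
  have hAc : A = !![0, c; -c, 0] := by
    ext i j
    fin_cases i <;> fin_cases j
    · exact h.1 _
    · rfl
    · exact h.2 _ _
    · exact h.1 _
  have hcu : IsUnit c := by
    have h1 : A.det = c * c := by
      rw [hAc, Matrix.det_fin_two_of]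
      ring
    rw [h1] at hA
    exact isUnit_of_mul_isUnit_left hA
  have hAT : Aᵀ = -A := by
    ext i j
    exact h.2 _ _
  have hCT : Cᵀ = -B := by
    ext i j
    exact h.2 _ _
  have hAiT : (A⁻¹)ᵀ = -A⁻¹ := by
    rw [Matrix.transpose_nonsing_inv, hAT]
    apply Matrix.inv_eq_right_inv
    rw [neg_mul_neg, Matrix.mul_nonsing_inv _ hA]
  set L := Matrix.fromBlocks (1 : Matrix (Fin 2) (Fin 2) R) (0 : Matrix (Fin 2) I' R) (C * A⁻¹)
    (1 : Matrix I' I' R) with hL
  set L' := Matrix.fromBlocks (1 : Matrix (Fin 2) (Fin 2) R) (0 : Matrix (Fin 2) I' R)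
    (-(C * A⁻¹)) (1 : Matrix I' I' R) with hL'
  have hCA : (C * A⁻¹)ᵀ = A⁻¹ * B := by
    rw [Matrix.transpose_mul, hAiT, hCT, Matrix.neg_mul, Matrix.mul_neg, neg_neg]
  have hLT : Lᵀ = Matrix.fromBlocks (1 : Matrix (Fin 2) (Fin 2) R) (A⁻¹ * B)
      (0 : Matrix I' (Fin 2) R) (1 : Matrix I' I' R) := by
    rw [hL, Matrix.fromBlocks_transpose, hCA, Matrix.transpose_one, Matrix.transpose_one,
      Matrix.transpose_zero]
  have hL1 : L' * L = 1 := by
    rw [hL, hL', Matrix.fromBlocks_multiply]
    simp only [Matrix.one_mul, Matrix.mul_one, Matrix.zero_mul, Matrix.mul_zero, add_zero,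
      zero_add]
    rw [neg_add_cancel, Matrix.fromBlocks_one]
  have hblk : blk c (schur Y e e) = Matrix.fromBlocks A 0 0 (schur Y e e) := by
    rw [blk, hAc]
  have hY : Y.submatrix e e = L * blk c (schur Y e e) * Lᵀ := by
    rw [blocks_eq, ← hAdef, ← hB, ← hC, ← hD, hblk, hLT, hL, Matrix.fromBlocks_multiply,
      Matrix.fromBlocks_multiply, hS]
    simp only [Matrix.one_mul, Matrix.mul_one, Matrix.zero_mul, Matrix.mul_zero, add_zero,
      zero_add]
    congr 1
    · rw [← Matrix.mul_assoc, Matrix.mul_nonsing_inv _ hA, Matrix.one_mul]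
    · rw [Matrix.mul_assoc, Matrix.nonsing_inv_mul _ hA, Matrix.mul_one]
    · rw [Matrix.mul_assoc C A⁻¹ A, Matrix.nonsing_inv_mul _ hA, Matrix.mul_one,
        ← Matrix.mul_assoc]
      abel
  have hsalt := schur_alt Y h e hA
  have hbalt := alt_blk c _ hsalt
  rw [← pfI_blk c hcu _ hsalt k]
  refine le_antisymm ?_ ?_
  · have h1 : pfI (k + 1) Y ≤ pfI (k + 1) (Y.submatrix e e) := by
      have h2 := pfI_submatrix_le (k := k + 1) (Y.submatrix e e) e.symm
      rw [Matrix.submatrix_submatrix] at h2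
      have h3 : Y.submatrix (e ∘ e.symm) (e ∘ e.symm) = Y := by
        ext i j
        simp
      rwa [h3] at h2
    refine h1.trans ?_
    rw [hY]
    exact pfI_congr_le _ hbalt L
  · have h1 : blk c (schur Y e e) = L' * (Y.submatrix e e) * L'ᵀ := by
      rw [hY]
      have h2 : L' * (L * blk c (schur Y e e) * Lᵀ) * L'ᵀ =
          (L' * L) * blk c (schur Y e e) * (L' * L)ᵀ := by
        rw [Matrix.transpose_mul]
        simp only [Matrix.mul_assoc]
      rw [h2, hL1, Matrix.one_mul, Matrix.transpose_one, Matrix.mul_one]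
    rw [h1]
    exact (pfI_congr_le _ (h.sub e) L').trans (pfI_submatrix_le Y e)

end schur

end Pool.Agent.TH192.MT
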