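import Pool.Agent.TH192.MT.Sys

set_option autoImplicit false
set_option linter.unusedSectionVars false
set_option linter.unusedVariables false

/-! # Pivots -/

namespace Pool.Agent.TH192.MT

open MvPolynomial Pool.Agent.W428.MOT

variable {K : Type} [Field K] {T : ℕ} {π : Type}

/-- `Y` is obtained from `X` by the elimination of a block of coordinates where `u ≠ 0`. -/
structure Piv (X Y : Sys T) where
  P : Type
  fP : Fintype P
  e : P ⊕ Y.ι ≃ X.ι
  u : MvPolynomial P ℤ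
  g : Y.ι → MvPolynomial P ℤ
  r : X.Λ → ℕ
  c : X.Λ → Y.Λ → MvPolynomial X.ι ℤ
  c0 : ∀ l m, Y.τ m ≠ X.τ l → c l m = 0
  hc : ∀ (A : Type) [CommRing A] (x : X.ι → A) (x' : Y.ι → A),
    IsUnit (ev (fun q => x (e (Sum.inl q))) u) →
    (∀ y, ev (fun q => x (e (Sum.inl q))) u * x' y =
      ev (fun q => x (e (Sum.inl q))) u * x (e (Sum.inr y)) -
        ev (fun q => x (e (Sum.inl q))) (g y)) →
    ∀ l, (ev (fun q => x (e (Sum.inl q))) u) ^ r l * ev x (X.G l) =
      ∑ m, ev x (c l m) * ev x' (Y.G m)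
  r' : Y.Λ → ℕ
  c' : Y.Λ → X.Λ → MvPolynomial X.ι ℤ
  c0' : ∀ l m, Y.τ m ≠ X.τ l → c' m l = 0
  hc' : ∀ (A : Type) [CommRing A] (x : X.ι → A) (x' : Y.ι → A),
    IsUnit (ev (fun q => x (e (Sum.inl q))) u) →
    (∀ y, ev (fun q => x (e (Sum.inl q))) u * x' y =
      ev (fun q => x (e (Sum.inl q))) u * x (e (Sum.inr y)) -
        ev (fun q => x (e (Sum.inl q))) (g y)) →
    ∀ m, (ev (fun q => x (e (Sum.inl q))) u) ^ r' m * ev x' (Y.G m) =
      ∑ l, ev x (c' m l) * ev x (X.G l)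

attribute [instance] Piv.fP

variable {X Y : Sys T} (p : Piv X Y)

/-- the series which are subtracted -/
noncomputable def Gc {N : ℕ} (ζ : Pt K (p.P × Fin (N + 1))) (y : Y.ι) :
    PowerSeries (AlgebraicClosure K) := ev (ar ζ) (p.g y) * (ev (ar ζ) p.u)⁻¹

/-- the coordinates of the pivot block -/
def rP {N : ℕ} (z : Pt K (π ⊕ X.ι × Fin (N + 1))) : Pt K (p.P × Fin (N + 1)) :=
  fun q => z (Sum.inr (p.e (Sum.inl q.1), q.2))

/-- the shear -/
noncomputable def sh (s : ℤ) {N : ℕ} (z : Pt K (π ⊕ X.ι × Fin (N + 1))) :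
    Pt K (π ⊕ X.ι × Fin (N + 1)) :=
  Sum.elim (fun a => z (Sum.inl a)) (fun q => match p.e.symm q.1 with
    | Sum.inl _ => z (Sum.inr q)
    | Sum.inr y => z (Sum.inr q) + (s : AlgebraicClosure K) *
        PowerSeries.coeff (q.2 : ℕ) (Gc p (rP p z) y))

theorem sh_inl (s : ℤ) {N : ℕ} (z : Pt K (π ⊕ X.ι × Fin (N + 1))) (q : p.P) (j : Fin (N + 1)) :
    sh p s z (Sum.inr (p.e (Sum.inl q), j)) = z (Sum.inr (p.e (Sum.inl q), j)) := by
  simp only [sh, Sum.elim_inr, Equiv.symm_apply_apply]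

theorem sh_inr (s : ℤ) {N : ℕ} (z : Pt K (π ⊕ X.ι × Fin (N + 1))) (y : Y.ι) (j : Fin (N + 1)) :
    sh p s z (Sum.inr (p.e (Sum.inr y), j)) = z (Sum.inr (p.e (Sum.inr y), j)) +
      (s : AlgebraicClosure K) * PowerSeries.coeff (j : ℕ) (Gc p (rP p z) y) := by
  simp only [sh, Sum.elim_inr, Equiv.symm_apply_apply]

theorem rP_sh (s : ℤ) {N : ℕ} (z : Pt K (π ⊕ X.ι × Fin (N + 1))) : rP p (sh p s z) = rP p z := by
  funext q
  exact sh_inl p s z q.1 q.2

theorem sh_sh (s s' : ℤ) (h : s + s' = 0) {N : ℕ} (z : Pt K (π ⊕ X.ι × Fin (N + 1))) :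
    sh p s (sh p s' z) = z := by
  have h' : (s : AlgebraicClosure K) + s' = 0 := by
    rw [← Int.cast_add, h, Int.cast_zero]
  funext i
  rcases i with a | ⟨i, j⟩
  · rfl
  · obtain ⟨i, rfl⟩ := p.e.surjective i
    rcases i with q | y
    · rw [sh_inl, sh_inl]
    · rw [sh_inr, sh_inr, rP_sh]
      linear_combination PowerSeries.coeff (j : ℕ) (Gc p (rP p z) y) * h'

/-- the parameters, the origin of the pivot block and the rest -/
def rs {N : ℕ} (w : Pt K (π ⊕ X.ι × Fin (N + 1))) : Pt K ((π ⊕ p.P) ⊕ Y.ι × Fin (N + 1)) :=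
  Sum.elim (Sum.elim (fun a => w (Sum.inl a)) (fun q => w (Sum.inr (p.e (Sum.inl q), 0))))
    (fun q => w (Sum.inr (p.e (Sum.inr q.1), q.2)))

/-- the origin -/
noncomputable def x0 (v : Pt K ((π ⊕ p.P) ⊕ (Y.ι ⊕ Y.Λ))) : Pt K X.ι := fun i =>
  match p.e.symm i with
  | Sum.inl q => v (Sum.inl (Sum.inr q))
  | Sum.inr y => v (Sum.inr (Sum.inl y)) + ev (fun q => v (Sum.inl (Sum.inr q))) (p.g y) /
      ev (fun q => v (Sum.inl (Sum.inr q))) p.u

theorem x0_inl (v : Pt K ((π ⊕ p.P) ⊕ (Y.ι ⊕ Y.Λ))) (q : p.P) :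
    x0 p v (p.e (Sum.inl q)) = v (Sum.inl (Sum.inr q)) := by
  simp only [x0, Equiv.symm_apply_apply]

theorem x0_inr (v : Pt K ((π ⊕ p.P) ⊕ (Y.ι ⊕ Y.Λ))) (y : Y.ι) :
    x0 p v (p.e (Sum.inr y)) = v (Sum.inr (Sum.inl y)) +
      ev (fun q => v (Sum.inl (Sum.inr q))) (p.g y) /
        ev (fun q => v (Sum.inl (Sum.inr q))) p.u := by
  simp only [x0, Equiv.symm_apply_apply]

/-- the data of the old jet, in terms of the data of the new jet -/
noncomputable def Ph (v : Pt K ((π ⊕ p.P) ⊕ (Y.ι ⊕ Y.Λ))) : Pt K (π ⊕ (X.ι ⊕ X.Λ)) :=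
  Sum.elim (fun a => v (Sum.inl (Sum.inl a))) (Sum.elim (x0 p v) (fun l =>
    (∑ m, ev (x0 p v) (p.c l m) * v (Sum.inr (Sum.inr m))) /
      (ev (fun q => v (Sum.inl (Sum.inr q))) p.u) ^ p.r l))

/-- `u ≠ 0` -/
def Un (π : Type) : Set (Pt K ((π ⊕ p.P) ⊕ (Y.ι ⊕ Y.Λ))) :=
  {v | ev (fun q => v (Sum.inl (Sum.inr q))) p.u ≠ 0}

/-- the new condition -/
def pull (V : Set (Pt K (π ⊕ (X.ι ⊕ X.Λ)))) : Set (Pt K ((π ⊕ p.P) ⊕ (Y.ι ⊕ Y.Λ))) :=
  {v | v ∈ Un p π ∧ Ph p v ∈ V}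

theorem constr_Un : Constr (Un (K := K) p π) := by
  refine Constr.not (Constr.eqz ?_)
  exact pf_aevalZ (φ := fun (v : Pt K ((π ⊕ p.P) ⊕ (Y.ι ⊕ Y.Λ))) (q : p.P) =>
    v (Sum.inl (Sum.inr q))) (fun i => IsPF.coord _) _

theorem rf_u (S : Set (Pt K ((π ⊕ p.P) ⊕ (Y.ι ⊕ Y.Λ)))) (P : MvPolynomial p.P ℤ) :
    IsRF S (fun v => ev (fun q => v (Sum.inl (Sum.inr q))) P) :=
  rf_aevalZ (φ := fun (v : Pt K ((π ⊕ p.P) ⊕ (Y.ι ⊕ Y.Λ))) (q : p.P) =>
    v (Sum.inl (Sum.inr q))) (fun i => (IsPF.coord _).isRF _) _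

theorem rf_x0 (i : X.ι) : IsRF (Un (K := K) p π) (fun v => x0 p v i) := by
  obtain ⟨i, rfl⟩ := p.e.surjective i
  rcases i with q | y
  · simp only [x0_inl]
    exact (IsPF.coord _).isRF _
  · simp only [x0_inr]
    exact ((IsPF.coord _).isRF _).add ((rf_u p _ _).div (rf_u p _ _) fun v hv => hv)

theorem constr_pull {V : Set (Pt K (π ⊕ (X.ι ⊕ X.Λ)))} (hV : Constr V) :
    Constr (pull p V) := by
  refine constr_pre (constr_Un p) (φ := Ph p) ?_ hV
  rintro (a | i | l)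
  · exact (IsPF.coord _).isRF _
  · exact rf_x0 p i
  · refine (rf_sum _ _ fun m _ => (rf_aevalZ (rf_x0 p) _).mul ((IsPF.coord _).isRF _)).div
      (rf_pow (rf_u p _ _) _) fun v hv => pow_ne_zero _ hv

theorem gd_pull {V : Set (Pt K (π ⊕ (X.ι ⊕ X.Λ)))} (hV : Gd X V) : Gd Y (pull p V) := by
  rintro v ⟨hv, hv'⟩ t
  obtain ⟨l, hl, hl'⟩ := hV _ hv' t
  by_contra h
  push Not at h
  apply hl'
  change (∑ m, ev (x0 p v) (p.c l m) * v (Sum.inr (Sum.inr m))) / _ = 0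
  rw [Finset.sum_eq_zero, zero_div]
  intro m _
  by_cases hm : Y.τ m = X.τ l
  · rw [h m (hm.trans hl), mul_zero]
  · rw [p.c0 l m hm, map_zero, zero_mul]

theorem mem_Un (v : Pt K ((π ⊕ p.P) ⊕ (Y.ι ⊕ Y.Λ))) :
    v ∈ Un p π ↔ ev (fun q => v (Sum.inl (Sum.inr q))) p.u ≠ 0 := Iff.rfl

theorem mem_pull (V : Set (Pt K (π ⊕ (X.ι ⊕ X.Λ)))) (v : Pt K ((π ⊕ p.P) ⊕ (Y.ι ⊕ Y.Λ))) :
    v ∈ pull p V ↔ v ∈ Un p π ∧ Ph p v ∈ V := Iff.rfl

theorem u_rs (α : Fin T → ℕ) {N : ℕ} (w : Pt K (π ⊕ X.ι × Fin (N + 1))) (P : MvPolynomial p.P ℤ) :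
    ev (fun q => dat Y α (rs p w) (Sum.inl (Sum.inr q))) P =
      ev (fun q => w (Sum.inr (p.e (Sum.inl q), 0))) P := rfl

theorem u_sh (s : ℤ) {N : ℕ} (z : Pt K (π ⊕ X.ι × Fin (N + 1))) (P : MvPolynomial p.P ℤ) :
    ev (fun q => sh p s z (Sum.inr (p.e (Sum.inl q), 0))) P =
      ev (fun q => z (Sum.inr (p.e (Sum.inl q), 0))) P := by
  simp only [sh_inl]

theorem u_dat (α : Fin T → ℕ) {N : ℕ} (z : Pt K (π ⊕ X.ι × Fin (N + 1)))
    (P : MvPolynomial p.P ℤ) :
    ev (fun q => dat X α z (Sum.inr (Sum.inl (p.e (Sum.inl q))))) P =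
      ev (fun q => z (Sum.inr (p.e (Sum.inl q), 0))) P := rfl

section key

variable {N : ℕ} (z : Pt K (π ⊕ X.ι × Fin (N + 1)))

theorem key_iff {α : Fin T → ℕ} (hα : ∀ t, α t ≤ N)
    (V : Set (Pt K (π ⊕ (X.ι ⊕ X.Λ))))
    (hU : ∀ v ∈ V, ev (fun q => v (Sum.inr (Sum.inl (p.e (Sum.inl q))))) p.u ≠ 0) :
    z ∈ SS X V α N ↔ rs p (sh p (-1) z) ∈ SS Y (pull p V) α N := by
  -- the value of `u` at the origin
  by_cases hu : ev (fun q => z (Sum.inr (p.e (Sum.inl q), 0))) p.u = 0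
  · constructor
    · intro h
      have h3 := hU _ ((mem_SS X V α N z).1 h).2
      rw [u_dat] at h3
      exact absurd hu h3
    · intro h
      exfalso
      have h3 := (mem_Un p _).1 ((mem_pull p V _).1 ((mem_SS Y _ α N _).1 h).2).1
      rw [u_rs, u_sh] at h3
      exact h3 hu
  set x : X.ι → PowerSeries (AlgebraicClosure K) := ar fun q => z (Sum.inr q) with hx
  set U : PowerSeries (AlgebraicClosure K) := ev (fun q => x (p.e (Sum.inl q))) p.u with hUdef
  have hx00 : ∀ i, PowerSeries.coeff 0 (x i) = z (Sum.inr (i, 0)) := fun i => by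
    rw [hx, coeff_ar_zero]
  have hU0 : PowerSeries.coeff 0 U = ev (fun q => z (Sum.inr (p.e (Sum.inl q), 0))) p.u := by
    rw [hUdef, coeff_zero_aeval]
    simp only [hx00]
  have hU1 : PowerSeries.constantCoeff U ≠ 0 := by
    rw [← PowerSeries.coeff_zero_eq_constantCoeff_apply, hU0]
    exact hu
  have hUu : IsUnit U := PowerSeries.isUnit_iff_constantCoeff.2 (isUnit_iff_ne_zero.2 hU1)
  have hUi : U * U⁻¹ = 1 := PowerSeries.mul_inv_cancel _ hU1
  have hGc : ∀ y, Gc p (rP p z) y = ev (fun q => x (p.e (Sum.inl q))) (p.g y) * U⁻¹ :=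
    fun y => rfl
  set x2 : Y.ι → PowerSeries (AlgebraicClosure K) := fun y =>
    x (p.e (Sum.inr y)) - Gc p (rP p z) y with hx2
  have hrel : ∀ y, U * x2 y = U * x (p.e (Sum.inr y)) -
      ev (fun q => x (p.e (Sum.inl q))) (p.g y) := by
    intro y
    rw [hx2]
    simp only
    rw [hGc]
    linear_combination (-ev (fun q => x (p.e (Sum.inl q))) (p.g y)) * hUi
  have h1 := p.hc _ x x2 hUu hrel
  have h2 := p.hc' _ x x2 hUu hrel
  rw [← hUdef] at h1 h2
  -- the jet of the Schur complement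
  set w := rs p (sh p (-1) z) with hw
  have hcg : ∀ y, Cg N (ar (fun q => w (Sum.inr q)) y) (x2 y) := by
    intro y k hk
    rw [coeff_ar, dif_pos (by omega), hx2]
    change sh p (-1) z (Sum.inr (p.e (Sum.inr y), ⟨k, by omega⟩)) = _
    rw [sh_inr, map_sub, hx, coeff_ar, dif_pos (by omega)]
    push_cast
    ring
  have hunit : ∀ n : ℕ, ∀ a : PowerSeries (AlgebraicClosure K), ∀ k, Vn k (U ^ n * a) ↔ Vn k a := by
    intro n a k
    rw [vn_iff, vn_iff]
    exact (hUu.pow n).dvd_mul_left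
  have hV1 : Van X α x ↔ Van Y α x2 := by
    constructor
    · intro h m
      rw [← hunit (p.r' m), h2 m]
      refine vn_sum _ _ fun l _ => ?_
      by_cases hm : Y.τ m = X.τ l
      · rw [hm]
        exact vn_mul _ (h l)
      · rw [p.c0' l m hm, map_zero, zero_mul]
        intro j _
        exact map_zero _
    · intro h l
      rw [← hunit (p.r l), h1 l]
      refine vn_sum _ _ fun m _ => ?_
      by_cases hm : Y.τ m = X.τ l
      · rw [← hm]
        exact vn_mul _ (h m)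
      · rw [p.c0 l m hm, map_zero, zero_mul]
        intro j _
        exact map_zero _
  have hx0 : x0 p (dat Y α w) = fun i => z (Sum.inr (i, 0)) := by
    funext i
    obtain ⟨i, rfl⟩ := p.e.surjective i
    rcases i with q | y
    · rw [x0_inl]
      exact sh_inl p (-1) z q 0
    · rw [x0_inr]
      rw [hw, u_rs, u_rs, u_sh, u_sh]
      change sh p (-1) z (Sum.inr (p.e (Sum.inr y), 0)) + _ = _
      rw [sh_inr]
      have h3 : PowerSeries.coeff ((0 : Fin (N + 1)) : ℕ) (Gc p (rP p z) y) =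
          ev (fun q => z (Sum.inr (p.e (Sum.inl q), 0))) (p.g y) /
            ev (fun q => z (Sum.inr (p.e (Sum.inl q), 0))) p.u := by
        have h4 : PowerSeries.coeff 0 (Gc p (rP p z) y) * PowerSeries.coeff 0 U =
            PowerSeries.coeff 0 (ev (fun q => x (p.e (Sum.inl q))) (p.g y)) := by
          rw [hGc]
          simp only [PowerSeries.coeff_zero_eq_constantCoeff_apply]
          rw [← map_mul, mul_assoc, mul_comm U⁻¹ U, hUi, mul_one]
        rw [hU0, coeff_zero_aeval] at h4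
        simp only [hx00] at h4
        change PowerSeries.coeff 0 (Gc p (rP p z) y) = _
        rw [eq_div_iff hu, h4]
      rw [h3]
      push_cast
      ring
  have hlam : Van Y α x2 → dat X α z = Ph p (dat Y α w) := by
    intro hvan
    funext i
    rcases i with a | i | l
    · rfl
    · change z (Sum.inr (i, 0)) = x0 p (dat Y α w) i
      rw [hx0]
    · change lam X α x l = (∑ m, ev (x0 p (dat Y α w)) (p.c l m) *
        lam Y α (ar fun q => w (Sum.inr q)) m) /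
          (ev (fun q => dat Y α w (Sum.inl (Sum.inr q))) p.u) ^ p.r l
      rw [hx0, hw, u_rs, u_sh, ← hw, lam_congr Y hcg hα, eq_div_iff (pow_ne_zero _ hu), mul_comm]
      have h5 := congrArg (PowerSeries.coeff (α (X.τ l))) (h1 l)
      rw [coeff_mul_vn _ (hV1.2 hvan l), map_sum] at h5
      have h6 : PowerSeries.coeff 0 (U ^ p.r l) =
          (ev (fun q => z (Sum.inr (p.e (Sum.inl q), 0))) p.u) ^ p.r l := by
        rw [← hU0]
        simp only [PowerSeries.coeff_zero_eq_constantCoeff_apply, map_pow]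
      rw [h6] at h5
      unfold lam
      rw [h5]
      refine Finset.sum_congr rfl fun m _ => ?_
      by_cases hm : Y.τ m = X.τ l
      · rw [← hm, coeff_mul_vn _ (hvan m), coeff_zero_aeval]
        simp only [hx00]
      · rw [p.c0 l m hm, map_zero, map_zero, zero_mul, zero_mul, map_zero]
  have hvan' : Van Y α (ar fun q => w (Sum.inr q)) ↔ Van Y α x2 := van_congr Y hcg hα
  have hUw : dat Y α w ∈ Un (K := K) p π := by
    rw [mem_Un, hw, u_rs, u_sh]
    exact hu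
  rw [mem_SS, mem_SS, mem_pull]
  constructor
  · rintro ⟨h3, h4⟩
    have h5 : Van Y α x2 := hV1.1 h3
    refine ⟨hvan'.2 h5, hUw, ?_⟩
    rw [← hlam h5]
    exact h4
  · rintro ⟨h3, h4, h5⟩
    have h6 : Van Y α x2 := hvan'.1 h3
    refine ⟨hV1.2 h6, ?_⟩
    rw [hlam h6]
    exact h5

end key

/-- the coordinates after the pivot -/
def ePiv (π : Type) (N : ℕ) : ((π ⊕ p.P) ⊕ Y.ι × Fin (N + 1)) ⊕ (p.P × Fin N) ≃
    π ⊕ X.ι × Fin (N + 1) where
  toFun := fun s => match s with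
    | Sum.inl (Sum.inl (Sum.inl a)) => Sum.inl a
    | Sum.inl (Sum.inl (Sum.inr q)) => Sum.inr (p.e (Sum.inl q), 0)
    | Sum.inl (Sum.inr y) => Sum.inr (p.e (Sum.inr y.1), y.2)
    | Sum.inr q => Sum.inr (p.e (Sum.inl q.1), q.2.succ)
  invFun := fun s => match s with
    | Sum.inl a => Sum.inl (Sum.inl (Sum.inl a))
    | Sum.inr (i, j) => Sum.elim (fun q => Fin.cases (motive := fun _ =>
        ((π ⊕ p.P) ⊕ Y.ι × Fin (N + 1)) ⊕ (p.P × Fin N)) (Sum.inl (Sum.inl (Sum.inr q)))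
          (fun j => Sum.inr (q, j)) j) (fun y => Sum.inl (Sum.inr (y, j))) (p.e.symm i)
  left_inv := by
    rintro (((a | q) | ⟨y, j⟩) | ⟨q, j⟩)
    · rfl
    · simp only [Equiv.symm_apply_apply, Sum.elim_inl, Fin.cases_zero]
    · simp only [Equiv.symm_apply_apply, Sum.elim_inr]
    · simp only [Equiv.symm_apply_apply, Sum.elim_inl, Fin.cases_succ]
  right_inv := by
    rintro (a | ⟨i, j⟩)
    · rfl
    · obtain ⟨i, rfl⟩ := p.e.surjective i
      rcases i with q | y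
      · refine Fin.cases ?_ (fun j => ?_) j
        · simp only [Equiv.symm_apply_apply, Sum.elim_inl, Fin.cases_zero]
        · simp only [Equiv.symm_apply_apply, Sum.elim_inl, Fin.cases_succ]
      · simp only [Equiv.symm_apply_apply, Sum.elim_inr]

variable {R : Type} [CommRing R] (M : Meas K R) [Fintype π]

theorem pf_rs {N : ℕ} (i : (π ⊕ p.P) ⊕ Y.ι × Fin (N + 1)) :
    IsPF (fun w : Pt K (π ⊕ X.ι × Fin (N + 1)) => rs p w i) := by
  rcases i with (a | q) | y <;> exact IsPF.coord _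

theorem rf_sh (s : ℤ) {N : ℕ} (S : Set (Pt K (π ⊕ X.ι × Fin (N + 1))))
    (hS : ∀ z ∈ S, ev (fun q => z (Sum.inr (p.e (Sum.inl q), 0))) p.u ≠ 0) :
    RegularOn S (sh p s) := by
  have hP : ∀ (P : MvPolynomial p.P ℤ), IsRA S (fun z => ev (ar (rP p z)) P) := by
    intro P
    refine ra_aevalZ (φ := fun z => ar (rP p z)) (fun i j => ?_) P
    simp only [coeff_ar]
    split_ifs
    · exact (IsPF.coord _).isRF _
    · exact IsPF.zero.isRF _
  rintro (a | ⟨i, j⟩)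
  · exact (IsPF.coord _).isRF _
  · obtain ⟨i, rfl⟩ := p.e.surjective i
    rcases i with q | y
    · simp only [sh_inl]
      exact (IsPF.coord _).isRF _
    · simp only [sh_inr]
      refine IsRF.add ((IsPF.coord _).isRF _) ((rf_int s).mul ?_)
      refine ra_mul (hP _) (ra_inv (hP _) fun z hz => ?_) _
      rw [coeff_zero_aeval]
      simp only [coeff_ar_zero]
      exact hS z hz

theorem mm_piv (v : R) (hv : M.L * v = 1) {V : Set (Pt K (π ⊕ (X.ι ⊕ X.Λ)))} (hV : Constr V)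
    (hU : ∀ v ∈ V, ev (fun q => v (Sum.inr (Sum.inl (p.e (Sum.inl q))))) p.u ≠ 0)
    (α : Fin T → ℕ) : mm M v X V α = mm M v Y (pull p V) α := by
  set N := ∑ t, α t with hN
  have h0 : ∀ t, α t ≤ N := fun t => Finset.single_le_sum (f := α)
    (fun _ _ => Nat.zero_le _) (Finset.mem_univ t)
  have hVp := constr_pull p hV
  rw [← mm_eq M v hv X hV α N h0, ← mm_eq M v hv Y hVp α N h0]
  have hS1 : Constr {w : Pt K (π ⊕ X.ι × Fin (N + 1)) | rs p w ∈ SS Y (pull p V) α N} :=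
    (constr_SS Y hVp α N).preimage _ (pf_rs p)
  have h1 : M.χ _ (SS X V α N) =
      M.χ _ {w : Pt K (π ⊕ X.ι × Fin (N + 1)) | rs p w ∈ SS Y (pull p V) α N} := by
    refine M.iso _ _ (constr_SS X hV _ _) hS1 (sh p (-1)) (sh p 1) (rf_sh p _ _ ?_)
      (rf_sh p _ _ ?_) ?_ ?_ (fun z _ => sh_sh p 1 (-1) (by norm_num) z)
      (fun z _ => sh_sh p (-1) 1 (by norm_num) z)
    · intro z hz
      have h3 := hU _ ((mem_SS X V α N z).1 hz).2
      rwa [u_dat] at h3
    · intro w hw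
      have h3 := (mem_Un p _).1 ((mem_pull p V _).1 ((mem_SS Y _ α N _).1 hw).2).1
      rwa [u_rs] at h3
    · intro z hz
      exact (key_iff p z h0 V hU).1 hz
    · intro w hw
      rw [key_iff p _ h0 V hU, sh_sh p (-1) 1 (by norm_num)]
      exact hw
  have h2 : M.χ _ {w : Pt K (π ⊕ X.ι × Fin (N + 1)) | rs p w ∈ SS Y (pull p V) α N} =
      M.χ _ (SS Y (pull p V) α N) * M.L ^ (Fintype.card (p.P × Fin N)) := by
    refine chi_split M (ePiv p π N) _ _ (constr_SS Y hVp α N) fun z => ?_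
    have h3 : (fun i => z (ePiv p π N (Sum.inl i))) = rs p z := by
      funext i
      rcases i with (a | q) | y <;> rfl
    rw [h3]
    rfl
  have h4 : Fintype.card X.ι = Fintype.card p.P + Fintype.card Y.ι := by
    rw [← Fintype.card_congr p.e, Fintype.card_sum]
  rw [h1, h2, h4, Fintype.card_prod, Fintype.card_fin, Nat.mul_add, pow_add,
    Nat.mul_comm (Fintype.card p.P) N]
  have h5 : M.L ^ (N * Fintype.card p.P) * v ^ (N * Fintype.card p.P) = 1 := by
    rw [← mul_pow, hv, one_pow]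
  linear_combination (M.χ _ (SS Y (pull p V) α N) * v ^ (N * Fintype.card Y.ι)) * h5

end Pool.Agent.TH192.MT
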