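import Pool.Agent.TH192.MT.Piv
import Pool.Agent.TH192.DT.MotZ

set_option autoImplicit false
set_option linter.unusedSectionVars false
set_option linter.unusedVariables false

/-! # The recursion for the zeta functions -/

namespace Pool.Agent.TH192.MT

open MvPolynomial Pool.Agent.W428.MOT Pool.Agent.TH192.DT

section gf

variable {R : Type} [CommRing R] {T : ℕ} (a : Fin T → ℕ)

/-- The `α` with `∑ t, a t * α t = l`. -/
def box (l : ℕ) : Finset (Fin T → ℕ) :=
  (Fintype.piFinset fun _ => Finset.range (l + 1)).filter fun α => ∑ t, a t * α t = l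

theorem le_of_sum (ha : ∀ t, 0 < a t) {l : ℕ} {α : Fin T → ℕ} (h : ∑ t, a t * α t ≤ l)
    (t : Fin T) : α t ≤ l := by
  have h1 : a t * α t ≤ ∑ t, a t * α t := Finset.single_le_sum (f := fun t => a t * α t)
    (fun _ _ => Nat.zero_le _) (Finset.mem_univ t)
  have h2 : α t ≤ a t * α t := Nat.le_mul_of_pos_left _ (ha t)
  omega

theorem mem_box (ha : ∀ t, 0 < a t) {l : ℕ} {α : Fin T → ℕ} :
    α ∈ box a l ↔ ∑ t, a t * α t = l := by
  unfold box
  rw [Finset.mem_filter, Fintype.mem_piFinset]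
  refine ⟨fun h => h.2, fun h => ⟨fun t => ?_, h⟩⟩
  rw [Finset.mem_range]
  have := le_of_sum a ha h.le t
  omega

/-- The series `∑_α m(α) T ^ (∑ a_t α_t)`. -/
noncomputable def gf (m : (Fin T → ℕ) → R) : PowerSeries R :=
  PowerSeries.mk fun l => ∑ α ∈ box a l, m α

theorem gf_add (m m' : (Fin T → ℕ) → R) : gf a (fun α => m α + m' α) = gf a m + gf a m' := by
  ext l
  simp only [gf, PowerSeries.coeff_mk, map_add, Finset.sum_add_distrib]

theorem gf_shift (ha : ∀ t, 0 < a t) (e : Fin T → ℕ) (c : R) (m m' : (Fin T → ℕ) → R)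
    (h0 : ∀ α, (∃ t, α t < e t) → m α = 0) (h1 : ∀ β, m (fun t => e t + β t) = c * m' β) :
    gf a m = PowerSeries.C c * PowerSeries.X ^ (∑ t, a t * e t) * gf a m' := by
  classical
  ext l
  rw [mul_assoc, PowerSeries.coeff_C_mul, PowerSeries.coeff_X_pow_mul']
  unfold gf
  rw [PowerSeries.coeff_mk]
  split_ifs with h
  · rw [PowerSeries.coeff_mk, Finset.mul_sum]
    have h2 : ∀ β ∈ box a (l - ∑ t, a t * e t), c * m' β = m (fun t => e t + β t) :=
      fun β _ => (h1 β).symm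
    rw [Finset.sum_congr rfl h2]
    symm
    have h3 : Set.InjOn (fun β : Fin T → ℕ => fun t => e t + β t)
        (box a (l - ∑ t, a t * e t) : Set (Fin T → ℕ)) := by
      intro β _ β' _ h4
      funext t
      have := congrFun h4 t
      simpa using this
    rw [← Finset.sum_image (f := m) h3]
    refine Finset.sum_subset ?_ ?_
    · intro α hα
      obtain ⟨β, hβ, rfl⟩ := Finset.mem_image.1 hα
      rw [mem_box a ha] at hβ ⊢
      simp only [mul_add, Finset.sum_add_distrib, hβ]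
      omega
    · intro α hα hα'
      apply h0
      by_contra h4
      push Not at h4
      apply hα'
      refine Finset.mem_image.2 ⟨fun t => α t - e t, ?_, ?_⟩
      · rw [mem_box a ha] at hα ⊢
        have h5 : ∑ t, a t * α t = ∑ t, a t * e t + ∑ t, a t * (α t - e t) := by
          rw [← Finset.sum_add_distrib]
          refine Finset.sum_congr rfl fun t _ => ?_
          rw [← mul_add, Nat.add_sub_cancel' (h4 t)]
        omega
      · funext t
        exact Nat.add_sub_cancel' (h4 t)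
  · rw [mul_zero]
    refine Finset.sum_eq_zero fun α hα => h0 α ?_
    by_contra h4
    push Not at h4
    apply h
    rw [mem_box a ha] at hα
    rw [← hα]
    exact Finset.sum_le_sum fun t _ => Nat.mul_le_mul_left _ (h4 t)

theorem gf_zero (m : (Fin T → ℕ) → R) (h : ∀ α, m α = 0) : gf a m = 0 := by
  ext l
  simp only [gf, PowerSeries.coeff_mk, map_zero]
  exact Finset.sum_eq_zero fun α _ => h α

/-- only the term of degree `0` -/
theorem gf_const (ha : ∀ t, 0 < a t) (m : (Fin T → ℕ) → R) (h : ∀ α, (∃ t, α t ≠ 0) → m α = 0) :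
    gf a m = PowerSeries.C (m fun _ => 0) := by
  ext l
  rw [gf, PowerSeries.coeff_mk, PowerSeries.coeff_C]
  split_ifs with hl
  · rw [Finset.sum_eq_single fun _ => 0]
    · intro α _ hα
      apply h
      by_contra h1
      push Not at h1
      exact hα (funext h1)
    · intro h1
      exfalso
      apply h1
      rw [mem_box a ha, hl]
      simp
  · refine Finset.sum_eq_zero fun α hα => h α ?_
    by_contra h1
    push Not at h1
    apply hl
    rw [mem_box a ha] at hα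
    rw [← hα]
    simp [h1]

end gf

section geo

variable {R : Type} [CommRing R] (u : Rˣ)

theorem geoU_mul (c d : ℤ) (hd : 0 < d) :
    (1 - PowerSeries.C ((u ^ c : Rˣ) : R) * PowerSeries.X ^ d.toNat) * geoU u c d = 1 := by
  unfold geoU
  refine PowerSeries.mul_invOfUnit _ 1 ?_
  have hb' : d.toNat ≠ 0 := by omega
  simp [hb']

theorem inv_pow_eq (ν : ℕ) : (((u⁻¹ : Rˣ) : R)) ^ ν = ((u ^ (-(ν : ℤ)) : Rˣ) : R) := by
  rw [zpow_neg, zpow_natCast, ← inv_pow, Units.val_pow_eq_pow_val]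

theorem rat_X {D : Set (ℤ × ℤ)} : (PowerSeries.X : PowerSeries R) ∈ ratU u D :=
  Algebra.subset_adjoin (Or.inl rfl)

theorem rat_C {D : Set (ℤ × ℤ)} (c : R) : (PowerSeries.C c : PowerSeries R) ∈ ratU u D :=
  Subalgebra.algebraMap_mem _ c

theorem rat_mono {D D' : Set (ℤ × ℤ)} (h : D ⊆ D') : ratU u D ≤ ratU u D' := by
  refine Algebra.adjoin_mono ?_
  rintro g (hg | ⟨p, hp, rfl⟩)
  · exact Or.inl hg
  · exact Or.inr ⟨p, h hp, rfl⟩

/-- the geometric series -/
theorem geo_solve {D : Set (ℤ × ℤ)} {ν N : ℕ} (hN : 0 < N) (hD : (-(ν : ℤ), (N : ℤ)) ∈ D)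
    (Z Z' : PowerSeries R) (h' : Z' ∈ ratU u D)
    (h : Z = Z' + PowerSeries.C (((u⁻¹ : Rˣ) : R) ^ ν) * PowerSeries.X ^ N * Z) :
    Z ∈ ratU u D := by
  have h1 := geoU_mul u (-(ν : ℤ)) (N : ℤ) (by exact_mod_cast hN)
  rw [Int.toNat_natCast, ← inv_pow_eq] at h1
  have h2 : Z = geoU u (-(ν : ℤ)) (N : ℤ) * Z' := by
    calc Z = ((1 - PowerSeries.C (((u⁻¹ : Rˣ) : R) ^ ν) * PowerSeries.X ^ N) *
        geoU u (-(ν : ℤ)) (N : ℤ)) * Z := by rw [h1, one_mul]
      _ = geoU u (-(ν : ℤ)) (N : ℤ) * (Z - PowerSeries.C (((u⁻¹ : Rˣ) : R) ^ ν) *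
        PowerSeries.X ^ N * Z) := by ring
      _ = geoU u (-(ν : ℤ)) (N : ℤ) * Z' := by
        congr 1
        linear_combination h
  rw [h2]
  exact Subalgebra.mul_mem _ (Algebra.subset_adjoin (Or.inr ⟨_, hD, rfl⟩)) h'

end geo

section rec

variable {K : Type} [Field K] {T : ℕ} {R : Type} [CommRing R] (u : Rˣ) (M : Meas K R)
  (a : Fin T → ℕ)

/-- All the zeta functions of the system are rational with the denominators of `D`. -/
def Rt (D : Set (ℤ × ℤ)) (X : Sys T) : Prop :=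
  ∀ (π : Type) [Fintype π] (V : Set (Pt K (π ⊕ (X.ι ⊕ X.Λ)))), Constr V → Gd X V →
    gf a (mm M (((u⁻¹ : Rˣ) : R)) X V) ∈ ratU u D

variable {u M a} (hu : M.L = (u : R))
include hu

theorem hv : M.L * (((u⁻¹ : Rˣ) : R)) = 1 := by
  rw [hu, Units.mul_inv]

/-- the part where a pivot does not vanish -/
theorem rt_piv {D : Set (ℤ × ℤ)} {X Y : Sys T} (p : Piv X Y) (hY : Rt u M a D Y)
    (π : Type) [Fintype π] (V : Set (Pt K (π ⊕ (X.ι ⊕ X.Λ)))) (hV : Constr V) (hG : Gd X V)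
    (hU : ∀ v ∈ V, ev (fun q => v (Sum.inr (Sum.inl (p.e (Sum.inl q))))) p.u ≠ 0) :
    gf a (mm M (((u⁻¹ : Rˣ) : R)) X V) ∈ ratU u D := by
  have h1 : mm M (((u⁻¹ : Rˣ) : R)) X V = mm M (((u⁻¹ : Rˣ) : R)) Y (pull p V) :=
    funext fun α => mm_piv p M _ (hv hu) hV hU α
  rw [h1]
  exact hY (π ⊕ p.P) _ (constr_pull p hV) (gd_pull p hG)

theorem rt_union {D : Set (ℤ × ℤ)} {X : Sys T} (π : Type) [Fintype π]
    {V W : Set (Pt K (π ⊕ (X.ι ⊕ X.Λ)))} (hV : Constr V) (hW : Constr W) (hd : Disjoint V W) :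
    gf a (mm M (((u⁻¹ : Rˣ) : R)) X (V ∪ W)) = gf a (mm M (((u⁻¹ : Rˣ) : R)) X V) +
      gf a (mm M (((u⁻¹ : Rˣ) : R)) X W) := by
  rw [← gf_add]
  congr 1
  funext α
  exact mm_add M _ X hV hW hd α

/-- the parts where some pivot does not vanish -/
theorem rt_pivs {D : Set (ℤ × ℤ)} {X : Sys T} {B : Type} (Y : B → Sys T)
    (p : ∀ b, Piv X (Y b)) (hY : ∀ b, Rt u M a D (Y b)) (s : Finset B) :
    ∀ (π : Type) [Fintype π] (V : Set (Pt K (π ⊕ (X.ι ⊕ X.Λ)))), Constr V → Gd X V →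
      (∀ v ∈ V, ∃ b ∈ s, ev (fun q => v (Sum.inr (Sum.inl ((p b).e (Sum.inl q))))) (p b).u ≠ 0) →
      gf a (mm M (((u⁻¹ : Rˣ) : R)) X V) ∈ ratU u D := by
  classical
  induction s using Finset.induction_on with
  | empty =>
    intro π _ V hV hG h
    have h1 : V = ∅ := by
      rw [Set.eq_empty_iff_forall_notMem]
      intro v hv
      obtain ⟨b, hb, _⟩ := h v hv
      exact absurd hb (Finset.notMem_empty b)
    rw [gf_zero]
    · exact Subalgebra.zero_mem _
    · intro α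
      have h2 : SS X V α (∑ t, α t) = ∅ := by
        rw [Set.eq_empty_iff_forall_notMem]
        intro z hz
        have := hz.2
        rw [h1] at this
        exact this
      unfold mm
      rw [h2, Pool.Agent.W375.MT.chi_empty, zero_mul]
  | insert b s hb ih =>
    intro π _ V hV hG h
    set W : Set (Pt K (π ⊕ (X.ι ⊕ X.Λ))) :=
      {v | ev (fun q => v (Sum.inr (Sum.inl ((p b).e (Sum.inl q))))) (p b).u = 0} with hW
    have hWc : Constr W := Constr.eqz (pf_aevalZ (φ := fun (v : Pt K (π ⊕ (X.ι ⊕ X.Λ)))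
      (q : (p b).P) => v (Sum.inr (Sum.inl ((p b).e (Sum.inl q))))) (fun i => IsPF.coord _) _)
    have h1 : V = (V ∩ Wᶜ) ∪ (V ∩ W) := by
      rw [Set.union_comm, Set.inter_union_compl]
    rw [h1, rt_union (D := D) hu π (hV.inter hWc.compl) (hV.inter hWc) (by
      rw [Set.disjoint_left]
      rintro v ⟨_, h2⟩ ⟨_, h3⟩
      exact h2 h3)]
    refine Subalgebra.add_mem _ ?_ ?_
    · exact rt_piv hu (p b) (hY b) π _ (hV.inter hWc.compl) (fun v hv => hG v hv.1)
        fun v hv => hv.2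
    · refine ih π _ (hV.inter hWc) (fun v hv => hG v hv.1) fun v hv => ?_
      obtain ⟨b', hb', h2⟩ := h v hv.1
      rcases Finset.mem_insert.1 hb' with rfl | h3
      · exact absurd hv.2 h2
      · exact ⟨b', h3, h2⟩

/-- a condition which does not depend on the origin -/
theorem V0_V0 (X : Sys T) {π : Type} (V : Set (Pt K (π ⊕ (X.ι ⊕ X.Λ)))) :
    V0 X (V0 X V) = V0 X V := rfl

theorem rt_step {D D' : Set (ℤ × ℤ)} (hDD : D' ⊆ D) {X : Sys T} (ha : ∀ t, 0 < a t)
    (e : Fin T → ℕ) (he : ∀ l, (X.G l).IsHomogeneous (e (X.τ l))) {B : Type} [Fintype B]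
    (Y : B → Sys T) (p : ∀ b, Piv X (Y b)) (hY : ∀ b, Rt u M a D' (Y b))
    (cov : ∀ x : X.ι → AlgebraicClosure K, x ≠ 0 →
      ∃ b, ev (fun q => x ((p b).e (Sum.inl q))) (p b).u ≠ 0)
    (hD : 0 < ∑ t, a t * e t → (-(Fintype.card X.ι : ℤ), ((∑ t, a t * e t : ℕ) : ℤ)) ∈ D) :
    Rt u M a D X := by
  classical
  intro π _ V hV hG
  by_cases hN : 0 < ∑ t, a t * e t
  · -- the set where the origin vanishes
    set Z : Set (Pt K (π ⊕ (X.ι ⊕ X.Λ))) := {v | ∀ i, v (Sum.inr (Sum.inl i)) = 0} with hZ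
    have hZc : Constr Z := Constr.all fun i => Constr.eqz (IsPF.coord _)
    have hnz : ∀ V : Set (Pt K (π ⊕ (X.ι ⊕ X.Λ))), Constr V → Gd X V →
        gf a (mm M (((u⁻¹ : Rˣ) : R)) X (V ∩ Zᶜ)) ∈ ratU u D := by
      intro V hV hG
      refine rat_mono u hDD (rt_pivs hu Y p hY Finset.univ π _ (hV.inter hZc.compl)
        (fun v hv => hG v hv.1) fun v hv => ?_)
      obtain ⟨b, hb⟩ := cov (fun i => v (Sum.inr (Sum.inl i))) (by
        intro h
        exact hv.2 fun i => congrFun h i)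
      exact ⟨b, Finset.mem_univ b, hb⟩
    have hdec : ∀ V : Set (Pt K (π ⊕ (X.ι ⊕ X.Λ))), Constr V → Gd X V →
        gf a (mm M (((u⁻¹ : Rˣ) : R)) X V) = gf a (mm M (((u⁻¹ : Rˣ) : R)) X (V ∩ Zᶜ)) +
          PowerSeries.C (((u⁻¹ : Rˣ) : R) ^ Fintype.card X.ι) *
            PowerSeries.X ^ (∑ t, a t * e t) * gf a (mm M (((u⁻¹ : Rˣ) : R)) X (V0 X V)) := by
      intro V hV hG
      have h1 : V = (V ∩ Zᶜ) ∪ (V ∩ Z) := by
        rw [Set.union_comm, Set.inter_union_compl]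
      conv_lhs => rw [h1, rt_union (D := D) hu π (hV.inter hZc.compl) (hV.inter hZc) (by
        rw [Set.disjoint_left]
        rintro v ⟨_, h2⟩ ⟨_, h3⟩
        exact h2 h3)]
      congr 1
      refine gf_shift a ha e _ _ _ (fun α hα => ?_) fun β => ?_
      · exact mm_scale_zero M _ X e he (fun v hv => hG v hv.1) (fun v hv => hv.2) α hα
      · rw [mm_scale M _ (hv hu) X e he (hV.inter hZc) (fun v hv => hv.2)]
        have h2 : V0 X (V ∩ Z) = V0 X V := by
          ext v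
          exact ⟨fun h => h.1, fun h => ⟨h, fun _ => rfl⟩⟩
        rw [h2]
    rw [hdec V hV hG]
    refine Subalgebra.add_mem _ (hnz V hV hG) (Subalgebra.mul_mem _ (Subalgebra.mul_mem _
      (rat_C u _) (Subalgebra.pow_mem _ (rat_X u) _)) ?_)
    have h3 := hdec (V0 X V) (constr_V0 X hV) (gd_V0 X hG)
    rw [V0_V0 hu] at h3
    exact geo_solve u hN (hD hN) _ _ (hnz _ (constr_V0 X hV) (gd_V0 X hG)) h3
  · have he0 : ∀ t, e t = 0 := by
      intro t
      have h1 : ∑ t, a t * e t = 0 := by omega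
      have h2 := (Finset.sum_eq_zero_iff.1 h1) t (Finset.mem_univ t)
      rcases Nat.mul_eq_zero.1 h2 with h3 | h3
      · exact absurd h3 (ha t).ne'
      · exact h3
    rw [gf_const a ha]
    · exact rat_C u _
    · rintro α ⟨t, ht⟩
      have h2 : SS X V α (∑ t, α t) = ∅ := by
        rw [Set.eq_empty_iff_forall_notMem]
        intro z hz
        obtain ⟨l, hl, hl'⟩ := hG _ hz.2 t
        apply hl'
        have h3 : (X.G l).totalDegree = 0 := by
          have h4 := (he l).totalDegree_le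
          rw [he0] at h4
          omega
        rw [totalDegree_eq_zero_iff_eq_C] at h3
        rw [dat_lam, lam, h3, ev_C, ← map_intCast (PowerSeries.C (R := AlgebraicClosure K)),
          PowerSeries.coeff_C, if_neg (by rw [hl]; exact ht)]
      unfold mm
      rw [h2, Pool.Agent.W375.MT.chi_empty, zero_mul]

end rec

/-- A system which can be reduced by pivots to smaller systems away from the origin; `ν d` is the
dimension. -/
inductive Tw {T : ℕ} (ν : ℕ → ℕ) (p : Fin T → ℕ) : Sys T → ℕ → Prop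
  | mk (X : Sys T) (d : ℕ) (hν : Fintype.card X.ι = ν d)
      (hom : ∀ l, (X.G l).IsHomogeneous (p (X.τ l) - d)) (B : Type) (fB : Fintype B)
      (Y : B → Sys T) (δ : B → ℕ) (hδ : ∀ b, 0 < δ b) (pv : ∀ b, Piv X (Y b))
      (cov : ∀ (F : Type) [Field F] (x : X.ι → F), x ≠ 0 →
        ∃ b, ev (fun q => x ((pv b).e (Sum.inl q))) (pv b).u ≠ 0)
      (h : ∀ b, Tw ν p (Y b) (d + δ b)) : Tw ν p X d

/-- the pairs from the level `d` on -/
def Dset {T : ℕ} (ν : ℕ → ℕ) (p a : Fin T → ℕ) (d : ℕ) : Set (ℤ × ℤ) :=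
  {q | ∃ d', d ≤ d' ∧ 0 < ∑ t, a t * (p t - d') ∧
    q = (-(ν d' : ℤ), ((∑ t, a t * (p t - d') : ℕ) : ℤ))}

theorem Dset_anti {T : ℕ} (ν : ℕ → ℕ) (p a : Fin T → ℕ) {d d' : ℕ} (h : d ≤ d') :
    Dset ν p a d' ⊆ Dset ν p a d := by
  rintro q ⟨c, hc, h1⟩
  exact ⟨c, h.trans hc, h1⟩

/-- **Rationality.** -/
theorem tw_rt {K : Type} [Field K] {T : ℕ} {R : Type} [CommRing R] {u : Rˣ} {M : Meas K R}
    (hu : M.L = (u : R)) {a : Fin T → ℕ} (ha : ∀ t, 0 < a t) {ν : ℕ → ℕ} {p : Fin T → ℕ}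
    {X : Sys T} {d : ℕ} (h : Tw ν p X d) : Rt u M a (Dset ν p a d) X := by
  induction h with
  | mk X d hν hom B fB Y δ hδ pv cov h ih =>
    refine rt_step hu (Set.Subset.refl _) ha (fun t => p t - d) hom Y pv (fun b => ?_)
      (cov (AlgebraicClosure K)) fun hN => ?_
    · intro π _ V hV hG
      exact rat_mono u (Dset_anti ν p a (Nat.le_add_right _ _)) (ih b π V hV hG)
    · exact ⟨d, le_rfl, hN, by rw [hν]⟩

end Pool.Agent.TH192.MT
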