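import Pool.Agent.TH192.MT.JDefs
import Pool.Agent.W428.MOT.Tools
import Pool.Agent.W417.MT.Free
import Pool.Agent.W375.MT.Jet

set_option autoImplicit false
set_option linter.unusedSectionVars false
set_option linter.unusedVariables false

/-! # Rational functions on constructible sets, power series with such coefficients -/

namespace Pool.Agent.TH192.MT

open MvPolynomial Pool.Agent.W428.MOT

variable {K : Type} [Field K] {ι κ : Type}

/-- The value of a polynomial with integral coefficients. -/
noncomputable def ev {A : Type} [CommRing A] {σ : Type} (x : σ → A) : MvPolynomial σ ℤ →+* A :=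
  eval₂Hom (Int.castRingHom A) x

theorem ev_C {A : Type} [CommRing A] {σ : Type} (x : σ → A) (a : ℤ) :
    ev x (C a) = (a : A) := by
  simp [ev]

theorem ev_X {A : Type} [CommRing A] {σ : Type} (x : σ → A) (i : σ) : ev x (X i) = x i := by
  simp [ev]

section rf

variable {S T : Set (Pt K ι)} {F G : Pt K ι → AlgebraicClosure K}

theorem rf_mono (h : IsRF T F) (hST : S ⊆ T) : IsRF S F := by
  obtain ⟨P, Q, h⟩ := h
  exact ⟨P, Q, fun z hz => h z (hST hz)⟩

theorem rf_sum {α : Type} (s : Finset α) (F : α → Pt K ι → AlgebraicClosure K)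
    (hF : ∀ a ∈ s, IsRF S (F a)) : IsRF S (fun z => ∑ a ∈ s, F a z) := by
  classical
  induction s using Finset.induction_on with
  | empty => simpa using (IsPF.zero (K := K) (ι := ι)).isRF S
  | insert a s ha ih =>
    simp only [Finset.sum_insert ha]
    exact (hF a (Finset.mem_insert_self _ _)).add
      (ih fun b hb => hF b (Finset.mem_insert_of_mem hb))

theorem rf_neg (hF : IsRF S F) : IsRF S (fun z => - F z) := by
  have := ((IsPF.zero (K := K) (ι := ι)).isRF S).sub hF
  exact this.congr fun z _ => (zero_sub _).symm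

theorem rf_pow (hF : IsRF S F) (k : ℕ) : IsRF S (fun z => F z ^ k) := by
  induction k with
  | zero => simpa using (IsPF.one (K := K) (ι := ι)).isRF S
  | succ k ih =>
    simp only [pow_succ]
    exact ih.mul hF

theorem rf_int (n : ℤ) : IsRF S (fun _ => (n : AlgebraicClosure K)) := by
  refine ((IsPF.const (K := K) (ι := ι) (n : K)).isRF S).congr fun z _ => ?_
  rw [map_intCast]

theorem rf_inv (hF : IsRF S F) (h0 : ∀ z ∈ S, F z ≠ 0) : IsRF S (fun z => (F z)⁻¹) := by
  have := ((IsPF.one (K := K) (ι := ι)).isRF S).div hF h0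
  exact this.congr fun z _ => by rw [one_div]

/-- composition with a polynomial -/
theorem rf_aeval {φ : Pt K ι → Pt K κ} (hφ : RegularOn S φ) (P : MvPolynomial κ K) :
    IsRF S (fun z => aeval (φ z) P) := by
  induction P using MvPolynomial.induction_on with
  | C a =>
    simp only [MvPolynomial.algHom_C]
    exact (IsPF.const a).isRF S
  | add p q hp hq =>
    simp only [map_add]
    exact hp.add hq
  | mul_X p i hp =>
    simp only [map_mul, MvPolynomial.aeval_X]
    exact hp.mul (hφ i)

/-- composition with a polynomial with integral coefficients -/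
theorem rf_aevalZ {φ : Pt K ι → Pt K κ} (hφ : ∀ i, IsRF S fun z => φ z i)
    (P : MvPolynomial κ ℤ) : IsRF S (fun z => ev (φ z) P) := by
  induction P using MvPolynomial.induction_on with
  | C a =>
    simp only [ev_C]
    exact rf_int a
  | add p q hp hq =>
    simp only [map_add]
    exact hp.add hq
  | mul_X p i hp =>
    simp only [map_mul, ev_X]
    exact hp.mul (hφ i)

theorem constr_rf (hS : Constr S) (hF : IsRF S F) : Constr {z | z ∈ S ∧ F z = 0} := by
  obtain ⟨P, Q, h⟩ := hF
  have h1 : {z | z ∈ S ∧ F z = 0} = S ∩ {z | aeval z P = 0} := by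
    ext z
    constructor
    · rintro ⟨h2, h3⟩
      refine ⟨h2, ?_⟩
      obtain ⟨h4, h5⟩ := h z h2
      rw [h5, div_eq_zero_iff] at h3
      exact h3.resolve_right h4
    · rintro ⟨h2, h3⟩
      refine ⟨h2, ?_⟩
      rw [(h z h2).2, show aeval z P = 0 from h3, zero_div]
  rw [h1]
  exact hS.inter (Constr.zero P)

/-- the preimage of a constructible set under a rational map -/
theorem constr_pre (hS : Constr S) {φ : Pt K ι → Pt K κ} (hφ : RegularOn S φ)
    {V : Set (Pt K κ)} (hV : Constr V) : Constr {z | z ∈ S ∧ φ z ∈ V} := by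
  induction hV with
  | zero P => exact constr_rf hS (rf_aeval hφ P)
  | @compl V _ ih =>
    have h1 : {z | z ∈ S ∧ φ z ∈ Vᶜ} = S ∩ {z | z ∈ S ∧ φ z ∈ V}ᶜ := by
      ext z
      simp only [Set.mem_ofPred_eq, Set.mem_inter_iff, Set.mem_compl_iff]
      tauto
    rw [h1]
    exact hS.inter ih.compl
  | @inter V W _ _ ih1 ih2 =>
    have h1 : {z | z ∈ S ∧ φ z ∈ V ∩ W} = {z | z ∈ S ∧ φ z ∈ V} ∩ {z | z ∈ S ∧ φ z ∈ W} := by
      ext z
      simp only [Set.mem_ofPred_eq, Set.mem_inter_iff]
      tauto
    rw [h1]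
    exact ih1.inter ih2

end rf

theorem pf_aevalZ {φ : Pt K ι → Pt K κ} (hφ : ∀ i, IsPF fun z => φ z i)
    (P : MvPolynomial κ ℤ) : IsPF (fun z => ev (φ z) P) := by
  induction P using MvPolynomial.induction_on with
  | C a =>
    have h1 := IsPF.const (K := K) (ι := ι) (a : K)
    simp only [ev_C]
    rw [map_intCast] at h1
    exact h1
  | add p q hp hq =>
    simp only [map_add]
    exact hp.add hq
  | mul_X p i hp =>
    simp only [map_mul, ev_X]
    exact hp.mul (hφ i)

/-- power series whose coefficients are rational functions on `S` -/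
def IsRA (S : Set (Pt K ι)) (γ : Pt K ι → PowerSeries (AlgebraicClosure K)) : Prop :=
  ∀ j, IsRF S (fun z => PowerSeries.coeff j (γ z))

section ra

variable {S : Set (Pt K ι)} {γ δ : Pt K ι → PowerSeries (AlgebraicClosure K)}

theorem ra_add (hγ : IsRA S γ) (hδ : IsRA S δ) : IsRA S (fun z => γ z + δ z) := by
  intro j
  simp only [map_add]
  exact (hγ j).add (hδ j)

theorem ra_mul (hγ : IsRA S γ) (hδ : IsRA S δ) : IsRA S (fun z => γ z * δ z) := by
  intro j
  simp only [PowerSeries.coeff_mul]
  exact rf_sum _ _ fun p _ => (hγ p.1).mul (hδ p.2)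

theorem ra_int (n : ℤ) : IsRA S (fun _ => (n : PowerSeries (AlgebraicClosure K))) := by
  intro j
  have h1 : (n : PowerSeries (AlgebraicClosure K)) = PowerSeries.C (n : AlgebraicClosure K) := by
    rw [map_intCast]
  simp only [h1, PowerSeries.coeff_C]
  split_ifs
  · exact rf_int n
  · exact (IsPF.zero).isRF S

theorem ra_aevalZ {φ : Pt K ι → κ → PowerSeries (AlgebraicClosure K)}
    (hφ : ∀ i, IsRA S fun z => φ z i) (P : MvPolynomial κ ℤ) :
    IsRA S (fun z => ev (φ z) P) := by
  induction P using MvPolynomial.induction_on with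
  | C a =>
    simp only [ev_C]
    exact ra_int a
  | add p q hp hq =>
    simp only [map_add]
    exact ra_add hp hq
  | mul_X p i hp =>
    simp only [map_mul, ev_X]
    exact ra_mul hp (hφ i)

theorem ra_inv (hγ : IsRA S γ) (h0 : ∀ z ∈ S, PowerSeries.coeff 0 (γ z) ≠ 0) :
    IsRA S (fun z => (γ z)⁻¹) := by
  intro j
  induction j using Nat.strong_induction_on with
  | _ j ih =>
    have h1 : IsRF S fun z => (PowerSeries.constantCoeff (γ z))⁻¹ := by
      refine rf_inv ?_ ?_
      · exact (hγ 0).congr fun z _ => by rw [PowerSeries.coeff_zero_eq_constantCoeff_apply]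
      · intro z hz
        rw [← PowerSeries.coeff_zero_eq_constantCoeff_apply]
        exact h0 z hz
    by_cases h : j = 0
    · refine h1.congr fun z _ => ?_
      rw [PowerSeries.coeff_inv, if_pos h]
    · refine IsRF.congr (F := fun z => -(PowerSeries.constantCoeff (γ z))⁻¹ *
        ∑ x ∈ Finset.HasAntidiagonal.antidiagonal j, if x.2 < j then PowerSeries.coeff x.1 (γ z) *
          PowerSeries.coeff x.2 (γ z)⁻¹ else 0) ((rf_neg h1).mul (rf_sum _ _ fun p _ => ?_))
        fun z _ => ?_
      · split_ifs with h2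
        · exact (hγ p.1).mul (ih p.2 h2)
        · exact (IsPF.zero).isRF S
      · rw [PowerSeries.coeff_inv, if_neg h]

end ra

/-! ### arcs -/

section arcs

variable {F : Type} [Field F]

theorem coeff_ar {N : ℕ} (z : ι × Fin (N + 1) → F) (i : ι) (j : ℕ) :
    PowerSeries.coeff j (ar z i) = if h : j < N + 1 then z (i, ⟨j, h⟩) else 0 := by
  rw [ar, PowerSeries.coeff_mk]

theorem coeff_ar_zero {N : ℕ} (z : ι × Fin (N + 1) → F) (i : ι) :
    PowerSeries.coeff 0 (ar z i) = z (i, 0) := by
  rw [coeff_ar, dif_pos (Nat.succ_pos N)]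
  rfl

/-- equality of the coefficients up to `q` -/
def Cg (q : ℕ) (a b : PowerSeries F) : Prop :=
  ∀ k ≤ q, PowerSeries.coeff k a = PowerSeries.coeff k b

theorem cg_aeval (P : MvPolynomial ι ℤ) (q : ℕ) (γ δ : ι → PowerSeries F)
    (h : ∀ i, Cg q (γ i) (δ i)) : Cg q (ev γ P) (ev δ P) := by
  induction P using MvPolynomial.induction_on with
  | C a =>
    intro k _
    simp only [ev_C]
  | add p q hp hq =>
    intro k hk
    simp only [map_add, hp k hk, hq k hk]
  | mul_X p i hp =>
    intro k hk
    simp only [map_mul, ev_X, PowerSeries.coeff_mul]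
    refine Finset.sum_congr rfl fun ab hab => ?_
    have := Finset.HasAntidiagonal.mem_antidiagonal.1 hab
    rw [hp ab.1 (by omega), h i ab.2 (by omega)]

theorem coeff_zero_aeval (P : MvPolynomial ι ℤ) (γ : ι → PowerSeries F) :
    PowerSeries.coeff 0 (ev γ P) = ev (fun i => PowerSeries.coeff 0 (γ i)) P := by
  induction P using MvPolynomial.induction_on with
  | C a =>
    rw [ev_C, ev_C, PowerSeries.coeff_zero_eq_constantCoeff_apply, map_intCast]
  | add p q hp hq => rw [map_add, map_add, hp, hq, map_add]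
  | mul_X p i hp =>
    rw [map_mul, ev_X, map_mul (ev fun i => PowerSeries.coeff 0 (γ i)), ev_X, ← hp]
    simp only [PowerSeries.coeff_zero_eq_constantCoeff_apply, map_mul]

/-- the coefficients below `n` vanish -/
def Vn (n : ℕ) (a : PowerSeries F) : Prop := ∀ j < n, PowerSeries.coeff j a = 0

theorem vn_iff {n : ℕ} {a : PowerSeries F} : Vn n a ↔ PowerSeries.X ^ n ∣ a :=
  PowerSeries.X_pow_dvd_iff.symm

theorem vn_mul {n : ℕ} {a : PowerSeries F} (c : PowerSeries F) (h : Vn n a) : Vn n (c * a) := by
  rw [vn_iff] at h ⊢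
  exact h.mul_left c

theorem coeff_mul_vn {n : ℕ} {a : PowerSeries F} (c : PowerSeries F) (h : Vn n a) :
    PowerSeries.coeff n (c * a) = PowerSeries.coeff 0 c * PowerSeries.coeff n a := by
  obtain ⟨b, rfl⟩ := vn_iff.1 h
  rw [show c * (PowerSeries.X ^ n * b) = PowerSeries.X ^ n * (c * b) by ring]
  have h1 : ∀ d : PowerSeries F, PowerSeries.coeff n (PowerSeries.X ^ n * d) =
      PowerSeries.coeff 0 d := by
    intro d
    have := PowerSeries.coeff_X_pow_mul d n 0
    rwa [Nat.zero_add] at this
  rw [h1, h1]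
  simp

theorem vn_sum {n : ℕ} {α : Type} (s : Finset α) (a : α → PowerSeries F)
    (h : ∀ i ∈ s, Vn n (a i)) : Vn n (∑ i ∈ s, a i) := by
  rw [vn_iff]
  exact Finset.dvd_sum fun i hi => vn_iff.1 (h i hi)

theorem vn_congr {n : ℕ} {a b : PowerSeries F} (h : Cg n a b) : Vn n a ↔ Vn n b := by
  unfold Vn
  refine forall₂_congr fun j hj => ?_
  rw [h j hj.le]

end arcs

/-! ### classes -/

variable {R : Type} [CommRing R] (M : Meas K R)

theorem chi_univ [Fintype ι] : M.χ ι (Set.univ : Set (Pt K ι)) = M.L ^ Fintype.card ι := by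
  classical
  have h1 := Pool.Agent.W417.MT.Free.main M (Set.univ : Set (Pt K ι)) ∅ Finset.univ
    (fun _ => 0) (Finset.disjoint_empty_left _) Constr.univ (fun _ _ _ h => h)
  simp only [Finset.notMem_empty, false_imp_iff, implies_true, Set.ofPred_true, Set.univ_inter,
    Finset.empty_union, Finset.mem_univ, forall_const, map_zero, Finset.card_empty, pow_zero,
    mul_one, Finset.card_univ] at h1
  rw [h1]
  have h2 : M.χ ι {z : Pt K ι | ∀ i, z i = 0} = 1 := by
    rw [← M.point (ι := Empty)]
    refine M.iso _ _ ?_ Constr.univ (fun _ i => i.elim) (fun _ _ => 0) (fun i => i.elim)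
      (fun i => IsPF.zero.isRF _) (fun _ _ => trivial) (fun _ _ _ => rfl) ?_ ?_
    · exact Constr.all fun i => Constr.eqz (IsPF.coord i)
    · intro z hz
      funext i
      exact (hz i).symm
    · intro w _
      funext i
      exact i.elim
  rw [h2, one_mul]

/-- splitting off free coordinates -/
theorem chi_split {μ : Type} [Fintype ι] [Fintype κ] [Fintype μ] (e : κ ⊕ μ ≃ ι)
    (S : Set (Pt K ι)) (S' : Set (Pt K κ)) (hS' : Constr S')
    (h : ∀ z : Pt K ι, z ∈ S ↔ (fun i => z (e (Sum.inl i))) ∈ S') :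
    M.χ ι S = M.χ κ S' * M.L ^ Fintype.card μ := by
  rw [← chi_univ, ← M.prod S' Set.univ hS' Constr.univ]
  have hS : Constr S := by
    have h1 := hS'.preimage (fun z : Pt K ι => fun i => z (e (Sum.inl i))) fun i => IsPF.coord _
    have h2 : S = {z : Pt K ι | (fun i => z (e (Sum.inl i))) ∈ S'} := Set.ext h
    rw [h2]
    exact h1
  have hT : Constr {z : Pt K (κ ⊕ μ) | (fun i => z (Sum.inl i)) ∈ S' ∧
      (fun i => z (Sum.inr i)) ∈ (Set.univ : Set (Pt K μ))} := by
    refine Constr.and ?_ ?_
    · exact hS'.preimage (fun z : Pt K (κ ⊕ μ) => fun i => z (Sum.inl i)) fun i => IsPF.coord _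
    · exact Constr.const True
  refine M.iso _ _ hS hT (fun z i => z (e i)) (fun w i => w (e.symm i))
    (regularOn_poly (fun i => IsPF.coord _) _) (regularOn_poly (fun i => IsPF.coord _) _) ?_ ?_ ?_ ?_
  · intro z hz
    exact ⟨(h z).1 hz, trivial⟩
  · intro w hw
    rw [h]
    simp only [Equiv.symm_apply_apply]
    exact hw.1
  · intro z _
    funext i
    simp
  · intro w _
    funext i
    simp

end Pool.Agent.TH192.MT
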