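import Pool.Agent.TH192.MT.Pf

set_option autoImplicit false
set_option linter.unusedSectionVars false
set_option linter.unusedVariables false

/-! # The skew symmetric matrices -/

namespace Pool.Agent.TH192.MT

open MvPolynomial Matrix Pool.Agent.TH192.PA Pool.Agent.Helper929

/-- The Pfaffians of size `2 e t` of a matrix of polynomials. -/
@[reducible] noncomputable def kSys {T : ℕ} {ι I : Type} [Fintype ι] [Fintype I]
    (Mx : Matrix I I (MvPolynomial ι ℤ)) (e : Fin T → ℕ) : Sys T where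
  ι := ι
  fι := inferInstance
  Λ := Σ t : Fin T, (Fin (2 * e t) → I)
  fΛ := inferInstance
  τ l := l.1
  G l := pf (2 * e l.1) (Mx.submatrix l.2 l.2)

theorem fI_kSys {T : ℕ} {ι I : Type} [Fintype ι] [Fintype I]
    (Mx : Matrix I I (MvPolynomial ι ℤ)) (e : Fin T → ℕ) {A : Type} [CommRing A] (x : ι → A)
    (t : Fin T) : fI (kSys Mx e) x t = pfI (e t) (Mx.map (ev x)) := by
  have key : ∀ l : (kSys Mx e).Λ, ev x ((kSys Mx e).G l) =
      pf (2 * e l.1) ((Mx.map (ev x)).submatrix l.2 l.2) := by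
    intro l
    exact pf_map (ev x) _ (Mx.submatrix l.2 l.2)
  refine le_antisymm (Ideal.span_le.2 ?_) (pfI_le fun r => ?_)
  · rintro y ⟨l, rfl, rfl⟩
    rw [SetLike.mem_coe, key l]
    exact pf_mem _ _
  · exact Ideal.subset_span ⟨⟨t, r⟩, rfl, (key ⟨t, r⟩).symm⟩

theorem hom_pf {ι : Type} : ∀ (k : ℕ) (M : Matrix (Fin (2 * k)) (Fin (2 * k)) (MvPolynomial ι ℤ)),
    (∀ i j, (M i j).IsHomogeneous 1) → (pf (2 * k) M).IsHomogeneous k := by
  intro k
  induction k with
  | zero =>
    intro M _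
    exact isHomogeneous_one _ _
  | succ k ih =>
    intro M h
    change (∑ j : Fin (2 * k + 1), (-1) ^ (j : ℕ) * M 0 j.succ * pf (2 * k)
      (M.submatrix (fun k => (j.succAbove k).succ) (fun k => (j.succAbove k).succ))).IsHomogeneous
        (k + 1)
    refine IsHomogeneous.sum _ _ _ fun j _ => ?_
    have h1 := (h 0 j.succ).mul (ih (M.submatrix (fun k => (j.succAbove k).succ)
      (fun k => (j.succAbove k).succ)) fun a b => h _ _)
    rw [Nat.add_comm 1 k] at h1
    rcases neg_one_pow_eq_or (MvPolynomial ι ℤ) (j : ℕ) with h2 | h2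
    · rw [h2, one_mul]
      exact h1
    · rw [h2, neg_one_mul, neg_mul]
      exact h1.neg

/-- The skew symmetric matrix. -/
noncomputable def kM (I : Type) [LinearOrder I] :
    Matrix I I (MvPolynomial {q : I × I // q.1 < q.2} ℤ) := Matrix.of fun i j =>
  if h : i < j then X ⟨(i, j), h⟩ else if h : j < i then - X ⟨(j, i), h⟩ else 0

variable {I I' : Type} [LinearOrder I] [LinearOrder I']

theorem kM_lt {i j : I} (h : i < j) : kM I i j = X ⟨(i, j), h⟩ := by
  change (if h : i < j then _ else _) = _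
  rw [dif_pos h]

theorem kM_gt {i j : I} (h : j < i) : kM I i j = - X ⟨(j, i), h⟩ := by
  change (if h : i < j then _ else if h : j < i then _ else _) = _
  rw [dif_neg (lt_asymm h), dif_pos h]

theorem kM_self (i : I) : kM I i i = 0 := by
  change (if h : i < i then _ else if h : i < i then _ else _) = _
  rw [dif_neg (lt_irrefl i), dif_neg (lt_irrefl i)]

theorem kM_alt {A : Type} [CommRing A] (x : {q : I × I // q.1 < q.2} → A) :
    Alt ((kM I).map (ev x)) := by
  refine ⟨fun i => ?_, fun i j => ?_⟩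
  · change ev x (kM I i i) = 0
    rw [kM_self, map_zero]
  · change ev x (kM I i j) = - ev x (kM I j i)
    rcases lt_trichotomy i j with h | h | h
    · rw [kM_lt h, kM_gt h, map_neg, neg_neg]
    · subst h
      rw [kM_self, map_zero, neg_zero]
    · rw [kM_lt h, kM_gt h, map_neg]

theorem kM_coord {A : Type} [CommRing A] (N : Matrix I I A) (hN : Alt N) :
    (kM I).map (ev fun y : {q : I × I // q.1 < q.2} => N y.1.1 y.1.2) = N := by
  ext i j
  change ev _ (kM I i j) = _
  rcases lt_trichotomy i j with h | h | h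
  · rw [kM_lt h, ev_X]
  · subst h
    rw [kM_self, map_zero, hN.1]
  · rw [kM_gt h, map_neg, ev_X, hN.2 i j]

theorem piv_skew {T : ℕ} [Fintype I] [Fintype I'] (e1 : Fin 2 ⊕ I' ≃ I)
    (hm : StrictMono fun a : I' => e1 (Sum.inr a)) (e : Fin T → ℕ) :
    ∃ p : Piv (kSys (kM I) e) (kSys (kM I') fun t => e t - 1),
      ∀ (A : Type) [CommRing A] (x : {q : I × I // q.1 < q.2} → A),
        ev (fun q => x (p.e (Sum.inl q))) p.u = (piv ((kM I).map (ev x)) e1 e1).det := by
  classical
  refine matPiv (kSys (kM I) e) (kSys (kM I') fun t => e t - 1) (kM I) (kM I')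
    (fun y => y.1) e1 e1 (fun y => ⟨(e1 (Sum.inr y.1.1), e1 (Sum.inr y.1.2)), hm y.2⟩)
    ?_ ?_ ?_ ?_ ?_
  · rintro ⟨⟨a, b⟩, hab⟩ ⟨⟨c, d⟩, hcd⟩ h
    have h0 := congrArg Subtype.val h
    have h1 := (Prod.mk.inj h0).1
    have h2 := (Prod.mk.inj h0).2
    have h3 := Sum.inr_injective (e1.injective h1)
    have h4 := Sum.inr_injective (e1.injective h2)
    exact Subtype.ext (Prod.ext h3 h4)
  · intro y
    exact kM_lt (hm y.2)
  · intro A _ x x' hxx' a b hab
    have key : ∀ (a b : Fin 2 ⊕ I') (h : e1 a < e1 b),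
        (∀ a' b', a = Sum.inr a' → b = Sum.inr b' → False) →
        x ⟨(e1 a, e1 b), h⟩ = x' ⟨(e1 a, e1 b), h⟩ := by
      intro a b h hab
      apply hxx'
      rintro ⟨y, hy⟩
      have h0 := congrArg Subtype.val hy
      have h1 := (Prod.mk.inj h0).1
      have h2 := (Prod.mk.inj h0).2
      exact hab _ _ (e1.injective h1).symm (e1.injective h2).symm
    rcases lt_trichotomy (e1 a) (e1 b) with h | h | h
    · rw [kM_lt h, ev_X, ev_X]
      exact key a b h hab
    · rw [h, kM_self, map_zero, map_zero]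
    · rw [kM_gt h, map_neg, map_neg, ev_X, ev_X]
      congr 1
      exact key b a h fun b' a' hb ha => hab a' b' ha hb
  · intro A _ x hx
    exact kM_coord _ (schur_alt _ (kM_alt x) e1 hx)
  · intro A _ x x' h h' t
    rw [fI_kSys, fI_kSys, h']
    rcases Nat.eq_zero_or_pos (e t) with ht | ht
    · rw [ht, pfI_zero, pfI_zero]
    · obtain ⟨k, hk⟩ : ∃ k, e t = k + 1 := ⟨e t - 1, by omega⟩
      rw [hk, Nat.add_sub_cancel]
      exact pfI_schur _ (kM_alt x) e1 h k

theorem tw_skew {T : ℕ} (n : ℕ) (p : Fin T → ℕ) : ∀ (l d : ℕ) (I : Type) [Fintype I]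
    [LinearOrder I], Fintype.card I = l → Fintype.card I = n - 2 * d →
    Tw (fun d => (n - 2 * d) * (n - 2 * d - 1) / 2) p (kSys (kM I) fun t => p t - d) d := by
  classical
  intro l
  induction l using Nat.strong_induction_on with
  | _ l ih =>
    intro d I _ _ hl hI
    have hp := fun b : {q : I × I // q.1 < q.2} => piv_skew (I := I)
      (I' := {x : I // x ≠ b.1.1 ∧ x ≠ b.1.2}) (eq2 b.1.1 b.1.2 b.2.ne)
      (fun x y h => h) (fun t => p t - d)
    choose P hP using hp
    refine Tw.mk _ d ?_ ?_ {q : I × I // q.1 < q.2} inferInstance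
      (fun b => kSys (kM {x : I // x ≠ b.1.1 ∧ x ≠ b.1.2}) fun t => p t - d - 1)
      (fun _ => 1) (fun _ => one_pos) P ?_ ?_
    · change Fintype.card {q : I × I // q.1 < q.2} = _
      rw [card_skew, hI]
    · rintro ⟨t, r⟩
      refine hom_pf _ _ fun i j => ?_
      change (kM I (r i) (r j)).IsHomogeneous 1
      rcases lt_trichotomy (r i) (r j) with h | h | h
      · rw [kM_lt h]
        exact isHomogeneous_X _ _
      · rw [h, kM_self]
        exact isHomogeneous_zero _ _ _
      · rw [kM_gt h]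
        exact (isHomogeneous_X _ _).neg
    · intro F _ x hx
      obtain ⟨⟨⟨i, j⟩, hij⟩, h⟩ := Function.ne_iff.1 hx
      refine ⟨⟨(i, j), hij⟩, ?_⟩
      rw [hP ⟨(i, j), hij⟩ F x, Matrix.det_fin_two]
      change ev x (kM I i i) * ev x (kM I j j) - ev x (kM I i j) * ev x (kM I j i) ≠ 0
      change i < j at hij
      rw [kM_self, kM_lt hij, kM_gt hij, map_zero, map_neg, ev_X]
      have h' : x ⟨(i, j), hij⟩ ≠ 0 := h
      rw [zero_mul, zero_sub, mul_neg, neg_neg]
      exact mul_ne_zero h' h'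
    · rintro ⟨⟨i, j⟩, hij⟩
      change i < j at hij
      have hc := card_eq2 i j hij.ne
      have h2I := Fintype.card_congr (eq2 i j hij.ne)
      rw [Fintype.card_sum, Fintype.card_fin] at h2I
      exact ih (Fintype.card {x : I // x ≠ i ∧ x ≠ j}) (by rw [hc]; omega) (d + 1)
        {x : I // x ≠ i ∧ x ≠ j} rfl (by rw [hc]; omega)

end Pool.Agent.TH192.MT
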