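import Pool.Agent.TH192.MT.Ser

set_option autoImplicit false
set_option linter.unusedSectionVars false
set_option linter.unusedVariables false

/-! # Jets with given orders and leading coefficients -/

namespace Pool.Agent.TH192.MT

open MvPolynomial Pool.Agent.W428.MOT

/-- `T` families of polynomials with integral coefficients in the coordinates `ι`. -/
structure Sys (T : ℕ) where
  ι : Type
  fι : Fintype ι
  Λ : Type
  fΛ : Fintype Λ
  τ : Λ → Fin T
  G : Λ → MvPolynomial ι ℤ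

attribute [instance] Sys.fι Sys.fΛ

variable {K : Type} [Field K] {T : ℕ} {π : Type}

section van

variable {F : Type} [Field F]

/-- The coefficients of the polynomials of the family `t` vanish below `α t`. -/
def Van (X : Sys T) (α : Fin T → ℕ) (x : X.ι → PowerSeries F) : Prop :=
  ∀ l, Vn (α (X.τ l)) (ev x (X.G l))

/-- The coefficients of order `α t`. -/
noncomputable def lam (X : Sys T) (α : Fin T → ℕ) (x : X.ι → PowerSeries F) (l : X.Λ) : F :=
  PowerSeries.coeff (α (X.τ l)) (ev x (X.G l))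

theorem van_congr (X : Sys T) {α : Fin T → ℕ} {x y : X.ι → PowerSeries F} {q : ℕ}
    (h : ∀ i, Cg q (x i) (y i)) (hα : ∀ t, α t ≤ q) : Van X α x ↔ Van X α y := by
  unfold Van
  refine forall_congr' fun l => vn_congr ?_
  intro k hk
  exact cg_aeval _ q x y h k (hk.trans (hα _))

theorem lam_congr (X : Sys T) {α : Fin T → ℕ} {x y : X.ι → PowerSeries F} {q : ℕ}
    (h : ∀ i, Cg q (x i) (y i)) (hα : ∀ t, α t ≤ q) : lam X α x = lam X α y := by
  funext l
  exact cg_aeval _ q x y h _ (hα _)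

end van

/-- The point with the parameters, the origin and the leading coefficients of a jet. -/
noncomputable def dat (X : Sys T) (α : Fin T → ℕ) {N : ℕ} (z : Pt K (π ⊕ X.ι × Fin (N + 1))) :
    Pt K (π ⊕ (X.ι ⊕ X.Λ)) :=
  Sum.elim (fun p => z (Sum.inl p)) (Sum.elim (fun i => z (Sum.inr (i, 0)))
    (lam X α (ar fun q => z (Sum.inr q))))

/-- The jets of level `N` with orders at least `α` and data in `V`. -/
def SS (X : Sys T) (V : Set (Pt K (π ⊕ (X.ι ⊕ X.Λ)))) (α : Fin T → ℕ) (N : ℕ) :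
    Set (Pt K (π ⊕ X.ι × Fin (N + 1))) :=
  {z | Van X α (ar fun q => z (Sum.inr q)) ∧ dat X α z ∈ V}

theorem mem_SS (X : Sys T) (V : Set (Pt K (π ⊕ (X.ι ⊕ X.Λ)))) (α : Fin T → ℕ) (N : ℕ)
    (z : Pt K (π ⊕ X.ι × Fin (N + 1))) :
    z ∈ SS X V α N ↔ Van X α (ar fun q => z (Sum.inr q)) ∧ dat X α z ∈ V := Iff.rfl

theorem dat_inl (X : Sys T) (α : Fin T → ℕ) {N : ℕ} (z : Pt K (π ⊕ X.ι × Fin (N + 1))) (a : π) :
    dat X α z (Sum.inl a) = z (Sum.inl a) := rfl

theorem dat_inr (X : Sys T) (α : Fin T → ℕ) {N : ℕ} (z : Pt K (π ⊕ X.ι × Fin (N + 1))) (i : X.ι) :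
    dat X α z (Sum.inr (Sum.inl i)) = z (Sum.inr (i, 0)) := rfl

theorem dat_lam (X : Sys T) (α : Fin T → ℕ) {N : ℕ} (z : Pt K (π ⊕ X.ι × Fin (N + 1))) (l : X.Λ) :
    dat X α z (Sum.inr (Sum.inr l)) = lam X α (ar fun q => z (Sum.inr q)) l := rfl

/-- The orders are exactly `α`. -/
def Gd (X : Sys T) (V : Set (Pt K (π ⊕ (X.ι ⊕ X.Λ)))) : Prop :=
  ∀ v ∈ V, ∀ t, ∃ l, X.τ l = t ∧ v (Sum.inr (Sum.inr l)) ≠ 0

theorem pf_coeff {ι κ : Type} {N : ℕ} (φ : Pt K κ → ι × Fin (N + 1) → AlgebraicClosure K)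
    (hφ : ∀ i, IsPF fun z => φ z i) (P : MvPolynomial ι ℤ) (j : ℕ) :
    IsPF (fun z : Pt K κ => PowerSeries.coeff j (ev (ar (φ z)) P)) := by
  revert j
  induction P using MvPolynomial.induction_on with
  | C a =>
    intro j
    have h1 := IsPF.const (K := K) (ι := κ) (a : K)
    rw [map_intCast] at h1
    have h2 : ∀ z, ev (ar (φ z)) (C a : MvPolynomial ι ℤ) =
        PowerSeries.C (a : AlgebraicClosure K) := fun z => by rw [ev_C, map_intCast]
    simp only [h2, PowerSeries.coeff_C]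
    split_ifs
    · exact h1
    · exact IsPF.zero
  | add p q hp hq =>
    intro j
    simp only [map_add]
    exact (hp j).add (hq j)
  | mul_X p i hp =>
    intro j
    simp only [map_mul, ev_X, PowerSeries.coeff_mul]
    refine IsPF.sum _ _ fun q _ => (hp q.1).mul ?_
    simp only [coeff_ar]
    split_ifs
    · exact hφ _
    · exact IsPF.zero

theorem pf_dat (X : Sys T) (α : Fin T → ℕ) {N : ℕ} (i : π ⊕ (X.ι ⊕ X.Λ)) :
    IsPF (fun z : Pt K (π ⊕ X.ι × Fin (N + 1)) => dat X α z i) := by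
  rcases i with p | i | l
  · exact IsPF.coord _
  · exact IsPF.coord _
  · exact pf_coeff _ (fun i => IsPF.coord _) _ _

theorem constr_SS (X : Sys T) {V : Set (Pt K (π ⊕ (X.ι ⊕ X.Λ)))} (hV : Constr V)
    (α : Fin T → ℕ) (N : ℕ) : Constr (SS X V α N) := by
  refine Constr.and ?_ (hV.preimage _ (pf_dat X α))
  refine Constr.all fun l => Constr.allLt _ fun j _ => Constr.eqz ?_
  exact pf_coeff _ (fun i => IsPF.coord _) _ _

variable {R : Type} [CommRing R] (M : Meas K R) [Fintype π]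

/-- adding a coordinate of every jet -/
def eLev (π ι : Type) (N : ℕ) : (π ⊕ ι × Fin (N + 1)) ⊕ ι ≃ π ⊕ ι × Fin (N + 2) where
  toFun := fun x => match x with
    | Sum.inl (Sum.inl p) => Sum.inl p
    | Sum.inl (Sum.inr q) => Sum.inr (q.1, q.2.castSucc)
    | Sum.inr i => Sum.inr (i, Fin.last _)
  invFun := fun x => match x with
    | Sum.inl p => Sum.inl (Sum.inl p)
    | Sum.inr (i, j) => Fin.lastCases (motive := fun _ => (π ⊕ ι × Fin (N + 1)) ⊕ ι)
        (Sum.inr i) (fun j => Sum.inl (Sum.inr (i, j))) j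
  left_inv := by
    rintro ((p | ⟨i, j⟩) | i)
    · rfl
    · simp only [Fin.lastCases_castSucc]
    · simp only [Fin.lastCases_last]
  right_inv := by
    rintro (p | ⟨i, j⟩)
    · rfl
    · refine Fin.lastCases ?_ (fun j => ?_) j
      · simp only [Fin.lastCases_last]
      · simp only [Fin.lastCases_castSucc]

theorem chi_level (X : Sys T) {V : Set (Pt K (π ⊕ (X.ι ⊕ X.Λ)))} (hV : Constr V)
    (α : Fin T → ℕ) (N : ℕ) (hN : ∀ t, α t ≤ N) :
    M.χ _ (SS X V α (N + 1)) = M.χ _ (SS X V α N) * M.L ^ Fintype.card X.ι := by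
  refine chi_split M (eLev π X.ι N) _ _ (constr_SS X hV α N) fun z => ?_
  have h1 : ∀ i, Cg N (ar (fun q => z (Sum.inr q)) i) (ar (N := N)
      (fun q => (fun x => z (eLev π X.ι N (Sum.inl x))) (Sum.inr q)) i) := by
    intro i k hk
    rw [coeff_ar, coeff_ar, dif_pos (by omega), dif_pos (by omega)]
    rfl
  have h2 : dat X α z = dat X α (N := N) fun x => z (eLev π X.ι N (Sum.inl x)) := by
    unfold dat
    rw [lam_congr X h1 hN]
    rfl
  unfold SS
  rw [Set.mem_ofPred_eq, Set.mem_ofPred_eq, h2]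
  exact and_congr (van_congr X h1 hN) Iff.rfl

/-- the normalised class -/
noncomputable def mm (v : R) (X : Sys T) (V : Set (Pt K (π ⊕ (X.ι ⊕ X.Λ)))) (α : Fin T → ℕ) : R :=
  M.χ _ (SS X V α (∑ t, α t)) * v ^ ((∑ t, α t) * Fintype.card X.ι)

theorem chi_level' (v : R) (hv : M.L * v = 1) (X : Sys T) {V : Set (Pt K (π ⊕ (X.ι ⊕ X.Λ)))}
    (hV : Constr V) (α : Fin T → ℕ) (N : ℕ) (hN : ∀ t, α t ≤ N) (k : ℕ) :
    M.χ _ (SS X V α (N + k)) * v ^ ((N + k) * Fintype.card X.ι) =
      M.χ _ (SS X V α N) * v ^ (N * Fintype.card X.ι) := by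
  induction k with
  | zero => rfl
  | succ k ih =>
    rw [← ih]
    have h1 := chi_level M X hV α (N + k) (fun t => (hN t).trans (Nat.le_add_right _ _))
    have h2 : N + (k + 1) = (N + k) + 1 := by ring
    rw [h2, h1, add_mul (N + k) 1, pow_add, one_mul]
    have h3 : M.L ^ Fintype.card X.ι * v ^ Fintype.card X.ι = 1 := by
      rw [← mul_pow, hv, one_pow]
    linear_combination (M.χ _ (SS X V α (N + k)) * v ^ ((N + k) * Fintype.card X.ι)) * h3

theorem mm_eq (v : R) (hv : M.L * v = 1) (X : Sys T) {V : Set (Pt K (π ⊕ (X.ι ⊕ X.Λ)))}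
    (hV : Constr V) (α : Fin T → ℕ) (N : ℕ) (hN : ∀ t, α t ≤ N) :
    M.χ _ (SS X V α N) * v ^ (N * Fintype.card X.ι) = mm M v X V α := by
  have h0 : ∀ t, α t ≤ ∑ t, α t := fun t => Finset.single_le_sum (f := α)
    (fun _ _ => Nat.zero_le _) (Finset.mem_univ t)
  unfold mm
  rcases le_total N (∑ t, α t) with h | h
  · obtain ⟨k, hk⟩ := Nat.exists_eq_add_of_le h
    rw [hk]
    exact (chi_level' M v hv X hV α N hN k).symm
  · obtain ⟨k, hk⟩ := Nat.exists_eq_add_of_le h
    rw [hk]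
    exact chi_level' M v hv X hV α _ h0 k

theorem mm_add (v : R) (X : Sys T) {V W : Set (Pt K (π ⊕ (X.ι ⊕ X.Λ)))}
    (hV : Constr V) (hW : Constr W) (hd : Disjoint V W) (α : Fin T → ℕ) :
    mm M v X (V ∪ W) α = mm M v X V α + mm M v X W α := by
  have h1 : SS X (V ∪ W) α (∑ t, α t) = SS X V α (∑ t, α t) ∪ SS X W α (∑ t, α t) := by
    ext z
    simp only [SS, Set.mem_ofPred_eq, Set.mem_union]
    tauto
  have h2 : Disjoint (SS X V α (∑ t, α t)) (SS X W α (∑ t, α t)) := by
    rw [Set.disjoint_left] at hd ⊢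
    intro z hz hz'
    exact hd hz.2 hz'.2
  unfold mm
  rw [h1, M.add _ _ (constr_SS X hV _ _) (constr_SS X hW _ _) h2, add_mul]

/-! ### scaling -/

theorem hom_ev {σ A : Type} [Fintype σ] [CommRing A] (P : MvPolynomial σ ℤ) (n : ℕ)
    (h : P.IsHomogeneous n) (c : A) (x : σ → A) :
    ev (fun i => c * x i) P = c ^ n * ev x P := by
  change eval₂ _ _ _ = c ^ n * eval₂ _ _ _
  rw [eval₂_eq', eval₂_eq', Finset.mul_sum]
  refine Finset.sum_congr rfl fun d hd => ?_
  have h1 : ∑ i, d i = n := by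
    have := h (mem_support_iff.1 hd)
    rw [Finsupp.weight_apply, Finsupp.sum_fintype] at this
    · simpa using this
    · simp
  simp only [mul_pow, Finset.prod_mul_distrib, Finset.prod_pow_eq_pow_sum, h1]
  ring

/-- The origin is replaced by `0`. -/
def V0 (X : Sys T) (V : Set (Pt K (π ⊕ (X.ι ⊕ X.Λ)))) : Set (Pt K (π ⊕ (X.ι ⊕ X.Λ))) :=
  {v | (Sum.elim (fun p => v (Sum.inl p)) (Sum.elim (fun _ => 0)
    (fun l => v (Sum.inr (Sum.inr l)))) : Pt K (π ⊕ (X.ι ⊕ X.Λ))) ∈ V}

theorem constr_V0 (X : Sys T) {V : Set (Pt K (π ⊕ (X.ι ⊕ X.Λ)))} (hV : Constr V) :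
    Constr (V0 X V) := by
  refine hV.preimage (fun v : Pt K (π ⊕ (X.ι ⊕ X.Λ)) => (Sum.elim (fun p => v (Sum.inl p))
    (Sum.elim (fun _ => 0) (fun l => v (Sum.inr (Sum.inr l)))) : Pt K (π ⊕ (X.ι ⊕ X.Λ)))) ?_
  rintro (p | i | l)
  · exact IsPF.coord _
  · exact IsPF.zero
  · exact IsPF.coord _

theorem gd_V0 (X : Sys T) {V : Set (Pt K (π ⊕ (X.ι ⊕ X.Λ)))} (hV : Gd X V) : Gd X (V0 X V) :=
  fun v hv t => hV _ hv t

theorem van_scale (X : Sys T) (e : Fin T → ℕ) (he : ∀ l, (X.G l).IsHomogeneous (e (X.τ l)))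
    {F : Type} [Field F] (β : Fin T → ℕ) (x : X.ι → PowerSeries F) :
    (Van X (fun t => e t + β t) (fun i => PowerSeries.X * x i) ↔ Van X β x) ∧
      lam X (fun t => e t + β t) (fun i => PowerSeries.X * x i) = lam X β x := by
  have h1 : ∀ l, ev (fun i => (PowerSeries.X : PowerSeries F) * x i) (X.G l) =
      PowerSeries.X ^ (e (X.τ l)) * ev x (X.G l) := fun l => hom_ev _ _ (he l) _ _
  constructor
  · unfold Van
    refine forall_congr' fun l => ?_
    rw [vn_iff, vn_iff, h1, pow_add]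
    exact mul_dvd_mul_iff_left (pow_ne_zero _ PowerSeries.X_ne_zero)
  · funext l
    unfold lam
    rw [h1]
    have := PowerSeries.coeff_X_pow_mul (ev x (X.G l)) (e (X.τ l)) (β (X.τ l))
    rw [← this]
    congr 1
    exact congrArg PowerSeries.coeff (Nat.add_comm _ _)

theorem mm_scale (v : R) (hv : M.L * v = 1) (X : Sys T) (e : Fin T → ℕ)
    (he : ∀ l, (X.G l).IsHomogeneous (e (X.τ l))) {V : Set (Pt K (π ⊕ (X.ι ⊕ X.Λ)))}
    (hV : Constr V) (h0 : ∀ w ∈ V, ∀ i, w (Sum.inr (Sum.inl i)) = 0) (β : Fin T → ℕ) :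
    mm M v X V (fun t => e t + β t) = v ^ Fintype.card X.ι * mm M v X (V0 X V) β := by
  set N := ∑ t, (e t + β t) with hN
  have h1 : ∀ t, e t + β t ≤ N := fun t => Finset.single_le_sum (f := fun t => e t + β t)
    (fun _ _ => Nat.zero_le _) (Finset.mem_univ t)
  rw [← mm_eq M v hv X hV (fun t => e t + β t) (N + 1) (fun t => (h1 t).trans (Nat.le_succ _)),
    ← mm_eq M v hv X (constr_V0 X hV) β N (fun t => (Nat.le_add_left _ _).trans (h1 t))]
  have h2 : M.χ _ (SS X V (fun t => e t + β t) (N + 1)) = M.χ _ (SS X (V0 X V) β N) := by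
    -- the shift of the coefficients
    have key : ∀ (z : Pt K (π ⊕ X.ι × Fin (N + 2))) (w : Pt K (π ⊕ X.ι × Fin (N + 1))),
        (∀ p, z (Sum.inl p) = w (Sum.inl p)) → (∀ i, z (Sum.inr (i, 0)) = 0) →
        (∀ i (j : Fin (N + 1)), z (Sum.inr (i, j.succ)) = w (Sum.inr (i, j))) →
        (z ∈ SS X V (fun t => e t + β t) (N + 1) ↔ w ∈ SS X (V0 X V) β N) := by
      intro z w hp hz hzw
      have h3 : (ar fun q => z (Sum.inr q)) = fun i => PowerSeries.X *
          ar (fun q => w (Sum.inr q)) i := by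
        funext i
        ext j
        rw [coeff_ar]
        rcases j with _ | j
        · rw [dif_pos (by omega), PowerSeries.coeff_zero_X_mul]
          exact hz i
        · rw [PowerSeries.coeff_succ_X_mul, coeff_ar]
          by_cases hj : j < N + 1
          · rw [dif_pos (by omega), dif_pos hj]
            exact hzw i ⟨j, hj⟩
          · rw [dif_neg (by omega), dif_neg hj]
      obtain ⟨h4, h5⟩ := van_scale X e he β (ar fun q => w (Sum.inr q))
      unfold SS
      rw [Set.mem_ofPred_eq, Set.mem_ofPred_eq, h3]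
      refine and_congr h4 ?_
      unfold V0
      rw [Set.mem_ofPred_eq]
      have h6 : dat X (fun t => e t + β t) z = Sum.elim (fun p => dat X β w (Sum.inl p))
          (Sum.elim (fun _ => 0) (fun l => dat X β w (Sum.inr (Sum.inr l)))) := by
        funext i
        rcases i with p | i | l
        · exact hp p
        · exact hz i
        · change lam X (fun t => e t + β t) (ar fun q => z (Sum.inr q)) l =
            lam X β (ar fun q => w (Sum.inr q)) l
          rw [h3, h5]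
      rw [h6]
    refine M.iso _ _ (constr_SS X hV _ _) (constr_SS X (constr_V0 X hV) _ _)
      (fun z => Sum.elim (fun p => z (Sum.inl p)) (fun q => z (Sum.inr (q.1, q.2.succ))))
      (fun w => Sum.elim (fun p => w (Sum.inl p))
        (fun q => Fin.cases (motive := fun _ => AlgebraicClosure K) 0
          (fun j => w (Sum.inr (q.1, j))) q.2))
      (regularOn_poly ?_ _) (regularOn_poly ?_ _) ?_ ?_ ?_ ?_
    · rintro (p | q)
      · exact IsPF.coord _
      · exact IsPF.coord _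
    · rintro (p | ⟨i, j⟩)
      · exact IsPF.coord _
      · refine Fin.cases ?_ (fun j => ?_) j
        · exact IsPF.zero
        · exact IsPF.coord _
    · intro z hz
      exact (key z _ (fun _ => rfl) (fun i => h0 _ hz.2 i) (fun _ _ => rfl)).1 hz
    · intro w hw
      exact (key _ w (fun _ => rfl) (fun i => rfl) (fun _ _ => rfl)).2 hw
    · intro z hz
      funext i
      rcases i with p | ⟨i, j⟩
      · rfl
      · refine Fin.cases ?_ (fun j => ?_) j
        · exact (h0 _ hz.2 i).symm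
        · rfl
    · intro w _
      funext i
      rcases i with p | ⟨i, j⟩
      · rfl
      · rfl
  rw [h2, add_mul N 1, pow_add, one_mul]
  ring

theorem mm_scale_zero (v : R) (X : Sys T) (e : Fin T → ℕ)
    (he : ∀ l, (X.G l).IsHomogeneous (e (X.τ l))) {V : Set (Pt K (π ⊕ (X.ι ⊕ X.Λ)))}
    (hG : Gd X V) (h0 : ∀ w ∈ V, ∀ i, w (Sum.inr (Sum.inl i)) = 0) (α : Fin T → ℕ)
    (hα : ∃ t, α t < e t) : mm M v X V α = 0 := by
  have h1 : SS X V α (∑ t, α t) = ∅ := by
    rw [Set.eq_empty_iff_forall_notMem]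
    intro z hz
    obtain ⟨t, ht⟩ := hα
    obtain ⟨l, hl, hl'⟩ := hG _ hz.2 t
    apply hl'
    change lam X α (ar fun q => z (Sum.inr q)) l = 0
    have h3 : ∃ x : X.ι → PowerSeries (AlgebraicClosure K),
        (ar fun q => z (Sum.inr q)) = fun i => PowerSeries.X * x i := by
      have : ∀ i, ∃ y, ar (fun q => z (Sum.inr q)) i = PowerSeries.X * y := by
        intro i
        have h4 : (PowerSeries.X : PowerSeries (AlgebraicClosure K)) ∣
            ar (fun q => z (Sum.inr q)) i := by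
          rw [PowerSeries.X_dvd_iff, ← PowerSeries.coeff_zero_eq_constantCoeff_apply,
            coeff_ar_zero]
          exact h0 _ hz.2 i
        exact h4
      choose x hx using this
      exact ⟨x, funext hx⟩
    obtain ⟨x, hx⟩ := h3
    unfold lam
    rw [hx, hom_ev _ _ (he l)]
    have h5 : Vn (e (X.τ l)) (PowerSeries.X ^ e (X.τ l) * ev x (X.G l) :
        PowerSeries (AlgebraicClosure K)) := vn_iff.2 (dvd_mul_right _ _)
    refine h5 _ ?_
    rw [hl]
    exact ht
  unfold mm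
  rw [h1, Pool.Agent.W375.MT.chi_empty, zero_mul]

end Pool.Agent.TH192.MT
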