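import Pool.Agent.TH192.MT.YR
import Pool.Agent.TH192.MT.Skew
import Pool.Agent.TH192.PA.FormZ
import Pool.Agent.W417.MT.K0
import Pool.Agent.W63.MTFin

set_option autoImplicit false
set_option linter.unusedSectionVars false
set_option linter.unusedVariables false

/-! # The systems of minors and Pfaffians of the three spaces of matrices -/

namespace Pool.Agent.TH192.MT

open MvPolynomial Matrix Pool.Agent.W428.MOT Pool.Agent.TH192.DT Pool.Agent.TH192.PA
  Pool.Agent.Helper929 Pool.Agent.W574.SM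

/-- change of the generators -/
theorem rt_change {K : Type} [Field K] {T : ℕ} {R : Type} [CommRing R] {u : Rˣ} {M : Meas K R}
    {a : Fin T → ℕ} (hu : M.L = (u : R)) {D : Set (ℤ × ℤ)} {Xs Ys : Sys T} (e : Ys.ι ≃ Xs.ι)
    (H : ∀ (A : Type) [CommRing A] (x : Xs.ι → A) (t : Fin T),
      fI Xs x t = fI Ys (fun y => x (e y)) t) (hY : Rt u M a D Ys) : Rt u M a D Xs := by
  obtain ⟨p, hp⟩ := mkPiv Xs Ys Empty ((Equiv.emptySum Empty Ys.ι).trans e) 1 (fun _ => 0) (by
    intro A _ x x' _ h t
    have h1 : x' = fun y => x (e y) := by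
      funext y
      have h2 := h y
      rw [map_one, one_mul, one_mul, map_zero, sub_zero] at h2
      exact h2
    rw [h1]
    exact H A x t)
  intro π _ V hV hG
  refine rt_piv hu p hY π V hV hG fun v _ => ?_
  rw [hp _ (fun i => v (Sum.inr (Sum.inl i))), map_one]
  exact one_ne_zero

/-- The minors (Pfaffians) of size `p t`. -/
@[reducible] noncomputable def topSys (S : MSpace) {T : ℕ} (p : Fin T → ℕ) : Sys T where
  ι := S.Var
  fι := inferInstance
  Λ := Σ t, S.Idx (p t)
  fΛ := inferInstance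
  τ l := l.1
  G l := S.minorsZ (p l.1) l.2

section sorted

variable {R : Type} [CommRing R]

theorem minI_sorted {m n k : ℕ} (Y : Matrix (Fin m) (Fin n) R) (A : Ideal R)
    (h : ∀ (r : Fin k ↪o Fin m) (c : Fin k ↪o Fin n), (Y.submatrix r c).det ∈ A) :
    minI k Y ≤ A := by
  classical
  refine minI_le fun r c => ?_
  by_cases h1 : Function.Injective r
  · by_cases h2 : Function.Injective c
    · obtain ⟨r0, π1, hr⟩ := exists_sort r h1
      obtain ⟨c0, π2, hc⟩ := exists_sort c h2
      have h3 : Y.submatrix r c = ((Y.submatrix r0 c0).submatrix π1 id).submatrix id π2 := by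
        ext1 i j
        simp only [Matrix.submatrix_apply, id_eq, hr, hc]
      rw [h3, Matrix.det_permute', Matrix.det_permute]
      exact Ideal.mul_mem_left _ _ (Ideal.mul_mem_left _ _ (h r0 c0))
    · rw [Function.not_injective_iff] at h2
      obtain ⟨i, j, hij, hne⟩ := h2
      have h3 : (Y.submatrix r c).det = 0 := by
        rw [← Matrix.det_transpose]
        refine Matrix.det_zero_of_row_eq hne ?_
        funext k
        simp only [Matrix.transpose_apply, Matrix.submatrix_apply, hij]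
      rw [h3]
      exact Ideal.zero_mem _
  · rw [Function.not_injective_iff] at h1
    obtain ⟨i, j, hij, hne⟩ := h1
    have h3 : (Y.submatrix r c).det = 0 := by
      refine Matrix.det_zero_of_row_eq hne ?_
      funext k
      simp only [Matrix.submatrix_apply, hij]
    rw [h3]
    exact Ideal.zero_mem _

theorem pfI_sorted {n k : ℕ} (Z : Matrix (Fin n) (Fin n) R) (hZ : Alt Z) (A : Ideal R)
    (h : ∀ r : Fin (2 * k) ↪o Fin n, pf (2 * k) (Z.submatrix r r) ∈ A) : pfI k Z ≤ A := by
  refine pfI_le fun r => ?_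
  by_cases hr : Function.Injective r
  · obtain ⟨r0, π, hr0⟩ := exists_sort r hr
    have h3 : r = r0 ∘ π := by
      funext i
      exact hr0 i
    rw [h3, pf_perm' Z hZ]
    exact (A.restrictScalars ℤ).smul_mem _ (h r0)
  · rw [pf_inj_zero Z hZ r hr]
    exact Ideal.zero_mem _

end sorted

/-- **The zeta functions of the minors are rational.** -/
theorem top_rt {K : Type} [Field K] (S : MSpace) {T : ℕ} {R : Type} [CommRing R] {u : Rˣ}
    {M : Meas K R} (hu : M.L = (u : R)) (p a : Fin T → ℕ) (ha : ∀ t, 0 < a t) :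
    Rt u M a (Dset S.codim p a 0) (topSys S p) := by
  cases S with
  | gen m n =>
    have h1 := tw_rt (K := K) (M := M) hu ha (tw_gen m n p m 0 (Fin m) (Fin n)
      (Fintype.card_fin m) (by rw [Fintype.card_fin, Nat.sub_zero])
      (by rw [Fintype.card_fin, Nat.sub_zero]))
    refine rt_change (Xs := topSys (MSpace.gen m n) p)
      (Ys := mSys (gM (Fin m) (Fin n)) fun t => p t - 0) hu (Equiv.refl _) ?_ h1
    intro A _ x t
    refine Eq.trans ?_ (fI_mSys (gM (Fin m) (Fin n)) (fun t => p t - 0) x t).symm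
    have key : ∀ l : (topSys (MSpace.gen m n) p).Λ, ev x ((topSys (MSpace.gen m n) p).G l) =
        (((gM (Fin m) (Fin n)).map (ev x)).submatrix l.2.1 l.2.2).det := by
      intro l
      exact RingHom.map_det (ev x) ((gM (Fin m) (Fin n)).submatrix l.2.1 l.2.2)
    refine le_antisymm (Ideal.span_le.2 ?_) (minI_sorted _ _ fun r c => ?_)
    · rintro y ⟨l, rfl, rfl⟩
      rw [SetLike.mem_coe, key l]
      exact det_mem _ _ _
    · exact Ideal.subset_span ⟨⟨t, (r, c)⟩, rfl, (key ⟨t, (r, c)⟩).symm⟩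
  | sym n =>
    have h1 := tw_rt (K := K) (M := M) hu ha (tw_sym n p n 0 (Fin n)
      (Fintype.card_fin n) (by rw [Fintype.card_fin, Nat.sub_zero]))
    refine rt_change (Xs := topSys (MSpace.sym n) p)
      (Ys := mSys (sM (Fin n)) fun t => p t - 0) hu (Equiv.refl _) ?_ h1
    intro A _ x t
    refine Eq.trans ?_ (fI_mSys (sM (Fin n)) (fun t => p t - 0) x t).symm
    have key : ∀ l : (topSys (MSpace.sym n) p).Λ, ev x ((topSys (MSpace.sym n) p).G l) =
        (((sM (Fin n)).map (ev x)).submatrix l.2.1 l.2.2).det := by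
      intro l
      exact RingHom.map_det (ev x) ((sM (Fin n)).submatrix l.2.1 l.2.2)
    refine le_antisymm (Ideal.span_le.2 ?_) (minI_sorted _ _ fun r c => ?_)
    · rintro y ⟨l, rfl, rfl⟩
      rw [SetLike.mem_coe, key l]
      exact det_mem _ _ _
    · exact Ideal.subset_span ⟨⟨t, (r, c)⟩, rfl, (key ⟨t, (r, c)⟩).symm⟩
  | skew n =>
    have h1 := tw_rt (K := K) (M := M) hu ha (tw_skew n p n 0 (Fin n)
      (Fintype.card_fin n) (by rw [Fintype.card_fin, Nat.mul_zero, Nat.sub_zero]))
    refine rt_change (Xs := topSys (MSpace.skew n) p)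
      (Ys := kSys (kM (Fin n)) fun t => p t - 0) hu (Equiv.refl _) ?_ h1
    intro A _ x t
    refine Eq.trans ?_ (fI_kSys (kM (Fin n)) (fun t => p t - 0) x t).symm
    have key : ∀ (t : Fin T) (r : Fin (2 * p t) ↪o Fin n),
        ev x ((topSys (MSpace.skew n) p).G ⟨t, r⟩) =
        pf (2 * p t) (((kM (Fin n)).map (ev x)).submatrix r r) := by
      intro t r
      exact pf_map (ev x) (2 * p t) ((kM (Fin n)).submatrix r r)
    refine le_antisymm (Ideal.span_le.2 ?_) (pfI_sorted _ (kM_alt x) _ fun r => ?_)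
    · rintro y ⟨⟨t', r⟩, ht, rfl⟩
      have ht' : t' = t := ht
      subst ht'
      rw [SetLike.mem_coe, key t' r]
      exact pf_mem _ _
    · exact Ideal.subset_span ⟨⟨t, r⟩, rfl, (key t r).symm⟩

/-- The form. -/
theorem fX_top (S : MSpace) {T : ℕ} (p a : Fin T → ℕ) : fX (topSys S p) a = S.formZ p a := by
  classical
  unfold fX MSpace.formZ
  refine Finset.prod_congr rfl fun t _ => ?_
  congr 1
  rw [Fintype.sum_sigma, Finset.sum_eq_single t]
  · refine Finset.sum_congr rfl fun j _ => ?_
    rw [if_pos rfl]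
  · intro t' _ ht'
    refine Finset.sum_eq_zero fun j _ => ?_
    rw [if_neg ht']
  · intro h
    exact absurd (Finset.mem_univ _) h

/-! ### the zeta functions -/

theorem good_one {K : Type} [Field K] : GoodE ({1} : Set (AlgebraicClosure K)) := by
  refine ⟨fun h => zero_ne_one (Set.mem_singleton_iff.1 h), ?_⟩
  exact Constr.eq (IsPF.coord (0 : Fin 1)) IsPF.one

theorem good_ne {K : Type} [Field K] : GoodE ({c | c ≠ 0} : Set (AlgebraicClosure K)) := by
  refine ⟨fun h => h rfl, ?_⟩
  exact Constr.not (Constr.eqz (IsPF.coord (0 : Fin 1)))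

theorem constr_point {K : Type} [Field K] {σ : Type} [Fintype σ] (x : σ → K) :
    Constr ({fun i => algebraMap K (AlgebraicClosure K) (x i)} : Set (Pt K σ)) := by
  have h1 : Constr {z : Pt K σ | ∀ i, z i = algebraMap K (AlgebraicClosure K) (x i)} :=
    Constr.all fun i => Constr.eq (IsPF.coord i) (IsPF.const (x i))
  have h2 : ({fun i => algebraMap K (AlgebraicClosure K) (x i)} : Set (Pt K σ)) =
      {z : Pt K σ | ∀ i, z i = algebraMap K (AlgebraicClosure K) (x i)} := by
    ext z
    exact ⟨fun h i => congrFun h i, fun h => funext h⟩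
  rw [h2]
  exact h1

theorem exists_meas (K : Type) [Field K] [CharZero K] : ∃ M : Meas K (MK K),
    M.L = ((Lu K : (MK K)ˣ) : MK K) ∧ ∀ (ι : Type) [Fintype ι] (S : Set (Pt K ι)),
      M.χ ι S = algebraMap (K0 K) (MK K) (cls ι S) := by
  obtain ⟨M, hM⟩ := Pool.Agent.W417.MT.K0.main K
  refine ⟨Pool.Agent.W63.MTFin.mapMeas M (algebraMap (K0 K) (MK K)), ?_, ?_⟩
  · change algebraMap (K0 K) (MK K) (M.χ (Fin 1) Set.univ) = _
    rw [hM]
    rfl
  · intro ι _ S
    change algebraMap (K0 K) (MK K) (M.χ ι S) = _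
    rw [hM]

end Pool.Agent.TH192.MT
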