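import Pool.Agent.TH192.MT.Rec
import Pool.Agent.TH192.PA.MinI

set_option autoImplicit false
set_option linter.unusedSectionVars false
set_option linter.unusedVariables false

/-! # Pivots from identities between ideals in the universal case -/

namespace Pool.Agent.TH192.MT

open MvPolynomial Matrix Pool.Agent.TH192.PA

theorem map_ev {A B : Type} [CommRing A] [CommRing B] (f : A →+* B) {σ : Type} (x : σ → A)
    (P : MvPolynomial σ ℤ) : f (ev x P) = ev (fun i => f (x i)) P := by
  induction P using MvPolynomial.induction_on with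
  | C a => rw [ev_C, ev_C, map_intCast]
  | add p q hp hq => rw [map_add, map_add, hp, hq, map_add]
  | mul_X p i hp => rw [map_mul, map_mul, map_mul, ev_X, ev_X, hp]

theorem ev_rename {A : Type} [CommRing A] {σ τ : Type} (f : σ → τ) (x : τ → A)
    (P : MvPolynomial σ ℤ) : ev x (rename f P) = ev (fun i => x (f i)) P := by
  induction P using MvPolynomial.induction_on with
  | C a => rw [rename_C, ev_C, ev_C]
  | add p q hp hq => rw [map_add, map_add, hp, hq, map_add]
  | mul_X p i hp => rw [map_mul, map_mul, map_mul, rename_X, ev_X, ev_X, hp]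

theorem ev_X_self {σ : Type} (P : MvPolynomial σ ℤ) : ev X P = P := by
  induction P using MvPolynomial.induction_on with
  | C a => rw [ev_C]; simp
  | add p q hp hq => rw [map_add, hp, hq]
  | mul_X p i hp => rw [map_mul, ev_X, hp]

/-- The ideal of the values of the family `t`. -/
def fI {T : ℕ} (X : Sys T) {A : Type} [CommRing A] (x : X.ι → A) (t : Fin T) : Ideal A :=
  Ideal.span {y | ∃ l, X.τ l = t ∧ y = ev x (X.G l)}

theorem mem_fI {T : ℕ} (X : Sys T) {A : Type} [CommRing A] (x : X.ι → A) (t : Fin T) (y : A)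
    (h : y ∈ fI X x t) : ∃ b : X.Λ → A, (∀ l, X.τ l ≠ t → b l = 0) ∧
      y = ∑ l, b l * ev x (X.G l) := by
  classical
  unfold fI at h
  induction h using Submodule.span_induction with
  | mem y hy =>
    obtain ⟨l, hl, rfl⟩ := hy
    refine ⟨fun m => if m = l then 1 else 0, fun m hm => ?_, ?_⟩
    · refine if_neg ?_
      rintro rfl
      exact hm hl
    · simp
  | zero => exact ⟨fun _ => 0, fun _ _ => rfl, by simp⟩
  | add y z _ _ hy hz =>
    obtain ⟨b, hb, rfl⟩ := hy
    obtain ⟨c, hc, rfl⟩ := hz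
    refine ⟨fun l => b l + c l, fun l hl => ?_, ?_⟩
    · simp only [hb l hl, hc l hl, add_zero]
    · rw [← Finset.sum_add_distrib]
      exact Finset.sum_congr rfl fun l _ => by ring
  | smul s y _ hy =>
    obtain ⟨b, hb, rfl⟩ := hy
    refine ⟨fun l => s * b l, fun l hl => ?_, ?_⟩
    · simp only [hb l hl, mul_zero]
    · rw [smul_eq_mul, Finset.mul_sum]
      exact Finset.sum_congr rfl fun l _ => by ring

/-- clearing the denominators -/
theorem clear {R0 : Type} [CommRing R0] (u : R0) {Λ : Type} [Fintype Λ]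
    (b : Λ → Localization.Away u) : ∃ (r : ℕ) (c : Λ → R0), ∀ l,
      algebraMap R0 (Localization.Away u) u ^ r * b l = algebraMap R0 (Localization.Away u) (c l) ∧
        (b l = 0 → c l = 0) := by
  classical
  obtain ⟨⟨_, r, rfl⟩, h⟩ := IsLocalization.exist_integer_multiples_of_finset
    (Submonoid.powers u) (Finset.univ.image b)
  have h1 : ∀ l, ∃ c, algebraMap R0 (Localization.Away u) c =
      algebraMap R0 (Localization.Away u) u ^ r * b l := by
    intro l
    obtain ⟨c, hc⟩ := h (b l) (Finset.mem_image.2 ⟨l, Finset.mem_univ l, rfl⟩)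
    refine ⟨c, hc.trans ?_⟩
    change (u ^ r) • b l = _
    rw [Algebra.smul_def, map_pow]
  choose c hc using h1
  refine ⟨r, fun l => if b l = 0 then 0 else c l, fun l => ?_⟩
  by_cases hb : b l = 0
  · simp only [if_pos hb]
    rw [hb, mul_zero, map_zero]
    simp
  · simp only [if_neg hb]
    exact ⟨(hc l).symm, fun h => absurd h hb⟩

/-- **Pivots from the universal case.** -/
theorem mkPiv {T : ℕ} (Xs Ys : Sys T) (P : Type) [Fintype P] (e : P ⊕ Ys.ι ≃ Xs.ι)
    (u : MvPolynomial P ℤ) (g : Ys.ι → MvPolynomial P ℤ)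
    (H : ∀ (A : Type) [CommRing A] (x : Xs.ι → A) (x' : Ys.ι → A),
      IsUnit (ev (fun q => x (e (Sum.inl q))) u) →
      (∀ y, ev (fun q => x (e (Sum.inl q))) u * x' y =
        ev (fun q => x (e (Sum.inl q))) u * x (e (Sum.inr y)) -
          ev (fun q => x (e (Sum.inl q))) (g y)) → ∀ t, fI Xs x t = fI Ys x' t) :
    ∃ p : Piv Xs Ys, ∀ (A : Type) [CommRing A] (x : Xs.ι → A),
      ev (fun q => x (p.e (Sum.inl q))) p.u = ev (fun q => x (e (Sum.inl q))) u := by
  classical
  set uX : MvPolynomial Xs.ι ℤ := rename (fun q => e (Sum.inl q)) u with huX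
  set L := Localization.Away uX with hL
  set am := algebraMap (MvPolynomial Xs.ι ℤ) L with ham
  set x1 : Xs.ι → L := fun i => am (X i) with hx1
  have hev : ∀ P : MvPolynomial Xs.ι ℤ, ev x1 P = am P := by
    intro P
    rw [hx1, ← map_ev am X P, ev_X_self]
  have hunit : IsUnit (am uX) := IsLocalization.Away.algebraMap_isUnit uX
  obtain ⟨w, hw⟩ := hunit
  have hxP : ∀ Q : MvPolynomial P ℤ, ev (fun q => x1 (e (Sum.inl q))) Q =
      am (rename (fun q => e (Sum.inl q)) Q) := by
    intro Q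
    rw [← hev, ev_rename]
  set x1' : Ys.ι → L := fun y => x1 (e (Sum.inr y)) -
    ((w⁻¹ : Lˣ) : L) * ev (fun q => x1 (e (Sum.inl q))) (g y) with hx1'
  have hU : IsUnit (ev (fun q => x1 (e (Sum.inl q))) u) := by
    rw [hxP, ← huX, ← hw]
    exact w.isUnit
  have hrel : ∀ y, ev (fun q => x1 (e (Sum.inl q))) u * x1' y =
      ev (fun q => x1 (e (Sum.inl q))) u * x1 (e (Sum.inr y)) -
        ev (fun q => x1 (e (Sum.inl q))) (g y) := by
    intro y
    have h1 : ev (fun q => x1 (e (Sum.inl q))) u = (w : L) := by rw [hxP, ← huX, ← hw]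
    rw [h1, hx1']
    simp only
    rw [mul_sub, ← mul_assoc, Units.mul_inv, one_mul]
  have hI := H L x1 x1' hU hrel
  have huXx : ∀ (A : Type) [CommRing A] (x : Xs.ι → A),
      ev x uX = ev (fun q => x (e (Sum.inl q))) u := fun A _ x => ev_rename _ _ _
  -- specialisation
  have spec : ∀ (A : Type) [CommRing A] (x : Xs.ι → A) (x' : Ys.ι → A),
      IsUnit (ev (fun q => x (e (Sum.inl q))) u) →
      (∀ y, ev (fun q => x (e (Sum.inl q))) u * x' y =
        ev (fun q => x (e (Sum.inl q))) u * x (e (Sum.inr y)) -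
          ev (fun q => x (e (Sum.inl q))) (g y)) →
      ∃ φ : L →+* A, (∀ Q, φ (am Q) = ev x Q) ∧ (∀ i, φ (x1 i) = x i) ∧
        (∀ y, φ (x1' y) = x' y) := by
    intro A _ x x' hx hxx'
    have h1 : IsUnit ((ev x) uX) := by
      rw [huX, ev_rename]
      exact hx
    refine ⟨IsLocalization.Away.lift (S := L) uX h1, fun Q => ?_, fun i => ?_, fun y => ?_⟩
    · exact IsLocalization.Away.lift_eq uX h1 Q
    · rw [hx1]
      simp only
      rw [ham, IsLocalization.Away.lift_eq uX h1, ev_X]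
    · set φ := IsLocalization.Away.lift (S := L) uX h1 with hφ
      have h2 : ∀ i, φ (x1 i) = x i := by
        intro i
        rw [hx1]
        simp only
        rw [hφ, ham, IsLocalization.Away.lift_eq uX h1, ev_X]
      have h3 := congrArg φ (hrel y)
      simp only [map_mul, map_sub, map_ev, h2] at h3
      exact hx.mul_left_cancel (h3.trans (hxx' y).symm)
  -- the coefficients
  have hc1 : ∀ l : Xs.Λ, ∃ (r : ℕ) (c : Ys.Λ → MvPolynomial Xs.ι ℤ),
      (∀ m, Ys.τ m ≠ Xs.τ l → c m = 0) ∧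
      am uX ^ r * ev x1 (Xs.G l) = ∑ m, am (c m) * ev x1' (Ys.G m) := by
    intro l
    have h1 : ev x1 (Xs.G l) ∈ fI Ys x1' (Xs.τ l) := by
      rw [← hI]
      exact Ideal.subset_span ⟨l, rfl, rfl⟩
    obtain ⟨b, hb, hb'⟩ := mem_fI Ys x1' _ _ h1
    obtain ⟨r, c, hc⟩ := clear uX b
    refine ⟨r, c, fun m hm => (hc m).2 (hb m hm), ?_⟩
    rw [hb', Finset.mul_sum]
    refine Finset.sum_congr rfl fun m _ => ?_
    rw [ham, ← (hc m).1, mul_assoc]
  have hc2 : ∀ m : Ys.Λ, ∃ (r : ℕ) (c : Xs.Λ → MvPolynomial Xs.ι ℤ),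
      (∀ l, Ys.τ m ≠ Xs.τ l → c l = 0) ∧
      am uX ^ r * ev x1' (Ys.G m) = ∑ l, am (c l) * ev x1 (Xs.G l) := by
    intro m
    have h1 : ev x1' (Ys.G m) ∈ fI Xs x1 (Ys.τ m) := by
      rw [hI]
      exact Ideal.subset_span ⟨m, rfl, rfl⟩
    obtain ⟨b, hb, hb'⟩ := mem_fI Xs x1 _ _ h1
    obtain ⟨r, c, hc⟩ := clear uX b
    refine ⟨r, c, fun l hl => (hc l).2 (hb l (Ne.symm hl)), ?_⟩
    rw [hb', Finset.mul_sum]
    refine Finset.sum_congr rfl fun l _ => ?_
    rw [ham, ← (hc l).1, mul_assoc]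
  choose r c hc0 hc using hc1
  choose r' c' hc0' hc' using hc2
  refine ⟨{ P := P, fP := inferInstance, e := e, u := u, g := g, r := r, c := c,
            c0 := fun l m h => hc0 l m h, hc := ?_, r' := r', c' := c',
            c0' := fun l m h => hc0' m l h, hc' := ?_ }, fun A _ x => rfl⟩
  · intro A _ x x' hx hxx' l
    obtain ⟨φ, h1, h2, h3⟩ := spec A x x' hx hxx'
    have h4 := congrArg φ (hc l)
    simp only [map_mul, map_pow, map_sum, h1, map_ev, h2, h3, huXx] at h4
    exact h4
  · intro A _ x x' hx hxx' m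
    obtain ⟨φ, h1, h2, h3⟩ := spec A x x' hx hxx'
    have h4 := congrArg φ (hc' m)
    simp only [map_mul, map_pow, map_sum, h1, map_ev, h2, h3, huXx] at h4
    exact h4

/-- **Pivots of matrices.** -/
theorem matPiv {T : ℕ} (Xs Ys : Sys T) {I J I' J' : Type} [Fintype I'] [Fintype J']
    (MX : Matrix I J (MvPolynomial Xs.ι ℤ)) (MY : Matrix I' J' (MvPolynomial Ys.ι ℤ))
    (pos : Ys.ι → I' × J') {k : ℕ} (e1 : Fin k ⊕ I' → I) (e2 : Fin k ⊕ J' → J)
    (j : Ys.ι → Xs.ι) (hj : Function.Injective j)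
    (hpos : ∀ y, MX (e1 (Sum.inr (pos y).1)) (e2 (Sum.inr (pos y).2)) = X (j y))
    (hP : ∀ (A : Type) [CommRing A] (x x' : Xs.ι → A), (∀ q, q ∉ Set.range j → x q = x' q) →
      ∀ a b, (∀ a' b', a = Sum.inr a' → b = Sum.inr b' → False) →
        ev x (MX (e1 a) (e2 b)) = ev x' (MX (e1 a) (e2 b)))
    (hS : ∀ (A : Type) [CommRing A] (x : Xs.ι → A), IsUnit (piv (MX.map (ev x)) e1 e2).det →
      MY.map (ev fun y => schur (MX.map (ev x)) e1 e2 (pos y).1 (pos y).2) =
        schur (MX.map (ev x)) e1 e2)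
    (hI : ∀ (A : Type) [CommRing A] (x : Xs.ι → A) (x' : Ys.ι → A),
      IsUnit (piv (MX.map (ev x)) e1 e2).det → MY.map (ev x') = schur (MX.map (ev x)) e1 e2 →
      ∀ t, fI Xs x t = fI Ys x' t) :
    ∃ p : Piv Xs Ys, ∀ (A : Type) [CommRing A] (x : Xs.ι → A),
      ev (fun q => x (p.e (Sum.inl q))) p.u = (piv (MX.map (ev x)) e1 e2).det := by
  classical
  set P := {q : Xs.ι // q ∉ Set.range j} with hPdef
  have hbij : Function.Bijective (Sum.elim (Subtype.val : P → Xs.ι) j) := by
    constructor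
    · rintro (a | a) (b | b) h
      · exact congrArg Sum.inl (Subtype.ext h)
      · exact absurd ⟨b, h.symm⟩ a.2
      · exact absurd ⟨a, h⟩ b.2
      · exact congrArg Sum.inr (hj h)
    · intro q
      by_cases h : q ∈ Set.range j
      · obtain ⟨y, rfl⟩ := h
        exact ⟨Sum.inr y, rfl⟩
      · exact ⟨Sum.inl ⟨q, h⟩, rfl⟩
  set e : P ⊕ Ys.ι ≃ Xs.ι := Equiv.ofBijective _ hbij with he
  have hel : ∀ q : P, e (Sum.inl q) = q.1 := fun q => rfl
  have her : ∀ y, e (Sum.inr y) = j y := fun y => rfl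
  -- killing the coordinates in the range of `j`
  set ρ : MvPolynomial Xs.ι ℤ →+* MvPolynomial P ℤ :=
    ev (fun q => if h : q ∉ Set.range j then X ⟨q, h⟩ else 0) with hρ
  have hρe : ∀ (A : Type) [CommRing A] (x : Xs.ι → A) (F : MvPolynomial Xs.ι ℤ),
      ev (fun q => x (e (Sum.inl q))) (ρ F) =
        ev (fun q => if q ∉ Set.range j then x q else 0) F := by
    intro A _ x F
    rw [hρ, map_ev]
    congr 1
    congr 1
    funext q
    split_ifs with h
    · exact map_zero _
    · rw [ev_X]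
      rfl
  set Am := piv MX e1 e2 with hAm
  set Bm := MX.submatrix (e1 ∘ Sum.inl) (e2 ∘ Sum.inr) with hBm
  set Cm := MX.submatrix (e1 ∘ Sum.inr) (e2 ∘ Sum.inl) with hCm
  have hAx : ∀ (A : Type) [CommRing A] (x : Xs.ι → A),
      Am.map (ev fun q => if q ∉ Set.range j then x q else 0) = piv (MX.map (ev x)) e1 e2 := by
    intro A _ x
    ext a b
    refine hP A _ x (fun q hq => if_pos hq) (Sum.inl a) (Sum.inl b) ?_
    intro a' b' h
    exact absurd h (by simp)
  have hBx : ∀ (A : Type) [CommRing A] (x : Xs.ι → A),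
      Bm.map (ev fun q => if q ∉ Set.range j then x q else 0) =
        (MX.map (ev x)).submatrix (e1 ∘ Sum.inl) (e2 ∘ Sum.inr) := by
    intro A _ x
    ext a b
    refine hP A _ x (fun q hq => if_pos hq) (Sum.inl a) (Sum.inr b) ?_
    intro a' b' h
    exact absurd h (by simp)
  have hCx : ∀ (A : Type) [CommRing A] (x : Xs.ι → A),
      Cm.map (ev fun q => if q ∉ Set.range j then x q else 0) =
        (MX.map (ev x)).submatrix (e1 ∘ Sum.inr) (e2 ∘ Sum.inl) := by
    intro A _ x
    ext a b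
    refine hP A _ x (fun q hq => if_pos hq) (Sum.inr a) (Sum.inl b) ?_
    intro a' b' _ h
    exact absurd h (by simp)
  have hdet : ∀ (A : Type) [CommRing A] (x : Xs.ι → A),
      ev (fun q => x (e (Sum.inl q))) (ρ Am.det) = (piv (MX.map (ev x)) e1 e2).det := by
    intro A _ x
    rw [hρe, RingHom.map_det, RingHom.mapMatrix_apply, hAx]
  obtain ⟨p, hp⟩ := mkPiv Xs Ys P e (ρ Am.det)
    (fun y => ρ ((Cm * Am.adjugate * Bm) (pos y).1 (pos y).2)) (by
      intro A _ x x' hx hxx'
      rw [hdet] at hx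
      refine hI A x x' hx ?_
      have h1 : x' = fun y => schur (MX.map (ev x)) e1 e2 (pos y).1 (pos y).2 := by
        funext y
        have h2 := hxx' y
        rw [hdet, hρe, her] at h2
        apply hx.mul_left_cancel
        rw [h2]
        have h3 : ev (fun q => if q ∉ Set.range j then x q else 0)
            ((Cm * Am.adjugate * Bm) (pos y).1 (pos y).2) =
            ((MX.map (ev x)).submatrix (e1 ∘ Sum.inr) (e2 ∘ Sum.inl) *
              (piv (MX.map (ev x)) e1 e2).adjugate *
              (MX.map (ev x)).submatrix (e1 ∘ Sum.inl) (e2 ∘ Sum.inr)) (pos y).1 (pos y).2 := by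
          rw [← hCx, ← hAx, ← hBx]
          set φ := ev fun q => if q ∉ Set.range j then x q else 0 with hφ
          have h5 : (Cm * Am.adjugate * Bm).map φ =
              Cm.map φ * (Am.map φ).adjugate * Bm.map φ := by
            rw [Matrix.map_mul, Matrix.map_mul]
            congr 2
            exact RingHom.map_adjugate φ Am
          rw [← h5]
          rfl
        rw [h3]
        unfold schur
        rw [Matrix.sub_apply, mul_sub]
        have h4 : (MX.map (ev x)).submatrix (e1 ∘ Sum.inr) (e2 ∘ Sum.inr) (pos y).1 (pos y).2 =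
            x (j y) := by
          change ev x (MX (e1 (Sum.inr (pos y).1)) (e2 (Sum.inr (pos y).2))) = _
          rw [hpos, ev_X]
        rw [h4]
        congr 1
        change _ = (piv (MX.map (ev x)) e1 e2).det *
          ((MX.map (ev x)).submatrix (e1 ∘ Sum.inr) (e2 ∘ Sum.inl) *
            (piv (MX.map (ev x)) e1 e2)⁻¹ *
            (MX.map (ev x)).submatrix (e1 ∘ Sum.inl) (e2 ∘ Sum.inr)) (pos y).1 (pos y).2
        rw [Matrix.inv_def, Matrix.mul_smul, Matrix.smul_mul, Matrix.smul_apply, smul_eq_mul,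
          ← mul_assoc, Ring.mul_inverse_cancel _ hx, one_mul]
      rw [h1]
      exact hS A x hx)
  exact ⟨p, fun A _ x => by rw [hp, hdet]⟩

end Pool.Agent.TH192.MT
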