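import Pool.Agent.TH192.MT.Rec
import Pool.Agent.W973.JILin
import Pool.Agent.W21.MTSub

set_option autoImplicit false
set_option linter.unusedSectionVars false
set_option linter.unusedVariables false

/-! # The auxiliary variables -/

namespace Pool.Agent.TH192.MT

open MvPolynomial Pool.Agent.W428.MOT Pool.Agent.TH192.DT

theorem sLin' : Pool.Agent.W749.JI.S_Lin :=
  Pool.Agent.W973.JILin.main Pool.Agent.W417.MT.Free.main Pool.Agent.W21.MTSub.main

section ser

variable {F : Type} [Field F]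

theorem ar_eq_sum {ι : Type} {N : ℕ} (z : ι × Fin (N + 1) → F) (i : ι) :
    ar z i = ∑ n : Fin (N + 1), PowerSeries.C (z (i, n)) * PowerSeries.X ^ (n : ℕ) := by
  ext j
  rw [coeff_ar, map_sum]
  simp only [PowerSeries.coeff_C_mul, PowerSeries.coeff_X_pow]
  split_ifs with h
  · rw [Finset.sum_eq_single (⟨j, h⟩ : Fin (N + 1))]
    · simp
    · intro n _ hn
      rw [if_neg, mul_zero]
      intro h1
      exact hn (Fin.ext h1.symm)
    · intro h1
      exact absurd (Finset.mem_univ _) h1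
  · symm
    refine Finset.sum_eq_zero fun n _ => ?_
    rw [if_neg, mul_zero]
    have := n.2
    omega

theorem coeff_ar_mul {ι : Type} {N : ℕ} (z : ι × Fin (N + 1) → F) (i : ι) (g : PowerSeries F)
    (k : ℕ) : PowerSeries.coeff k (ar z i * g) = ∑ n : Fin (N + 1), z (i, n) *
      (if (n : ℕ) ≤ k then PowerSeries.coeff (k - n) g else 0) := by
  rw [ar_eq_sum, Finset.sum_mul, map_sum]
  refine Finset.sum_congr rfl fun n _ => ?_
  rw [mul_assoc, PowerSeries.coeff_C_mul, PowerSeries.coeff_X_pow_mul']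

/-- the leading coefficient of a product of powers -/
theorem lead_prod {T : ℕ} (a γ : Fin T → ℕ) (H : Fin T → PowerSeries F)
    (h : ∀ t, Vn (γ t) (H t)) : Vn (∑ t, a t * γ t) (∏ t, H t ^ a t) ∧
      PowerSeries.coeff (∑ t, a t * γ t) (∏ t, H t ^ a t) =
        ∏ t, (PowerSeries.coeff (γ t) (H t)) ^ a t := by
  have h1 : ∀ t, ∃ G, H t = PowerSeries.X ^ γ t * G := fun t => vn_iff.1 (h t)
  choose G hG using h1
  have h2 : ∏ t, H t ^ a t = PowerSeries.X ^ (∑ t, a t * γ t) * ∏ t, G t ^ a t := by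
    rw [← Finset.prod_pow_eq_pow_sum, ← Finset.prod_mul_distrib]
    refine Finset.prod_congr rfl fun t _ => ?_
    rw [hG t, mul_pow, ← pow_mul, Nat.mul_comm (γ t)]
  have h3 : ∀ (n : ℕ) (d : PowerSeries F), PowerSeries.coeff n (PowerSeries.X ^ n * d) =
      PowerSeries.coeff 0 d := by
    intro n d
    have := PowerSeries.coeff_X_pow_mul d n 0
    rwa [Nat.zero_add] at this
  constructor
  · rw [h2, vn_iff]
    exact dvd_mul_right _ _
  · rw [h2, h3, PowerSeries.coeff_zero_eq_constantCoeff_apply, map_prod]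
    refine Finset.prod_congr rfl fun t _ => ?_
    rw [map_pow]
    congr 1
    rw [hG t, h3, PowerSeries.coeff_zero_eq_constantCoeff_apply]

theorem exists_lead (H : PowerSeries F) (h : H ≠ 0) : ∃ n, Vn n H ∧ PowerSeries.coeff n H ≠ 0 := by
  classical
  have h1 : ∃ n, PowerSeries.coeff n H ≠ 0 := by
    by_contra h2
    push Not at h2
    exact h (PowerSeries.ext fun n => by rw [h2 n, map_zero])
  refine ⟨Nat.find h1, fun j hj => ?_, Nat.find_spec h1⟩
  have := Nat.find_min h1 hj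
  push Not at this
  exact this

end ser

variable {K : Type} [Field K] {T : ℕ} (X : Sys T) (a : Fin T → ℕ)

open Classical in
/-- The form `F_t = ∑_l y_l G_l`. -/
noncomputable def Fs {F : Type} [Field F] {N : ℕ} (z : (X.Λ ⊕ X.ι) × Fin (N + 1) → F)
    (t : Fin T) : PowerSeries F :=
  ∑ l, if X.τ l = t then ar z (Sum.inl l) * ev (fun i => ar z (Sum.inr i)) (X.G l) else 0

/-- the jets with given orders -/
def EE (W : Set (Pt K (X.Λ ⊕ X.ι))) (E : Set (AlgebraicClosure K)) (N : ℕ) (α β : Fin T → ℕ) :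
    Set (Pt K ((X.Λ ⊕ X.ι) × Fin (N + 1))) :=
  {z | (fun i => z (i, 0)) ∈ W ∧ Van X α (fun i => ar z (Sum.inr i)) ∧
    (∀ t, ∃ l, X.τ l = t ∧ lam X α (fun i => ar z (Sum.inr i)) l ≠ 0) ∧
    (∀ t, Vn (α t + β t) (Fs X z t)) ∧ (∀ t, PowerSeries.coeff (α t + β t) (Fs X z t) ≠ 0) ∧
    ∏ t, (PowerSeries.coeff (α t + β t) (Fs X z t)) ^ a t ∈ E}

open Classical in
/-- the condition on the parameters, the origin and the leading coefficients -/
def VB (W : Set (Pt K (X.Λ ⊕ X.ι))) (E : Set (AlgebraicClosure K)) (B : Finset (Fin T)) :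
    Set (Pt K ((X.Λ ⊕ Fin T) ⊕ (X.ι ⊕ X.Λ))) :=
  {v | (Sum.elim (fun l => v (Sum.inl (Sum.inl l))) (fun i => v (Sum.inr (Sum.inl i))) :
      Pt K (X.Λ ⊕ X.ι)) ∈ W ∧
    (∀ t, ∃ l, X.τ l = t ∧ v (Sum.inr (Sum.inr l)) ≠ 0) ∧
    (∀ t, v (Sum.inl (Sum.inr t)) ≠ 0) ∧ ∏ t, v (Sum.inl (Sum.inr t)) ^ a t ∈ E ∧
    ∀ t, (∑ l, if X.τ l = t then v (Sum.inl (Sum.inl l)) * v (Sum.inr (Sum.inr l)) else 0) =
      if t ∈ B then 0 else v (Sum.inl (Sum.inr t))}

/-- A constructible set of non-zero scalars. -/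
def GoodE (E : Set (AlgebraicClosure K)) : Prop :=
  (0 : AlgebraicClosure K) ∉ E ∧ Constr {w : Pt K (Fin 1) | w 0 ∈ E}

theorem gd_VB (W : Set (Pt K (X.Λ ⊕ X.ι))) (E : Set (AlgebraicClosure K)) (B : Finset (Fin T)) :
    Gd X (VB X a W E B) := fun _ hv => hv.2.1

theorem constr_VB {W : Set (Pt K (X.Λ ⊕ X.ι))} (hW : Constr W) {E : Set (AlgebraicClosure K)}
    (hE : GoodE E) (B : Finset (Fin T)) : Constr (VB X a W E B) := by
  classical
  refine Constr.and ?_ (Constr.and ?_ (Constr.and ?_ (Constr.and ?_ ?_)))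
  · refine hW.preimage (fun v : Pt K ((X.Λ ⊕ Fin T) ⊕ (X.ι ⊕ X.Λ)) =>
      (Sum.elim (fun l => v (Sum.inl (Sum.inl l))) (fun i => v (Sum.inr (Sum.inl i))) :
        Pt K (X.Λ ⊕ X.ι))) ?_
    rintro (l | i) <;> exact IsPF.coord _
  · exact Constr.all fun t => Constr.ex fun l => Constr.and (Constr.const _)
      (Constr.not (Constr.eqz (IsPF.coord _)))
  · exact Constr.all fun t => Constr.not (Constr.eqz (IsPF.coord _))
  · exact hE.2.preimage (fun (v : Pt K ((X.Λ ⊕ Fin T) ⊕ (X.ι ⊕ X.Λ))) (_ : Fin 1) =>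
      ∏ t, v (Sum.inl (Sum.inr t)) ^ a t)
      fun _ => IsPF.prod _ _ fun t _ => (IsPF.coord _).pow _
  · refine Constr.all fun t => Constr.eq (IsPF.sum _ _ fun l _ => ?_) ?_
    · split_ifs
      · exact (IsPF.coord _).mul (IsPF.coord _)
      · exact IsPF.zero
    · split_ifs
      · exact IsPF.zero
      · exact IsPF.coord _

/-- the coordinates: parameters `y_0`, `c`; the jet of `x`; the rest of the jet of `y` -/
abbrev Big (X : Sys T) (N : ℕ) : Type :=
  ((X.Λ ⊕ Fin T) ⊕ X.ι × Fin (N + 1)) ⊕ (X.Λ × Fin N)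

/-- the jet of a point -/
def zz {N : ℕ} (w : Pt K (Big X N)) : Pt K ((X.Λ ⊕ X.ι) × Fin (N + 1)) := fun q =>
  Sum.elim (fun l => Fin.cases (motive := fun _ => AlgebraicClosure K)
    (w (Sum.inl (Sum.inl (Sum.inl l)))) (fun n => w (Sum.inr (l, n))) q.2)
    (fun i => w (Sum.inl (Sum.inr (i, q.2)))) q.1

/-- the point of a jet -/
noncomputable def uu {N : ℕ} (γ : Fin T → ℕ) (z : Pt K ((X.Λ ⊕ X.ι) × Fin (N + 1))) :
    Pt K (Big X N) :=
  Sum.elim (Sum.elim (Sum.elim (fun l => z (Sum.inl l, 0))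
    (fun t => PowerSeries.coeff (γ t) (Fs X z t))) (fun q => z (Sum.inr q.1, q.2)))
    (fun q => z (Sum.inl q.1, q.2.succ))

theorem zz_uu {N : ℕ} (γ : Fin T → ℕ) (z : Pt K ((X.Λ ⊕ X.ι) × Fin (N + 1))) :
    zz X (uu X γ z) = z := by
  funext ⟨i, j⟩
  rcases i with l | i
  · refine Fin.cases ?_ (fun j => ?_) j <;> rfl
  · rfl

variable {X}

/-- the linear conditions -/
def LC (X : Sys T) (N : ℕ) (α β : Fin T → ℕ) (w : Pt K (Big X N)) : Prop :=
  ∀ t, ∀ s, 1 ≤ s → s ≤ β t → PowerSeries.coeff (α t + s) (Fs X (zz X w) t) =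
    if s = β t then w (Sum.inl (Sum.inl (Sum.inr t))) else 0

open Classical in
theorem coeff_Fs {F : Type} [Field F] {N : ℕ} (z : (X.Λ ⊕ X.ι) × Fin (N + 1) → F) (t : Fin T)
    (k : ℕ) : PowerSeries.coeff k (Fs X z t) = ∑ l, if X.τ l = t then
      (z (Sum.inl l, 0) * PowerSeries.coeff k (ev (fun i => ar z (Sum.inr i)) (X.G l)) +
        ∑ n : Fin N, z (Sum.inl l, n.succ) * (if (n : ℕ) + 1 ≤ k then PowerSeries.coeff
          (k - ((n : ℕ) + 1)) (ev (fun i => ar z (Sum.inr i)) (X.G l)) else 0)) else 0 := by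
  unfold Fs
  rw [map_sum]
  refine Finset.sum_congr rfl fun l _ => ?_
  split_ifs with h
  · rw [coeff_ar_mul, Fin.sum_univ_succ]
    congr 1
  · exact map_zero _

open Classical in
theorem coeff_Fs_lead {F : Type} [Field F] {N : ℕ} (z : (X.Λ ⊕ X.ι) × Fin (N + 1) → F)
    (α : Fin T → ℕ) (h : Van X α (fun i => ar z (Sum.inr i))) (t : Fin T) :
    Vn (α t) (Fs X z t) ∧ PowerSeries.coeff (α t) (Fs X z t) =
      ∑ l, if X.τ l = t then z (Sum.inl l, 0) * lam X α (fun i => ar z (Sum.inr i)) l else 0 := by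
  constructor
  · refine vn_sum _ _ fun l _ => ?_
    split_ifs with hl
    · rw [← hl]
      exact vn_mul _ (h l)
    · exact fun _ _ => map_zero _
  · unfold Fs
    rw [map_sum]
    refine Finset.sum_congr rfl fun l _ => ?_
    split_ifs with hl
    · rw [← hl, coeff_mul_vn _ (h l), coeff_ar_zero]
      rfl
    · exact map_zero _

/-- the new coordinates of the jets with given orders -/
theorem EE_iff {W : Set (Pt K (X.Λ ⊕ X.ι))} {E : Set (AlgebraicClosure K)} {N : ℕ}
    {α β : Fin T → ℕ} {B : Finset (Fin T)} (hB : ∀ t, t ∈ B ↔ β t ≠ 0) (w : Pt K (Big X N)) :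
    ((fun i => w (Sum.inl i)) ∈ SS X (VB X a W E B) α N ∧ LC X N α β w) ↔
      (zz X w ∈ EE X a W E N α β ∧ ∀ t, w (Sum.inl (Sum.inl (Sum.inr t))) =
        PowerSeries.coeff (α t + β t) (Fs X (zz X w) t)) := by
  classical
  set x : X.ι → PowerSeries (AlgebraicClosure K) := fun i => ar (zz X w) (Sum.inr i) with hx
  have hxx : (ar fun q => (fun i => w (Sum.inl i)) (Sum.inr q)) = x := rfl
  have hW : (Sum.elim (fun l => dat X α (fun i => w (Sum.inl i)) (Sum.inl (Sum.inl l)))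
      (fun i => dat X α (fun i => w (Sum.inl i)) (Sum.inr (Sum.inl i))) : Pt K (X.Λ ⊕ X.ι)) =
      fun i => zz X w (i, 0) := by
    funext i
    rcases i with l | i <;> rfl
  rw [mem_SS, hxx]
  constructor
  · rintro ⟨⟨h1, h2, h3, h4, h5, h6⟩, h7⟩
    rw [hW] at h2
    obtain h8 := fun t => coeff_Fs_lead (zz X w) α h1 t
    have h9 : ∀ t, PowerSeries.coeff (α t) (Fs X (zz X w) t) =
        if t ∈ B then 0 else w (Sum.inl (Sum.inl (Sum.inr t))) := by
      intro t
      rw [(h8 t).2]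
      exact h6 t
    have hc : ∀ t, w (Sum.inl (Sum.inl (Sum.inr t))) =
        PowerSeries.coeff (α t + β t) (Fs X (zz X w) t) := by
      intro t
      by_cases ht : β t = 0
      · have h10 : α t + β t = α t := by omega
        rw [h10, h9, if_neg]
        rw [hB]
        exact fun h => h ht
      · rw [h7 t (β t) (Nat.one_le_iff_ne_zero.2 ht) le_rfl, if_pos rfl]
    refine ⟨⟨h2, h1, h3, ?_, ?_, ?_⟩, hc⟩
    · intro t j hj
      rcases lt_trichotomy j (α t) with h | h | h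
      · exact (h8 t).1 j h
      · subst h
        rw [h9, if_pos]
        rw [hB]
        omega
      · obtain ⟨s, rfl⟩ := Nat.exists_eq_add_of_lt h
        rw [Nat.add_assoc, h7 t (s + 1) (by omega) (by omega), if_neg (by omega)]
    · intro t
      rw [← hc t]
      exact h4 t
    · have : ∀ t, PowerSeries.coeff (α t + β t) (Fs X (zz X w) t) =
          dat X α (fun i => w (Sum.inl i)) (Sum.inl (Sum.inr t)) := fun t => (hc t).symm
      simp only [this]
      exact h5
  · rintro ⟨⟨h2, h1, h3, h4, h5, h6⟩, hc⟩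
    obtain h8 := fun t => coeff_Fs_lead (zz X w) α h1 t
    refine ⟨⟨h1, ?_, h3, ?_, ?_, ?_⟩, ?_⟩
    · rw [hW]
      exact h2
    · intro t
      change w (Sum.inl (Sum.inl (Sum.inr t))) ≠ 0
      rw [hc t]
      exact h5 t
    · change ∏ t, w (Sum.inl (Sum.inl (Sum.inr t))) ^ a t ∈ E
      simp only [hc]
      exact h6
    · intro t
      have h9 := (h8 t).2
      change (∑ l, if X.τ l = t then w (Sum.inl (Sum.inl (Sum.inl l))) * lam X α x l else 0) = _
      change _ = (∑ l, if X.τ l = t then w (Sum.inl (Sum.inl (Sum.inl l))) * lam X α x l else 0)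
        at h9
      rw [← h9]
      split_ifs with ht
      · exact h4 t (α t) (by have := (hB t).1 ht; omega)
      · have h10 : β t = 0 := by
          by_contra h11
          exact ht ((hB t).2 h11)
        change _ = w (Sum.inl (Sum.inl (Sum.inr t)))
        have h12 : α t + β t = α t := by omega
        rw [hc t, h12]
    · intro t s hs hs'
      split_ifs with h
      · rw [h, hc t]
      · exact h4 t _ (by omega)

end Pool.Agent.TH192.MT
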