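import Pool.Agent.TH192.MT.YP

set_option autoImplicit false
set_option linter.unusedSectionVars false
set_option linter.unusedVariables false

/-! # The class of the jets with given orders -/

namespace Pool.Agent.TH192.MT

open MvPolynomial Pool.Agent.W428.MOT Pool.Agent.TH192.DT

variable {K : Type} [Field K] {T : ℕ} {X : Sys T} (a : Fin T → ℕ)

theorem pf_Fs {κ : Type} {N : ℕ} (φ : Pt K κ → (X.Λ ⊕ X.ι) × Fin (N + 1) → AlgebraicClosure K)
    (hφ : ∀ i, IsPF fun z => φ z i) (t : Fin T) (k : ℕ) :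
    IsPF (fun z => PowerSeries.coeff k (Fs X (φ z) t)) := by
  classical
  simp only [coeff_Fs]
  refine IsPF.sum _ _ fun l _ => ?_
  have h1 : ∀ j, IsPF fun z => PowerSeries.coeff j (ev (fun i => ar (φ z) (Sum.inr i)) (X.G l)) :=
    fun j => pf_coeff (fun z (q : X.ι × Fin (N + 1)) => φ z (Sum.inr q.1, q.2)) (fun i => hφ _) _ j
  split_ifs
  · refine IsPF.add ((hφ _).mul (h1 _)) (IsPF.sum _ _ fun n _ => (hφ _).mul ?_)
    split_ifs
    · exact h1 _
    · exact IsPF.zero
  · exact IsPF.zero

theorem constr_EE {W : Set (Pt K (X.Λ ⊕ X.ι))} (hW : Constr W) {E : Set (AlgebraicClosure K)}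
    (hE : GoodE E) (N : ℕ) (α β : Fin T → ℕ) : Constr (EE X a W E N α β) := by
  have h1 : ∀ l j, IsPF fun z : Pt K ((X.Λ ⊕ X.ι) × Fin (N + 1)) =>
      PowerSeries.coeff j (ev (fun i => ar z (Sum.inr i)) (X.G l)) :=
    fun l j => pf_coeff (fun (z : Pt K ((X.Λ ⊕ X.ι) × Fin (N + 1))) (q : X.ι × Fin (N + 1)) =>
      z (Sum.inr q.1, q.2)) (fun i => IsPF.coord _) _ j
  have h2 : ∀ t k, IsPF fun z : Pt K ((X.Λ ⊕ X.ι) × Fin (N + 1)) =>
      PowerSeries.coeff k (Fs X z t) := fun t k => pf_Fs (fun z => z) (fun i => IsPF.coord _) t k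
  refine Constr.and ?_ (Constr.and ?_ (Constr.and ?_ (Constr.and ?_ (Constr.and ?_ ?_))))
  · exact hW.preimage _ fun i => IsPF.coord _
  · exact Constr.all fun l => Constr.allLt _ fun j _ => Constr.eqz (h1 _ _)
  · exact Constr.all fun t => Constr.ex fun l => Constr.and (Constr.const _)
      (Constr.not (Constr.eqz (h1 _ _)))
  · exact Constr.all fun t => Constr.allLt _ fun j _ => Constr.eqz (h2 _ _)
  · exact Constr.all fun t => Constr.not (Constr.eqz (h2 _ _))
  · exact hE.2.preimage (fun (z : Pt K ((X.Λ ⊕ X.ι) × Fin (N + 1))) (_ : Fin 1) =>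
      ∏ t, (PowerSeries.coeff (α t + β t) (Fs X z t)) ^ a t)
      fun _ => IsPF.prod _ _ fun t _ => (h2 _ _).pow _

theorem pf_zz {N : ℕ} (i : (X.Λ ⊕ X.ι) × Fin (N + 1)) :
    IsPF (fun w : Pt K (Big X N) => zz X w i) := by
  obtain ⟨i, j⟩ := i
  rcases i with l | i
  · refine Fin.cases ?_ (fun j => ?_) j <;> exact IsPF.coord _
  · exact IsPF.coord _

theorem pf_uu {N : ℕ} (γ : Fin T → ℕ) (i : Big X N) :
    IsPF (fun z : Pt K ((X.Λ ⊕ X.ι) × Fin (N + 1)) => uu X γ z i) := by
  rcases i with ((l | t) | q) | q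
  · exact IsPF.coord _
  · exact pf_Fs (fun z => z) (fun i => IsPF.coord _) _ _
  · exact IsPF.coord _
  · exact IsPF.coord _

theorem constr_LC {N : ℕ} (α β : Fin T → ℕ) : Constr {w : Pt K (Big X N) | LC X N α β w} := by
  refine Constr.all fun t => ?_
  have h1 : Constr {w : Pt K (Big X N) | ∀ s ≤ β t, 1 ≤ s →
      PowerSeries.coeff (α t + s) (Fs X (zz X w) t) =
        if s = β t then w (Sum.inl (Sum.inl (Sum.inr t))) else 0} := by
    refine Constr.allLe _ fun s _ => Constr.imp (Constr.const _) (Constr.eq ?_ ?_)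
    · exact pf_Fs (fun w => zz X w) (fun i => pf_zz i) _ _
    · split_ifs
      · exact IsPF.coord _
      · exact IsPF.zero
  have h2 : {w : Pt K (Big X N) | ∀ s, 1 ≤ s → s ≤ β t →
      PowerSeries.coeff (α t + s) (Fs X (zz X w) t) =
        if s = β t then w (Sum.inl (Sum.inl (Sum.inr t))) else 0} =
      {w : Pt K (Big X N) | ∀ s ≤ β t, 1 ≤ s →
      PowerSeries.coeff (α t + s) (Fs X (zz X w) t) =
        if s = β t then w (Sum.inl (Sum.inl (Sum.inr t))) else 0} := by
    ext w
    exact forall_congr' fun s => ⟨fun h h1 h2 => h h2 h1, fun h h1 h2 => h h2 h1⟩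
  rw [h2]
  exact h1

/-- the jet of `x` -/
noncomputable def xw {N : ℕ} (w : Pt K ((X.Λ ⊕ Fin T) ⊕ X.ι × Fin (N + 1))) :
    X.ι → PowerSeries (AlgebraicClosure K) := ar fun q => w (Sum.inr q)

open Classical in
/-- the coefficients of the linear conditions -/
noncomputable def DD {N : ℕ} (α : Fin T → ℕ) (t : Fin T) (s : ℕ) (v : Big X N)
    (w : Pt K ((X.Λ ⊕ Fin T) ⊕ X.ι × Fin (N + 1))) : AlgebraicClosure K :=
  match v with
  | Sum.inl _ => 0
  | Sum.inr q => if X.τ q.1 = t then (if (q.2 : ℕ) + 1 ≤ α t + s then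
      PowerSeries.coeff (α t + s - ((q.2 : ℕ) + 1)) (ev (xw w) (X.G q.1)) else 0) else 0

open Classical in
/-- the constant terms of the linear conditions -/
noncomputable def hh {N : ℕ} (α β : Fin T → ℕ) (t : Fin T) (s : ℕ)
    (w : Pt K ((X.Λ ⊕ Fin T) ⊕ X.ι × Fin (N + 1))) : AlgebraicClosure K :=
  (∑ l, if X.τ l = t then w (Sum.inl (Sum.inl l)) *
    PowerSeries.coeff (α t + s) (ev (xw w) (X.G l)) else 0) -
      (if s = β t then w (Sum.inl (Sum.inr t)) else 0)

/-- the free coordinates -/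
def CC (X : Sys T) (N : ℕ) : Finset (Big X N) :=
  Finset.univ.map (Function.Embedding.inr (α := (X.Λ ⊕ Fin T) ⊕ X.ι × Fin (N + 1)))

theorem cond_eq {N : ℕ} (α β : Fin T → ℕ) (t : Fin T) (s : ℕ) (w : Pt K (Big X N)) :
    ∑ v ∈ CC X N, DD α t s v (fun i => w (Sum.inl i)) * w v + hh α β t s (fun i => w (Sum.inl i)) =
      PowerSeries.coeff (α t + s) (Fs X (zz X w) t) -
        if s = β t then w (Sum.inl (Sum.inl (Sum.inr t))) else 0 := by
  classical
  unfold CC hh
  rw [Finset.sum_map, Fintype.sum_prod_type, coeff_Fs, ← add_sub_assoc, ← Finset.sum_add_distrib]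
  congr 1
  refine Finset.sum_congr rfl fun l _ => ?_
  by_cases h : X.τ l = t
  · rw [if_pos h, if_pos h, add_comm]
    congr 1
    refine Finset.sum_congr rfl fun n _ => ?_
    change DD α t s (Sum.inr (l, n)) (fun i => w (Sum.inl i)) * w (Sum.inr (l, n)) = _
    unfold DD
    simp only
    rw [if_pos h, mul_comm]
    rfl
  · rw [if_neg h, if_neg h, add_zero]
    refine Finset.sum_eq_zero fun n _ => ?_
    change DD α t s (Sum.inr (l, n)) (fun i => w (Sum.inl i)) * w (Sum.inr (l, n)) = _
    unfold DD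
    simp only
    rw [if_neg h, zero_mul]

variable {R : Type} [CommRing R] (M : Meas K R)

theorem chi_EE {W : Set (Pt K (X.Λ ⊕ X.ι))} (hW : Constr W) {E : Set (AlgebraicClosure K)}
    (hE : GoodE E) (N : ℕ) (α β : Fin T → ℕ) (B : Finset (Fin T)) (hB : ∀ t, t ∈ B ↔ β t ≠ 0)
    (hβ : ∀ t, β t ≤ N) : M.χ _ (EE X a W E N α β) * M.L ^ (∑ t, β t) =
      M.χ _ (SS X (VB X a W E B) α N) * M.L ^ (Fintype.card X.Λ * N) := by
  classical
  have hVB := constr_VB X a hW hE B
  have hSS := constr_SS X hVB α N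
  set S : Set (Pt K (Big X N)) := {w | (fun i => w (Sum.inl i)) ∈ SS X (VB X a W E B) α N} with hS
  have hSc : Constr S := hSS.preimage (fun w : Pt K (Big X N) => fun i => w (Sum.inl i))
    fun i => IsPF.coord _
  -- the isomorphism
  have h1 : M.χ _ (EE X a W E N α β) = M.χ _ (S ∩ {w | LC X N α β w}) := by
    refine M.iso _ _ (constr_EE a hW hE N α β) (hSc.inter (constr_LC α β))
      (uu X fun t => α t + β t) (zz X) (regularOn_poly (pf_uu _) _)
      (regularOn_poly pf_zz _) ?_ ?_ ?_ ?_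
    · intro z hz
      have h2 := (EE_iff (W := W) (E := E) a hB (uu X (fun t => α t + β t) z)).2
        ⟨by rw [zz_uu]; exact hz, fun t => by rw [zz_uu]; rfl⟩
      exact h2
    · intro w hw
      exact ((EE_iff a hB w).1 hw).1
    · intro z _
      exact zz_uu X _ z
    · intro w hw
      have h2 := ((EE_iff a hB w).1 hw).2
      funext i
      rcases i with ((l | t) | q) | q
      · rfl
      · exact (h2 t).symm
      · rfl
      · rfl
  -- the linear conditions
  set ε : (Σ t : Fin T, Fin (β t)) ≃ Fin (∑ t, β t) := finSigmaFinEquiv with hε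
  have hLC : {w : Pt K (Big X N) | LC X N α β w} = {w | ∀ p : Fin (∑ t, β t),
      ∑ v ∈ CC X N, DD α (ε.symm p).1 ((ε.symm p).2 + 1) v (fun i => w (Sum.inl i)) * w v +
        hh α β (ε.symm p).1 ((ε.symm p).2 + 1) (fun i => w (Sum.inl i)) = 0} := by
    ext w
    simp only [Set.mem_ofPred_eq, cond_eq, sub_eq_zero]
    constructor
    · intro h p
      exact h _ _ (Nat.succ_le_succ (Nat.zero_le _)) (ε.symm p).2.2
    · intro h t s hs hs'
      have h3 := h (ε ⟨t, ⟨s - 1, by omega⟩⟩)
      rw [Equiv.symm_apply_apply] at h3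
      have h4 : s - 1 + 1 = s := by omega
      simp only [h4] at h3
      exact h3
  have h2 := sLin' M (CC X N) (∑ t, β t) S
    (fun p v w => DD α (ε.symm p).1 ((ε.symm p).2 + 1) v (fun i => w (Sum.inl i)))
    (fun p w => hh α β (ε.symm p).1 ((ε.symm p).2 + 1) (fun i => w (Sum.inl i))) hSc ?_ ?_ ?_ ?_
  · rw [h1, hLC, h2]
    have h3 := chi_split M (Equiv.refl (Big X N)) S (SS X (VB X a W E B) α N) hSS
      (fun z => Iff.rfl)
    rw [h3, Fintype.card_prod, Fintype.card_fin]
  · -- the coefficients are polynomials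
    intro p v
    rcases v with v | ⟨l, n⟩
    · exact IsPF.zero
    · change IsPF fun w : Pt K (Big X N) => if X.τ l = _ then (if (n : ℕ) + 1 ≤ _ then
        PowerSeries.coeff _ (ev (xw fun i => w (Sum.inl i)) (X.G l)) else 0) else 0
      split_ifs
      · exact pf_coeff (fun (w : Pt K (Big X N)) (q : X.ι × Fin (N + 1)) =>
          w (Sum.inl (Sum.inr q))) (fun i => IsPF.coord _) _ _
      · exact IsPF.zero
      · exact IsPF.zero
  · intro p
    refine IsPF.sub (IsPF.sum _ _ fun l _ => ?_) ?_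
    · split_ifs
      · exact (IsPF.coord _).mul (pf_coeff (fun (w : Pt K (Big X N)) (q : X.ι × Fin (N + 1)) =>
          w (Sum.inl (Sum.inr q))) (fun i => IsPF.coord _) _ _)
      · exact IsPF.zero
    · split_ifs
      · exact IsPF.coord _
      · exact IsPF.zero
  · intro z w hzw
    have h3 : (fun i => w (Sum.inl i)) = fun i => z (Sum.inl i) := by
      funext i
      apply hzw
      unfold CC
      simp
    refine ⟨fun hz => ?_, fun p v => ?_, fun p => ?_⟩
    · change (fun i => w (Sum.inl i)) ∈ SS X (VB X a W E B) α N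
      rw [h3]
      exact hz
    · simp only [h3]
    · simp only [h3]
  · -- independence
    intro z hz l hl
    have hvan : Van X α (xw fun i => z (Sum.inl i)) := hz.1
    have hgd : ∀ t, ∃ m, X.τ m = t ∧ lam X α (xw fun i => z (Sum.inl i)) m ≠ 0 := hz.2.2.1
    have key : ∀ (t : Fin T) (k : ℕ) (s : Fin (β t)), β t ≤ (s : ℕ) + k → l (ε ⟨t, s⟩) = 0 := by
      intro t k
      induction k with
      | zero =>
        intro s hs
        have := s.2
        omega
      | succ k ih =>
        intro s hs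
        obtain ⟨m, hm, hm'⟩ := hgd t
        have hsN : (s : ℕ) < N := lt_of_lt_of_le s.2 (hβ t)
        have h30 := hl (Sum.inr (m, ⟨s, hsN⟩)) (Finset.mem_map.2 ⟨_, Finset.mem_univ _, rfl⟩)
        have h3 : ∑ ts : (Σ t : Fin T, Fin (β t)), l (ε ts) * DD α ts.1 ((ts.2 : ℕ) + 1)
            (Sum.inr (m, ⟨s, hsN⟩) : Big X N) (fun i => z (Sum.inl i)) = 0 := by
          rw [← h30, ← Equiv.sum_comp ε]
          refine Finset.sum_congr rfl fun ts _ => ?_
          rw [Equiv.symm_apply_apply]
        rw [Fintype.sum_sigma, Finset.sum_eq_single t, Finset.sum_eq_single s] at h3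
        · have h4 : DD α t ((s : ℕ) + 1) (Sum.inr (m, ⟨s, hsN⟩) : Big X N)
              (fun i => z (Sum.inl i)) = lam X α (xw fun i => z (Sum.inl i)) m := by
            unfold DD lam
            simp only
            rw [if_pos hm, if_pos (by omega), hm]
            congr 2
            omega
          rw [h4] at h3
          exact (mul_eq_zero.1 h3).resolve_right hm'
        · intro s' _ hs'
          rcases lt_or_gt_of_ne (fun h => hs' (Fin.ext h) : (s' : ℕ) ≠ s) with h | h
          · -- the coefficient vanishes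
            have h4 : DD α t ((s' : ℕ) + 1) (Sum.inr (m, ⟨s, hsN⟩) : Big X N)
                (fun i => z (Sum.inl i)) = 0 := by
              unfold DD
              simp only
              rw [if_pos hm]
              split_ifs with h5
              · refine hvan m _ ?_
                rw [hm]
                omega
              · rfl
            rw [h4, mul_zero]
          · rw [ih s' (by omega), zero_mul]
        · intro h
          exact absurd (Finset.mem_univ _) h
        · intro t' _ ht'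
          refine Finset.sum_eq_zero fun s' _ => ?_
          have h4 : DD α t' ((s' : ℕ) + 1) (Sum.inr (m, ⟨s, hsN⟩) : Big X N)
              (fun i => z (Sum.inl i)) = 0 := by
            unfold DD
            simp only
            rw [if_neg]
            rw [hm]
            exact fun h => ht' h.symm
          rw [h4, mul_zero]
        · intro h
          exact absurd (Finset.mem_univ _) h
    intro p
    obtain ⟨⟨t, s⟩, rfl⟩ := ε.surjective p
    exact key t (β t) s (Nat.le_add_left _ _)

theorem chi_EE' (v : R) (hv : M.L * v = 1) {W : Set (Pt K (X.Λ ⊕ X.ι))} (hW : Constr W)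
    {E : Set (AlgebraicClosure K)} (hE : GoodE E) (N : ℕ) (α β : Fin T → ℕ)
    (B : Finset (Fin T)) (hB : ∀ t, t ∈ B ↔ β t ≠ 0) (hα : ∀ t, α t ≤ N) (hβ : ∀ t, β t ≤ N) :
    M.χ _ (EE X a W E N α β) * v ^ (N * (Fintype.card X.Λ + Fintype.card X.ι)) =
      mm M v X (VB X a W E B) α * v ^ (∑ t, β t) := by
  have h1 := chi_EE a M hW hE N α β B hB hβ
  rw [← mm_eq M v hv X (constr_VB X a hW hE B) α N hα]
  have h2 : ∀ n, M.L ^ n * v ^ n = 1 := fun n => by rw [← mul_pow, hv, one_pow]
  have h3 := h2 (∑ t, β t)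
  have h4 := h2 (Fintype.card X.Λ * N)
  have h5 : v ^ (N * (Fintype.card X.Λ + Fintype.card X.ι)) =
      v ^ (Fintype.card X.Λ * N) * v ^ (N * Fintype.card X.ι) := by
    rw [← pow_add]
    congr 1
    ring
  rw [h5]
  linear_combination (v ^ (∑ t, β t) * v ^ (Fintype.card X.Λ * N) *
    v ^ (N * Fintype.card X.ι)) * h1 - (M.χ _ (EE X a W E N α β) *
    v ^ (Fintype.card X.Λ * N) * v ^ (N * Fintype.card X.ι)) * h3 +
    (M.χ _ (SS X (VB X a W E B) α N) * v ^ (N * Fintype.card X.ι) * v ^ (∑ t, β t)) * h4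

end Pool.Agent.TH192.MT
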