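import Pool.Agent.TH192.MT.YQ
import Pool.Agent.TH192.MT.Univ

set_option autoImplicit false
set_option linter.unusedSectionVars false
set_option linter.unusedVariables false

/-! # Rationality of the zeta functions -/

namespace Pool.Agent.TH192.MT

open MvPolynomial Pool.Agent.W428.MOT Pool.Agent.TH192.DT

section gf2

variable {R : Type} [CommRing R] {T : ℕ} (a : Fin T → ℕ)

/-- The pairs `(α, β)` with `∑ t, a t * (α t + β t) = N`. -/
def box2 (N : ℕ) : Finset ((Fin T → ℕ) × (Fin T → ℕ)) :=
  ((Fintype.piFinset fun _ => Finset.range (N + 1)) ×ˢ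
    (Fintype.piFinset fun _ => Finset.range (N + 1))).filter fun q =>
      ∑ t, a t * q.1 t + ∑ t, a t * q.2 t = N

theorem mem_box2 (ha : ∀ t, 0 < a t) {N : ℕ} {q : (Fin T → ℕ) × (Fin T → ℕ)} :
    q ∈ box2 a N ↔ ∑ t, a t * q.1 t + ∑ t, a t * q.2 t = N := by
  unfold box2
  rw [Finset.mem_filter, Finset.mem_product, Fintype.mem_piFinset, Fintype.mem_piFinset]
  refine ⟨fun h => h.2, fun h => ⟨⟨fun t => ?_, fun t => ?_⟩, h⟩⟩
  · rw [Finset.mem_range]
    have := le_of_sum a ha (show ∑ t, a t * q.1 t ≤ N by omega) t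
    omega
  · rw [Finset.mem_range]
    have := le_of_sum a ha (show ∑ t, a t * q.2 t ≤ N by omega) t
    omega

theorem gf_mul (ha : ∀ t, 0 < a t) (m k : (Fin T → ℕ) → R) :
    gf a m * gf a k = PowerSeries.mk fun N => ∑ q ∈ box2 a N, m q.1 * k q.2 := by
  classical
  ext N
  rw [PowerSeries.coeff_mul, PowerSeries.coeff_mk]
  have h1 : ∀ q ∈ box2 a N, (∑ t, a t * q.1 t, ∑ t, a t * q.2 t) ∈
      Finset.HasAntidiagonal.antidiagonal N := by
    intro q hq
    rw [Finset.HasAntidiagonal.mem_antidiagonal]
    exact (mem_box2 a ha).1 hq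
  rw [← Finset.sum_fiberwise_of_maps_to h1]
  refine Finset.sum_congr rfl fun ij hij => ?_
  rw [Finset.HasAntidiagonal.mem_antidiagonal] at hij
  unfold gf
  rw [PowerSeries.coeff_mk, PowerSeries.coeff_mk, Finset.sum_mul_sum, ← Finset.sum_product']
  refine Finset.sum_congr ?_ fun _ _ => rfl
  ext q
  rw [Finset.mem_product, mem_box a ha, mem_box a ha, Finset.mem_filter, mem_box2 a ha]
  constructor
  · rintro ⟨h2, h3⟩
    exact ⟨by omega, Prod.ext h2 h3⟩
  · rintro ⟨_, h3⟩
    exact ⟨congrArg Prod.fst h3, congrArg Prod.snd h3⟩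

open Classical in
/-- the weights -/
noncomputable def kB (v : R) (B : Finset (Fin T)) (β : Fin T → ℕ) : R :=
  if ∀ t, t ∈ B ↔ β t ≠ 0 then v ^ (∑ t, β t) else 0

open Classical in
/-- the weights with support in `B` -/
noncomputable def kC (v : R) (B : Finset (Fin T)) (β : Fin T → ℕ) : R :=
  if ∀ t, β t ≠ 0 → t ∈ B then v ^ (∑ t, β t) else 0

theorem kC_mem (u : Rˣ) (ha : ∀ t, 0 < a t) {D : Set (ℤ × ℤ)}
    (hD : ∀ t, (-1, (a t : ℤ)) ∈ D) (B : Finset (Fin T)) :
    gf a (kC ((u⁻¹ : Rˣ) : R) B) ∈ ratU u D := by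
  classical
  induction B using Finset.induction_on with
  | empty =>
    rw [gf_const a ha]
    · exact rat_C u _
    · rintro α ⟨t, ht⟩
      unfold kC
      rw [if_neg]
      intro h
      exact absurd (h t ht) (Finset.notMem_empty t)
  | insert s B hs ih =>
    set v := ((u⁻¹ : Rˣ) : R) with hv
    set e : Fin T → ℕ := fun t => if t = s then 1 else 0 with he
    set m : (Fin T → ℕ) → R := fun β => if β s ≠ 0 then kC v (insert s B) β else 0 with hm
    have h1 : kC v (insert s B) = fun β => kC v B β + m β := by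
      funext β
      simp only [hm]
      by_cases hβ : β s = 0
      · rw [if_neg (not_not.2 hβ), add_zero]
        unfold kC
        have h2 : (∀ t, β t ≠ 0 → t ∈ insert s B) ↔ ∀ t, β t ≠ 0 → t ∈ B := by
          refine forall_congr' fun t => ?_
          constructor
          · intro h h3
            rcases Finset.mem_insert.1 (h h3) with rfl | h4
            · exact absurd hβ h3
            · exact h4
          · intro h h3
            exact Finset.mem_insert_of_mem (h h3)
        simp only [h2]
      · rw [if_pos hβ]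
        have h2 : kC v B β = 0 := by
          unfold kC
          rw [if_neg]
          intro h
          exact hs (h s hβ)
        rw [h2, zero_add]
    have h3 : gf a m = PowerSeries.C v * PowerSeries.X ^ (∑ t, a t * e t) *
        gf a (kC v (insert s B)) := by
      refine gf_shift a ha e _ _ _ ?_ ?_
      · rintro α ⟨t, ht⟩
        simp only [hm]
        rw [if_neg]
        rw [not_not]
        by_cases h : t = s
        · subst h
          simp only [he, if_true] at ht
          omega
        · simp only [he, if_neg h] at ht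
          omega
      · intro β
        simp only [hm]
        have h4 : (e s + β s) ≠ 0 := by
          simp only [he, if_true]
          omega
        rw [if_pos h4]
        unfold kC
        have h5 : (∀ t, e t + β t ≠ 0 → t ∈ insert s B) ↔ ∀ t, β t ≠ 0 → t ∈ insert s B := by
          refine forall_congr' fun t => ?_
          constructor
          · intro h h6
            exact h (by omega)
          · intro h h6
            by_cases h7 : t = s
            · rw [h7]
              exact Finset.mem_insert_self _ _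
            · simp only [he, if_neg h7, Nat.zero_add] at h6
              exact h h6
        simp only [h5]
        split_ifs
        · rw [Finset.sum_add_distrib, pow_add]
          congr 1
          have h8 : ∑ t, e t = 1 := by simp [he]
          rw [h8, pow_one]
        · rw [mul_zero]
    have h4 : ∑ t, a t * e t = a s := by simp [he]
    have h5 : gf a (kC v (insert s B)) = gf a (kC v B) + PowerSeries.C (v ^ 1) *
        PowerSeries.X ^ a s * gf a (kC v (insert s B)) := by
      conv_lhs => rw [h1, gf_add]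
      rw [h3, h4, pow_one]
    exact geo_solve u (ν := 1) (ha s) (hD s) _ _ ih h5

theorem kB_mem (u : Rˣ) (ha : ∀ t, 0 < a t) {D : Set (ℤ × ℤ)}
    (hD : ∀ t, (-1, (a t : ℤ)) ∈ D) (B : Finset (Fin T)) :
    gf a (kB ((u⁻¹ : Rˣ) : R) B) ∈ ratU u D := by
  classical
  set v := ((u⁻¹ : Rˣ) : R) with hv
  set e : Fin T → ℕ := fun t => if t ∈ B then 1 else 0 with he
  have h3 : gf a (kB v B) = PowerSeries.C (v ^ B.card) * PowerSeries.X ^ (∑ t, a t * e t) *
      gf a (kC v B) := by
    refine gf_shift a ha e _ _ _ ?_ ?_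
    · rintro α ⟨t, ht⟩
      unfold kB
      rw [if_neg]
      intro h
      by_cases hB : t ∈ B
      · simp only [he, if_pos hB] at ht
        exact (h t).1 hB (by omega)
      · simp only [he, if_neg hB] at ht
        omega
    · intro β
      unfold kB kC
      have h5 : (∀ t, t ∈ B ↔ e t + β t ≠ 0) ↔ ∀ t, β t ≠ 0 → t ∈ B := by
        constructor
        · intro h t ht
          exact (h t).2 (by omega)
        · intro h t
          constructor
          · intro ht
            simp only [he, if_pos ht]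
            omega
          · intro ht
            by_contra h6
            simp only [he, if_neg h6, Nat.zero_add] at ht
            exact h6 (h t ht)
      simp only [h5]
      split_ifs
      · rw [Finset.sum_add_distrib, pow_add]
        congr 2
        simp [he]
      · rw [mul_zero]
  rw [h3]
  exact Subalgebra.mul_mem _ (Subalgebra.mul_mem _ (rat_C u _) (Subalgebra.pow_mem _ (rat_X u) _))
    (kC_mem a u ha hD B)

end gf2

/-! ### jets -/

section jets

variable {K : Type} [Field K]

theorem aeval_map_ev {σ : Type} (P : MvPolynomial σ ℤ)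
    (x : σ → PowerSeries (AlgebraicClosure K)) :
    aeval x (map (Int.castRingHom K) P) = ev x P := by
  induction P using MvPolynomial.induction_on with
  | C n =>
    rw [map_C, algHom_C, ev_C, eq_intCast, map_intCast]
  | add p q hp hq => rw [map_add, map_add, map_add, hp, hq]
  | mul_X p i hp => rw [map_mul, map_mul, map_mul, map_X, aeval_X, hp, ev_X]

variable {T : ℕ} (X : Sys T) (a : Fin T → ℕ)

open Classical in
/-- The form `∏ t, (∑_l y_l G_l) ^ a t`. -/
noncomputable def fX : MvPolynomial (X.Λ ⊕ X.ι) ℤ :=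
  ∏ t, (∑ l, if X.τ l = t then MvPolynomial.X (Sum.inl l) * rename Sum.inr (X.G l) else 0) ^ a t

theorem ev_fX {F : Type} [Field F] {N : ℕ} (z : (X.Λ ⊕ X.ι) × Fin (N + 1) → F) :
    ev (ar z) (fX X a) = ∏ t, Fs X z t ^ a t := by
  classical
  unfold fX Fs
  rw [map_prod]
  refine Finset.prod_congr rfl fun t _ => ?_
  rw [map_pow, map_sum]
  congr 1
  refine Finset.sum_congr rfl fun l _ => ?_
  split_ifs with h
  · rw [map_mul, ev_X, ev_rename]
  · rw [map_zero]

variable {X a}

theorem vn_uniq {F : Type} [Field F] {H : PowerSeries F} {n m : ℕ} (h1 : Vn n H)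
    (h2 : PowerSeries.coeff n H ≠ 0) (h3 : Vn m H) (h4 : PowerSeries.coeff m H ≠ 0) : n = m := by
  rcases lt_trichotomy n m with h | h | h
  · exact absurd (h3 n h) h2
  · exact h
  · exact absurd (h1 m h) h4

/-- the partition of the jets -/
theorem jets_eq (ha : ∀ t, 0 < a t) (W : Set (Pt K (X.Λ ⊕ X.ι)))
    {E : Set (AlgebraicClosure K)} (hE : (0 : AlgebraicClosure K) ∉ E) (N : ℕ) :
    JetS (map (Int.castRingHom K) (fX X a)) W E N =
      ⋃ q ∈ box2 a N, EE X a W E N q.1 q.2 := by
  classical
  ext z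
  have hsum : ∀ α β : Fin T → ℕ, ∑ t, a t * (α t + β t) = ∑ t, a t * α t + ∑ t, a t * β t := by
    intro α β
    rw [← Finset.sum_add_distrib]
    exact Finset.sum_congr rfl fun t _ => mul_add _ _ _
  simp only [JetS, Set.mem_ofPred_eq, aeval_map_ev, ev_fX, Set.mem_iUnion, exists_prop, Prod.exists,
    mem_box2 a ha]
  constructor
  · rintro ⟨h1, h2, h3⟩
    set P := ∏ t, Fs X z t ^ a t with hP
    have hPN : PowerSeries.coeff N P ≠ 0 := fun h => hE (h ▸ h3)
    have hF : ∀ t, Fs X z t ≠ 0 := by
      intro t ht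
      apply hPN
      have : P = 0 := Finset.prod_eq_zero (Finset.mem_univ t) (by
        rw [ht, zero_pow (ha t).ne'])
      rw [this, map_zero]
    choose γ hγ hγ' using fun t => exists_lead (Fs X z t) (hF t)
    obtain ⟨h4, h5⟩ := lead_prod a γ (Fs X z) hγ
    have h6 : PowerSeries.coeff (∑ t, a t * γ t) P ≠ 0 := by
      rw [hP, h5]
      exact Finset.prod_ne_zero_iff.2 fun t _ => pow_ne_zero _ (hγ' t)
    have hN : ∑ t, a t * γ t = N := vn_uniq h4 h6 h2 hPN
    -- the orders of the ideals
    have h7 : ∀ t, ∃ n, ∃ l, X.τ l = t ∧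
        PowerSeries.coeff n (ev (fun i => ar z (Sum.inr i)) (X.G l)) ≠ 0 := by
      intro t
      by_contra h
      push Not at h
      apply hF t
      unfold Fs
      refine Finset.sum_eq_zero fun l _ => ?_
      split_ifs with hl
      · have : ev (fun i => ar z (Sum.inr i)) (X.G l) = 0 :=
          PowerSeries.ext fun n => by rw [h n l hl, map_zero]
        rw [this, mul_zero]
      · rfl
    have hvan : Van X (fun t => Nat.find (h7 t)) (fun i => ar z (Sum.inr i)) := by
      intro l j hj
      have := Nat.find_min (h7 (X.τ l)) hj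
      push Not at this
      exact this l rfl
    have hle : ∀ t, Nat.find (h7 t) ≤ γ t := by
      intro t
      by_contra h
      push Not at h
      exact hγ' t ((coeff_Fs_lead z _ hvan t).1 _ h)
    have hadd : ∀ t, Nat.find (h7 t) + (γ t - Nat.find (h7 t)) = γ t :=
      fun t => Nat.add_sub_cancel' (hle t)
    refine ⟨fun t => Nat.find (h7 t), fun t => γ t - Nat.find (h7 t), ?_, h1, hvan, ?_, ?_, ?_, ?_⟩
    · rw [← hsum]
      simp only [hadd]
      exact hN
    · intro t
      obtain ⟨l, hl, hl'⟩ := Nat.find_spec (h7 t)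
      refine ⟨l, hl, ?_⟩
      unfold lam
      simp only [hl]
      exact hl'
    · intro t
      rw [hadd t]
      exact hγ t
    · intro t
      rw [hadd t]
      exact hγ' t
    · simp only [hadd]
      rw [← h5, hN]
      exact h3
  · rintro ⟨α, β, hN, h1, h2, h3, h4, h5, h6⟩
    obtain ⟨h7, h8⟩ := lead_prod a (fun t => α t + β t) (Fs X z) h4
    rw [hsum, hN] at h7 h8
    exact ⟨h1, h7, by rw [h8]; exact h6⟩

theorem jets_disj (W : Set (Pt K (X.Λ ⊕ X.ι))) (E : Set (AlgebraicClosure K)) (N : ℕ)
    (q q' : (Fin T → ℕ) × (Fin T → ℕ)) (h : q ≠ q') :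
    Disjoint (EE X a W E N q.1 q.2) (EE X a W E N q'.1 q'.2) := by
  rw [Set.disjoint_left]
  rintro z ⟨_, h2, h3, h4, h5, _⟩ ⟨_, h2', h3', h4', h5', _⟩
  apply h
  have h6 : q.1 = q'.1 := by
    funext t
    rcases lt_trichotomy (q.1 t) (q'.1 t) with h | h | h
    · exfalso
      obtain ⟨l, hl, hl'⟩ := h3 t
      exact hl' (h2' l _ (by rw [hl]; exact h))
    · exact h
    · exfalso
      obtain ⟨l, hl, hl'⟩ := h3' t
      exact hl' (h2 l _ (by rw [hl]; exact h))
  refine Prod.ext h6 ?_
  funext t
  have h7 := vn_uniq (h4 t) (h5 t) (h4' t) (h5' t)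
  have h8 := congrFun h6 t
  omega

variable {R : Type} [CommRing R]

/-- The zeta function `∑_d [jets] 𝕃 ^ (-n d) T ^ d`. -/
noncomputable def zetaS (M : Meas K R) (v : R) {σ : Type} [Fintype σ] (f : MvPolynomial σ K)
    (W : Set (Pt K σ)) (E : Set (AlgebraicClosure K)) : PowerSeries R :=
  PowerSeries.mk fun d => M.χ (σ × Fin (d + 1)) (JetS f W E d) * v ^ (d * Fintype.card σ)

theorem zetaS_eq (M : Meas K R) (v : R) (hv : M.L * v = 1) (ha : ∀ t, 0 < a t)
    {W : Set (Pt K (X.Λ ⊕ X.ι))} (hW : Constr W) {E : Set (AlgebraicClosure K)}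
    (hE : GoodE E) : zetaS M v (map (Int.castRingHom K) (fX X a)) W E =
      ∑ B : Finset (Fin T), gf a (mm M v X (VB X a W E B)) * gf a (kB v B) := by
  classical
  ext N
  rw [map_sum]
  simp only [gf_mul a ha, zetaS, PowerSeries.coeff_mk]
  rw [Finset.sum_comm, jets_eq ha W hE.1, Pool.Agent.W375.MT.chi_biUnion M _ _
    (fun q _ => constr_EE a hW hE N q.1 q.2) (fun q _ q' _ h => jets_disj W E N q q' h),
    Finset.sum_mul]
  refine Finset.sum_congr rfl fun q hq => ?_
  rw [mem_box2 a ha] at hq
  have hα : ∀ t, q.1 t ≤ N := fun t => le_of_sum a ha (by omega) t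
  have hβ : ∀ t, q.2 t ≤ N := fun t => le_of_sum a ha (by omega) t
  set B : Finset (Fin T) := Finset.univ.filter fun t => q.2 t ≠ 0 with hB
  have hB' : ∀ t, t ∈ B ↔ q.2 t ≠ 0 := fun t => by simp [hB]
  have h1 := chi_EE' a M v hv hW hE N q.1 q.2 B hB' hα hβ
  rw [Fintype.card_sum, h1, Finset.sum_eq_single B]
  · unfold kB
    rw [if_pos hB']
  · intro B' _ hne
    unfold kB
    rw [if_neg, mul_zero]
    intro h
    apply hne
    ext t
    rw [h t, hB']
  · intro h
    exact absurd (Finset.mem_univ _) h

/-- **Rationality of the zeta functions.** -/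
theorem zetaS_mem {M : Meas K R} {u : Rˣ} (hu : M.L = (u : R)) (ha : ∀ t, 0 < a t)
    {D : Set (ℤ × ℤ)} (hX : Rt u M a D X) (hD : ∀ t, (-1, (a t : ℤ)) ∈ D)
    {W : Set (Pt K (X.Λ ⊕ X.ι))} (hW : Constr W) {E : Set (AlgebraicClosure K)}
    (hE : GoodE E) :
    zetaS M ((u⁻¹ : Rˣ) : R) (map (Int.castRingHom K) (fX X a)) W E ∈ ratU u D := by
  rw [zetaS_eq M _ (hv hu) ha hW hE]
  exact Subalgebra.sum_mem _ fun B _ => Subalgebra.mul_mem _
    (hX _ _ (constr_VB X a hW hE B) (gd_VB X a W E B)) (kB_mem a u ha hD B)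

end jets

end Pool.Agent.TH192.MT
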